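import Pool.Agent.Lib.Pad9061.Defs

set_option autoImplicit false

/-!
# The adversary for chains of tribes
-/

namespace Pool.Agent.Lib.Pad9061

open Finset

/-- Largest gap: a finite set of points can be avoided by a subinterval that is not much
shorter. -/
theorem exists_gap (X : Finset ℕ) (lo hi : ℕ) (h : lo < hi) :
    ∃ lo' hi', lo ≤ lo' ∧ lo' < hi' ∧ hi' ≤ hi ∧ (∀ t ∈ X, t ≤ lo' ∨ hi' ≤ t) ∧
      hi - lo ≤ (hi' - lo') * 2 ^ X.card := by
  classical
  induction X using Finset.induction_on with
  | empty => exact ⟨lo, hi, le_rfl, h, le_rfl, by simp, by simp⟩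
  | insert x X hx ih =>
    obtain ⟨a, b, h1, h2, h3, h4, h5⟩ := ih
    rw [Finset.card_insert_of_notMem hx]
    by_cases hxa : x ≤ a
    · refine ⟨a, b, h1, h2, h3, ?_, ?_⟩
      · intro t ht
        rcases Finset.mem_insert.1 ht with rfl | ht
        · exact Or.inl hxa
        · exact h4 t ht
      · calc hi - lo ≤ (b - a) * 2 ^ X.card := h5
          _ ≤ (b - a) * 2 ^ (X.card + 1) := by gcongr <;> omega
    by_cases hxb : b ≤ x
    · refine ⟨a, b, h1, h2, h3, ?_, ?_⟩
      · intro t ht
        rcases Finset.mem_insert.1 ht with rfl | ht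
        · exact Or.inr hxb
        · exact h4 t ht
      · calc hi - lo ≤ (b - a) * 2 ^ X.card := h5
          _ ≤ (b - a) * 2 ^ (X.card + 1) := by gcongr <;> omega
    push Not at hxa hxb
    by_cases hlong : b - a ≤ 2 * (x - a)
    · refine ⟨a, x, h1, hxa, by omega, ?_, ?_⟩
      · intro t ht
        rcases Finset.mem_insert.1 ht with rfl | ht
        · exact Or.inr le_rfl
        · rcases h4 t ht with h | h
          · exact Or.inl h
          · exact Or.inr (by omega)
      · calc hi - lo ≤ (b - a) * 2 ^ X.card := h5
          _ ≤ (2 * (x - a)) * 2 ^ X.card := by gcongr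
          _ = (x - a) * 2 ^ (X.card + 1) := by ring
    · refine ⟨x, b, by omega, hxb, h3, ?_, ?_⟩
      · intro t ht
        rcases Finset.mem_insert.1 ht with rfl | ht
        · exact Or.inl le_rfl
        · rcases h4 t ht with h | h
          · exact Or.inl (by omega)
          · exact Or.inr h
      · calc hi - lo ≤ (b - a) * 2 ^ X.card := h5
          _ ≤ (2 * (b - x)) * 2 ^ X.card := by
            gcongr
            omega
          _ = (b - x) * 2 ^ (X.card + 1) := by ring

/-- Greedy choice of distinct representatives. -/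
theorem exists_distinct {α : Type} [DecidableEq α] (Y : Finset ℕ) (U : ℕ → Finset α) (κ : ℕ) :
    ∀ J0 : Finset α, (∀ t ∈ Y, κ ≤ (U t).card) → J0.card + Y.card ≤ κ → (∀ _ : Nonempty α, True) →
    ∀ _ : Inhabited α,
    ∃ f : ℕ → α, (∀ t ∈ Y, f t ∈ U t ∧ f t ∉ J0) ∧ ∀ t ∈ Y, ∀ t' ∈ Y, f t = f t' → t = t' := by
  induction Y using Finset.induction_on with
  | empty => intro J0 _ _ _ _; exact ⟨fun _ => default, by simp, by simp⟩
  | insert x Y hx ih =>
    intro J0 hU hc hn hi
    rw [Finset.card_insert_of_notMem hx] at hc
    have h1 : J0.card < (U x).card := by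
      have := hU x (Finset.mem_insert_self _ _)
      omega
    obtain ⟨c, hcU, hcJ⟩ := Finset.exists_mem_notMem_of_card_lt_card h1
    obtain ⟨f, hf1, hf2⟩ := ih (insert c J0) (fun t ht => hU t (Finset.mem_insert_of_mem ht))
      (by rw [Finset.card_insert_of_notMem hcJ]; omega) hn hi
    refine ⟨fun t => if t = x then c else f t, ?_, ?_⟩
    · intro t ht
      by_cases htx : t = x
      · simp only [htx, if_true]
        exact ⟨hcU, hcJ⟩
      · simp only [htx, if_false]
        have htY : t ∈ Y := (Finset.mem_insert.1 ht).resolve_left htx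
        refine ⟨(hf1 t htY).1, fun h => (hf1 t htY).2 (Finset.mem_insert_of_mem h)⟩
    · intro t ht t' ht' heq
      by_cases htx : t = x <;> by_cases htx' : t' = x
      · rw [htx, htx']
      · exfalso
        simp only [htx, htx', if_true, if_false] at heq
        have htY : t' ∈ Y := (Finset.mem_insert.1 ht').resolve_left htx'
        exact (hf1 t' htY).2 (by rw [← heq]; exact Finset.mem_insert_self _ _)
      · exfalso
        simp only [htx, htx', if_true, if_false] at heq
        have htY : t ∈ Y := (Finset.mem_insert.1 ht).resolve_left htx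
        exact (hf1 t htY).2 (by rw [heq]; exact Finset.mem_insert_self _ _)
      · simp only [htx, htx', if_false] at heq
        exact hf2 t ((Finset.mem_insert.1 ht).resolve_left htx) t'
          ((Finset.mem_insert.1 ht').resolve_left htx') heq

end Pool.Agent.Lib.Pad9061
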