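import Pool.Agent.Lib.Pad9061.Rounds

set_option autoImplicit false

/-!
# Path costs: removal of repetitions, binary search, recursion
-/

namespace Pool.Agent.Lib.Pad9061

open Finset

section

variable {V X : Type} [DecidableEq V] [DecidableEq X] (S : Sys V X)

/-- The boundary goal. -/
def Bd (c : ℕ → Finset X) (m : ℕ) (ρ : PA V) : Prop :=
  ∃ t < m, S.AllT ρ (c t) ∧ S.SomeF ρ (c (t + 1))

/-- Every path of configurations of size at most `s` can be solved by trees of depth `D`. -/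
def PathCost (𝓔 : Finset X) (s D : ℕ) : Prop :=
  ∀ (c : ℕ → Finset X) (m : ℕ) (ρ : PA V), (∀ t ≤ m, S.Ev (c t) ∧ sz S.wt (c t) ≤ s ∧ c t ⊆ 𝓔) →
    S.AllT ρ (c 0) → S.SomeF ρ (c m) → Solve (Bd S c m) D ρ

/-- The same for paths without repetitions. -/
def PathCostInj (𝓔 : Finset X) (s D : ℕ) : Prop :=
  ∀ (c : ℕ → Finset X) (m : ℕ) (ρ : PA V), (∀ i j, i < j → j ≤ m → c i ≠ c j) →
    (∀ t ≤ m, S.Ev (c t) ∧ sz S.wt (c t) ≤ s ∧ c t ⊆ 𝓔) →
    S.AllT ρ (c 0) → S.SomeF ρ (c m) → Solve (Bd S c m) D ρ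

theorem pathCost_of_inj {𝓔 : Finset X} {s D : ℕ} (h : PathCostInj S 𝓔 s D) :
    PathCost S 𝓔 s D := by
  have key : ∀ (n : ℕ) (c : ℕ → Finset X) (m : ℕ) (ρ : PA V), m ≤ n →
      (∀ t ≤ m, S.Ev (c t) ∧ sz S.wt (c t) ≤ s ∧ c t ⊆ 𝓔) →
      S.AllT ρ (c 0) → S.SomeF ρ (c m) → Solve (Bd S c m) D ρ := by
    intro n
    induction n with
    | zero =>
      intro c m ρ hm hc hT hF
      exact h c m ρ (fun i j hij hj => by omega) hc hT hF
    | succ n ih =>
      intro c m ρ hm hc hT hF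
      by_cases hinj : ∀ i j, i < j → j ≤ m → c i ≠ c j
      · exact h c m ρ hinj hc hT hF
      push Not at hinj
      obtain ⟨i, j, hij, hjm, heq⟩ := hinj
      obtain ⟨e, rfl⟩ : ∃ e, j = i + e + 1 := ⟨j - i - 1, by omega⟩
      set c' : ℕ → Finset X := fun t => if t ≤ i then c t else c (t + (e + 1)) with hc'
      have h1 := ih c' (m - (e + 1)) ρ (by omega)
        (by
          intro t ht
          simp only [hc']
          split_ifs with hti
          · exact hc t (by omega)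
          · exact hc _ (by omega))
        (by simpa [hc'] using hT)
        (by
          simp only [hc']
          split_ifs with hti
          · have h2 : m - (e + 1) = i := by omega
            rw [h2, heq]
            have h3 : i + e + 1 = m := by omega
            rw [h3]
            exact hF
          · have h2 : m - (e + 1) + (e + 1) = m := by omega
            rw [h2]
            exact hF)
      refine h1.weaken fun ρ' _ hb => ?_
      obtain ⟨t, ht, hTt, hFt⟩ := hb
      simp only [hc'] at hTt hFt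
      by_cases h3 : t + 1 ≤ i
      · rw [if_pos (by omega)] at hTt
        rw [if_pos h3] at hFt
        exact ⟨t, by omega, hTt, hFt⟩
      · rw [if_neg h3] at hFt
        by_cases h4 : t ≤ i
        · rw [if_pos h4] at hTt
          have h5 : t = i := by omega
          subst h5
          rw [heq] at hTt
          refine ⟨t + e + 1, by omega, hTt, ?_⟩
          have h6 : t + e + 1 + 1 = t + 1 + (e + 1) := by omega
          rw [h6]
          exact hFt
        · rw [if_neg h4] at hTt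
          refine ⟨t + (e + 1), by omega, hTt, ?_⟩
          have h6 : t + (e + 1) + 1 = t + 1 + (e + 1) := by omega
          rw [h6]
          exact hFt
  intro c m ρ hc hT hF
  exact key m c m ρ le_rfl hc hT hF

/-- Binary search. -/
theorem bin_search (c : ℕ → Finset X) {s : ℕ} :
    ∀ (k a b : ℕ) (ρ : PA V), a < b → b - a ≤ 2 ^ k →
      (∀ t, a ≤ t → t ≤ b → S.Ev (c t) ∧ sz S.wt (c t) ≤ s) → S.AllT ρ (c a) → S.SomeF ρ (c b) →
      Solve (fun ρ' => ∃ t, a ≤ t ∧ t < b ∧ S.AllT ρ' (c t) ∧ S.SomeF ρ' (c (t + 1)))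
        (k * (S.e0 + s)) ρ := by
  intro k
  induction k with
  | zero =>
    intro a b ρ hab hlen hc hT hF
    have : b = a + 1 := by simp at hlen; omega
    subst this
    exact Solve.done ⟨a, le_rfl, by omega, hT, hF⟩
  | succ k ih =>
    intro a b ρ hab hlen hc hT hF
    by_cases h1 : b = a + 1
    · subst h1
      exact Solve.done ⟨a, le_rfl, by omega, hT, hF⟩
    have e : (k + 1) * (S.e0 + s) = (S.e0 + s) + k * (S.e0 + s) := by ring
    rw [e]
    set μ := (a + b) / 2 with hμ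
    have hμ1 : a < μ ∧ μ < b := by omega
    rw [pow_succ] at hlen
    refine (S.eval' (hc μ hμ1.1.le hμ1.2.le).1 (hc μ hμ1.1.le hμ1.2.le).2 ρ).bind
      fun ρ1 he h => ?_
    rcases h with h | h
    · refine (ih μ b ρ1 hμ1.2 (by omega) (fun t h1 h2 => hc t (by omega) h2) h (hF.mono he)).weaken
        fun ρ2 _ h2 => ?_
      obtain ⟨t, t1, t2, t3⟩ := h2
      exact ⟨t, by omega, t2, t3⟩
    · refine (ih a μ ρ1 hμ1.1 (by omega) (fun t h1 h2 => hc t h1 (by omega)) (hT.mono he) h).weaken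
        fun ρ2 _ h2 => ?_
      obtain ⟨t, t1, t2, t3⟩ := h2
      exact ⟨t, t1, by omega, t3⟩

open Classical in
/-- The length of a path without repetitions. -/
theorem length_lt {𝓔 : Finset X} {s k : ℕ}
    (hcount : ((𝓔.powerset).filter (fun Y => S.Ev Y ∧ sz S.wt Y ≤ s)).card ≤ 2 ^ k)
    {c : ℕ → Finset X} {m : ℕ} (hinj : ∀ i j, i < j → j ≤ m → c i ≠ c j)
    (hc : ∀ t ≤ m, S.Ev (c t) ∧ sz S.wt (c t) ≤ s ∧ c t ⊆ 𝓔) : m < 2 ^ k := by
  classical
  have h1 : ((range (m + 1)).image c).card = m + 1 := by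
    rw [card_image_of_injOn, card_range]
    intro i hi j hj hij
    have hi' : i < m + 1 := by simpa using hi
    have hj' : j < m + 1 := by simpa using hj
    rcases lt_trichotomy i j with h | h | h
    · exact absurd hij (hinj i j h (by omega))
    · exact h
    · exact absurd hij.symm (hinj j i h (by omega))
  have h2 : (range (m + 1)).image c ⊆ (𝓔.powerset).filter (fun Y => S.Ev Y ∧ sz S.wt Y ≤ s) := by
    intro Y hY
    obtain ⟨t, ht, rfl⟩ := mem_image.1 hY
    have := hc t (by have := mem_range.1 ht; omega)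
    exact mem_filter.2 ⟨mem_powerset.2 this.2.2, this.1, this.2.1⟩
  have := (card_le_card h2).trans hcount
  omega

open Classical in
/-- The base case: binary search on a path without repetitions. -/
theorem pathCost_base {𝓔 : Finset X} {s k : ℕ}
    (hcount : ((𝓔.powerset).filter (fun Y => S.Ev Y ∧ sz S.wt Y ≤ s)).card ≤ 2 ^ k) :
    PathCost S 𝓔 s (k * (S.e0 + s)) := by
  apply pathCost_of_inj
  intro c m ρ hinj hc hT hF
  have hm : m < 2 ^ k := length_lt S hcount hinj hc
  by_cases hm0 : m = 0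
  · exfalso
    subst hm0
    obtain ⟨y, hy, hyF⟩ := hF
    exact S.excl (hT y hy) hyF
  refine (bin_search S c k 0 m ρ (by omega) (by omega)
    (fun t _ ht => ⟨(hc t ht).1, (hc t ht).2.1⟩) hT hF).weaken fun ρ' _ h => ?_
  obtain ⟨t, -, t2, t3⟩ := h
  exact ⟨t, t2, t3⟩

theorem up_init (c : ℕ → Finset X) {s : ℕ} {𝓔 : Finset X} (h𝓔 : 𝓔.Nonempty) (J : Finset ℕ)
    (hc : ∀ t ∈ J, sz S.wt (c t) ≤ s) : Up S.wt c s 𝓔 J (Real.log 𝓔.card + 1) :=
  fun _ hπ => Hd_le hπ hc h𝓔

/-- The recursion. -/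
theorem pathCost_recur {𝓔 : Finset X} {s s' D' : ℕ} (hs : 0 < s) (h𝓔 : 𝓔.Nonempty) {δ : ℝ}
    (hs' : 3 * δ * s ≤ s') (hE : ∀ E ∈ 𝓔, S.wt E ≤ s') {K : ℕ}
    (hK : Real.log 𝓔.card + 1 < K * δ) (h' : PathCost S 𝓔 s' D') :
    PathCost S 𝓔 s (K * (S.e0 + s + (D' + (S.e0 + s)))) := by
  intro c m ρ hc hT hF
  have key : ∀ (K a b : ℕ) (x : ℝ) (ρ : PA V),
      (∀ t, a ≤ t → t ≤ b → S.Ev (c t) ∧ sz S.wt (c t) ≤ s ∧ c t ⊆ 𝓔) →
      Up S.wt c s 𝓔 (Ioo a b) x → x < K * δ → a < b →
      S.AllT ρ (c a) → S.SomeF ρ (c b) →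
      Solve (fun ρ' => ∃ t, a ≤ t ∧ t < b ∧ S.AllT ρ' (c t) ∧ S.SomeF ρ' (c (t + 1)))
        (K * (S.e0 + s + (D' + (S.e0 + s)))) ρ := by
    intro K
    induction K with
    | zero =>
      intro a b x ρ hEv hU hx hab hT hF
      have h1 : Ioo a b = ∅ := eq_empty_of_up (x := x) (by simpa using hx)
        (fun t ht => by
          have := mem_Ioo.1 ht
          exact (hEv t this.1.le this.2.le).2.1) hU
      have h2 : b = a + 1 := by
        by_contra hne
        have : a + 1 ∈ Ioo a b := mem_Ioo.2 ⟨by omega, by omega⟩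
        rw [h1] at this
        simp at this
      subst h2
      exact Solve.done ⟨a, le_rfl, by omega, hT, hF⟩
    | succ K ih =>
      intro a b x ρ hEv hU hx hab hT hF
      have e : (K + 1) * (S.e0 + s + (D' + (S.e0 + s))) =
          (S.e0 + s + (D' + (S.e0 + s))) + K * (S.e0 + s + (D' + (S.e0 + s))) := by ring
      rw [e]
      refine (phase S c (s' := s') (csub := D') hs hEv hs' hE hU
        (fun _ _ => False) ?_ hab hT hF).bind fun ρ' he h => ?_
      · intro xs p d hxs hx0 hxp hd ρ' hT' hF'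
        refine (h' d p ρ' hd hT' hF').weaken fun ρ'' _ h => ?_
        obtain ⟨t, ht, hTt, hFt⟩ := h
        exact ⟨t, t + 1, by omega, by omega, hTt, hFt, Or.inl rfl⟩
      · obtain ⟨a', b', h1, h2, h3, hT', hF', hor⟩ := h
        rcases hor with hdrop | hfalse
        · refine (ih a' b' (x - δ) ρ' (fun t ht1 ht2 => hEv t (by omega) (by omega)) hdrop ?_ h2
            hT' hF').weaken fun ρ'' _ h => ?_
          · push_cast at hx
            linarith
          · obtain ⟨t, t1, t2, t3, t4⟩ := h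
            exact ⟨t, by omega, by omega, t3, t4⟩
        · exact hfalse.elim
  by_cases hm0 : m = 0
  · exfalso
    subst hm0
    obtain ⟨y, hy, hyF⟩ := hF
    exact S.excl (hT y hy) hyF
  refine (key K 0 m _ ρ (fun t _ ht => hc t ht) (up_init S c h𝓔 _ (fun t ht => ?_)) hK
    (by omega) hT hF).weaken fun ρ' _ h => ?_
  · have := mem_Ioo.1 ht
    exact (hc t this.2.le).2.1
  · obtain ⟨t, -, t2, t3⟩ := h
    exact ⟨t, t2, t3⟩

open Classical in
/-- The bound with rounds of halvings. -/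
theorem pathCost_rounds {𝓔 : Finset X} {s s' k R K K' : ℕ} (hs : 0 < s) (h𝓔 : 𝓔.Nonempty) {δ : ℝ}
    (hs' : 3 * δ * s ≤ s') (hE : ∀ E ∈ 𝓔, S.wt E ≤ s')
    (hcount : ((𝓔.powerset).filter (fun Y => S.Ev Y ∧ sz S.wt Y ≤ s)).card ≤ 2 ^ k)
    (hK : Real.log 𝓔.card + 1 < K * δ) (hK' : k ≤ R * K') :
    PathCost S 𝓔 s ((K + K') * (S.e0 + s + (R * (2 * (S.e0 + s')) + (S.e0 + s)))) := by
  apply pathCost_of_inj
  intro c m ρ hinj hc hT hF
  have hm : m < 2 ^ k := length_lt S hcount hinj hc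
  by_cases hm0 : m = 0
  · exfalso
    subst hm0
    obtain ⟨y, hy, hyF⟩ := hF
    exact S.excl (hT y hy) hyF
  refine (rounds S c hs hs' hE R (K + K') K K' 0 m _ ρ rfl (fun t _ ht => hc t ht)
    (up_init S c h𝓔 _ (fun t ht => ?_)) hK (by omega) ?_ hT hF).weaken fun ρ' _ h => ?_
  · have := mem_Ioo.1 ht
    exact (hc t this.2.le).2.1
  · have : 2 ^ k ≤ 2 ^ (R * K') := Nat.pow_le_pow_right (by norm_num) hK'
    omega
  · obtain ⟨t, -, t2, t3⟩ := h
    exact ⟨t, t2, t3⟩

end

end Pool.Agent.Lib.Pad9061
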