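import Pool.Agent.Lib.Pad9061.Count

set_option autoImplicit false

/-!
# The upper bounds on depth for refutations of bounded width
-/

namespace Pool.Agent.Lib.Pad9061

open Finset

theorem log_ge {n : ℕ} (hn : 2 ≤ n) : (0.69 : ℝ) ≤ Real.log n := by
  have h1 : Real.log 2 ≤ Real.log n := Real.log_le_log (by norm_num) (by exact_mod_cast hn)
  have := Real.log_two_gt_d9
  linarith

/-- The number of bits of a literal. -/
theorem exists_bits {n : ℕ} (hn : 2 ≤ n) : ∃ ℓ : ℕ, 2 * n ≤ 2 ^ ℓ ∧ (ℓ : ℝ) ≤ 5 * Real.log n := by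
  refine ⟨⌈Real.log (2 * n) / Real.log 2⌉₊, ?_, ?_⟩
  · have h2 : (0 : ℝ) < Real.log 2 := Real.log_pos (by norm_num)
    have h1 : Real.log (2 * n) / Real.log 2 ≤ ⌈Real.log (2 * n) / Real.log 2⌉₊ := Nat.le_ceil _
    rw [div_le_iff₀ h2] at h1
    have h3 : ((2 * n : ℕ) : ℝ) ≤ ((2 ^ ⌈Real.log (2 * n) / Real.log 2⌉₊ : ℕ) : ℝ) := by
      push_cast
      have h4 : (0 : ℝ) < 2 * n := by positivity
      rw [← Real.log_le_log_iff h4 (by positivity), Real.log_pow]
      exact h1
    exact_mod_cast h3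
  · have h2 : (0.69 : ℝ) < Real.log 2 := by
      have := Real.log_two_gt_d9
      linarith
    have hn0 : (0 : ℝ) < n := by positivity
    have h0 : 0 ≤ Real.log (2 * n) / Real.log 2 := by
      apply div_nonneg
      · apply Real.log_nonneg
        have : (2 : ℝ) ≤ n := by exact_mod_cast hn
        linarith
      · linarith
    have h1 : (⌈Real.log (2 * n) / Real.log 2⌉₊ : ℝ) < Real.log (2 * n) / Real.log 2 + 1 :=
      Nat.ceil_lt_add_one h0
    have h3 : Real.log (2 * n) / Real.log 2 = 1 + Real.log n / Real.log 2 := by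
      rw [Real.log_mul (by norm_num) hn0.ne', add_div, div_self (by linarith)]
    have hl := log_ge hn
    have h5 : Real.log n / Real.log 2 ≤ Real.log n / 0.69 :=
      div_le_div_of_nonneg_left (by linarith) (by norm_num) h2.le
    have h6 : Real.log n / 0.69 ≤ 1.5 * Real.log n := by
      rw [div_le_iff₀ (by norm_num)]
      linarith
    linarith

theorem log_card_le {n w : ℕ} (hn : 2 ≤ n) (hw : 1 ≤ w) :
    Real.log (((univ : Finset (Clause (Fin n))).filter (fun C => C.card ≤ w)).card) + 1 ≤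
      5 * (w * Real.log n) := by
  have h1 := card_clauses_le n w
  have hne : 0 < ((univ : Finset (Clause (Fin n))).filter (fun C => C.card ≤ w)).card :=
    card_pos.2 ⟨∅, mem_filter.2 ⟨mem_univ _, by simp⟩⟩
  have h2 : Real.log (((univ : Finset (Clause (Fin n))).filter (fun C => C.card ≤ w)).card) ≤
      Real.log ((2 * n + 1 : ℝ) ^ w) := by
    apply Real.log_le_log (by exact_mod_cast hne)
    exact_mod_cast h1
  rw [Real.log_pow] at h2
  have hl := log_ge hn
  have h3 : Real.log (2 * n + 1 : ℝ) ≤ 3 * Real.log n := by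
    have h4 : (2 * n + 1 : ℝ) ≤ (n : ℝ) ^ 3 := by
      have h5 : (2 : ℝ) ≤ n := by exact_mod_cast hn
      nlinarith [mul_self_nonneg ((n : ℝ) - 2), mul_nonneg (sub_nonneg.2 h5) (mul_self_nonneg (n : ℝ))]
    calc Real.log (2 * n + 1 : ℝ) ≤ Real.log ((n : ℝ) ^ 3) :=
          Real.log_le_log (by positivity) h4
      _ = 3 * Real.log n := by rw [Real.log_pow]; norm_num
  have hwR : (1 : ℝ) ≤ w := by exact_mod_cast hw
  have h6 : (w : ℝ) * Real.log (2 * n + 1 : ℝ) ≤ w * (3 * Real.log n) := by gcongr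
  have h7 : 1 ≤ 2 * (w * Real.log n) := by nlinarith
  linarith

theorem SpaceWidth.min {V : Type} [DecidableEq V] {F : Finset (Clause V)} {s w : ℕ}
    (h : SpaceWidth F s w) : SpaceWidth F s (min w s) := by
  obtain ⟨τ, M, h0, h1, h2, h3⟩ := h
  refine ⟨τ, M, h0, h1, h2, fun t ht => ⟨(h3 t ht).1, fun C hC => le_min ((h3 t ht).2 C hC) ?_⟩⟩
  calc C.card ≤ size (M t) := single_le_sum (f := fun C : Clause V => C.card)
        (fun _ _ => Nat.zero_le _) hC
    _ ≤ s := (h3 t ht).1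

/-- Depth at most `396 s ^ (3/2) w ^ (1/2) log n`, assuming `w ≤ s`. -/
theorem width_bound_aux {n s w : ℕ} (hn : 2 ≤ n) (hw : 1 ≤ w) (hws : w ≤ s) :
    ∃ D : ℕ, PathCost (clauseSys (Fin n))
      ((univ : Finset (Clause (Fin n))).filter (fun C => C.card ≤ w)) s D ∧
      (D : ℝ) ≤ 396 * (s * Real.sqrt (w * s) * Real.log n) := by
  set 𝓔 := (univ : Finset (Clause (Fin n))).filter (fun C => C.card ≤ w) with h𝓔
  have h𝓔ne : 𝓔.Nonempty := ⟨∅, mem_filter.2 ⟨mem_univ _, by simp⟩⟩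
  have hs : 1 ≤ s := hw.trans hws
  have hl := log_ge hn
  have hwR : (1 : ℝ) ≤ w := by exact_mod_cast hw
  have hsR : (1 : ℝ) ≤ s := by exact_mod_cast hs
  have hwsR : (w : ℝ) ≤ s := by exact_mod_cast hws
  set g := Real.sqrt (w * s) with hg
  have hg2 : g * g = w * s := Real.mul_self_sqrt (by positivity)
  have hg0 : 0 < g := by positivity
  have hwg : (w : ℝ) ≤ g := by
    apply Real.le_sqrt_of_sq_le
    nlinarith
  have hgs : g ≤ s := by
    rw [hg, Real.sqrt_le_left (by linarith)]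
    nlinarith
  have hg1 : 1 ≤ g := hwR.trans hwg
  -- parameters
  obtain ⟨ℓ, hℓ1, hℓ2⟩ := exists_bits hn
  set u : ℝ := s / g with hu
  have hu0 : 0 < u := by positivity
  have hu1 : 1 ≤ u := by rw [hu, le_div_iff₀ hg0]; linarith
  have hug : u * g = s := by rw [hu]; field_simp
  have hwu : w * u = g := by
    rw [hu]
    field_simp
    linarith
  set s' := ⌈3 * g⌉₊ with hs'
  have hs'1 : 3 * g ≤ s' := Nat.le_ceil _
  have hs'2 : (s' : ℝ) ≤ 4 * g := by
    have := Nat.ceil_lt_add_one (show 0 ≤ 3 * g by positivity)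
    linarith
  set R := ⌈u⌉₊ with hR
  have hR1 : u ≤ R := Nat.le_ceil _
  have hR2 : (R : ℝ) ≤ 2 * u := by
    have := Nat.ceil_lt_add_one hu0.le
    linarith
  have hR0 : 0 < R := by
    have : (0 : ℝ) < R := lt_of_lt_of_le hu0 hR1
    exact_mod_cast this
  set k := 5 + s * ℓ with hk
  set K' := k / R + 1 with hK'
  have hKK : k ≤ R * K' := by
    have := Nat.div_add_mod k R
    have h2 := Nat.mod_lt k hR0
    rw [hK', mul_add, mul_one]
    omega
  set K := ⌊5 * (w * Real.log n) * u⌋₊ + 1 with hK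
  have hKδ : Real.log 𝓔.card + 1 < K * (1 / u) := by
    have h1 := log_card_le hn hw
    have h2 : 5 * (w * Real.log n) * u < K := by
      rw [hK]; push_cast; exact Nat.lt_floor_add_one _
    rw [mul_one_div, lt_div_iff₀ hu0]
    calc (Real.log 𝓔.card + 1) * u ≤ (5 * (w * Real.log n)) * u := by gcongr
      _ < K := h2
  have hmain := pathCost_rounds (clauseSys (Fin n)) (𝓔 := 𝓔) (s := s) (s' := s') (k := k) (R := R)
    (K := K) (K' := K') (by omega) h𝓔ne (δ := 1 / u)
    (by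
      have : 3 * (1 / u) * s = 3 * g := by
        rw [← hug]; field_simp
      rw [this]; exact hs'1)
    (by
      intro E hE
      have h1 : E.card ≤ w := (mem_filter.1 hE).2
      have h2 : ((clauseSys (Fin n)).wt E : ℝ) ≤ s' := by
        have : (E.card : ℝ) ≤ w := by exact_mod_cast h1
        show (E.card : ℝ) ≤ s'
        linarith
      exact_mod_cast h2)
    (count_clause_configs n (by omega) s ℓ hℓ1 𝓔) hKδ hKK
  refine ⟨_, hmain, ?_⟩
  have he0 : (clauseSys (Fin n)).e0 = 0 := rfl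
  rw [he0]
  push_cast
  simp only [zero_add]
  have hKr : (K : ℝ) ≤ 7 * (g * Real.log n) := by
    have h1 : (⌊5 * (w * Real.log n) * u⌋₊ : ℝ) ≤ 5 * (w * Real.log n) * u :=
      Nat.floor_le (by positivity)
    have h2 : 5 * (w * Real.log n) * u = 5 * (g * Real.log n) := by rw [← hwu]; ring
    rw [hK]; push_cast
    have h3 : 1 ≤ 2 * (g * Real.log n) := by nlinarith
    linarith
  have hK'r : (K' : ℝ) ≤ 15 * (g * Real.log n) := by
    have h1 : ((k / R : ℕ) : ℝ) ≤ (k : ℝ) / R := Nat.cast_div_le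
    have h2 : (k : ℝ) / R ≤ k / u := by gcongr
    have h3 : (k : ℝ) ≤ 13 * (s * Real.log n) := by
      rw [hk]; push_cast
      have h4 : (s : ℝ) * ℓ ≤ s * (5 * Real.log n) := by gcongr
      have h5 : 5 ≤ 8 * (s * Real.log n) := by nlinarith
      linarith
    have h4 : (k : ℝ) / u ≤ 13 * (g * Real.log n) := by
      rw [div_le_iff₀ hu0]
      calc (k : ℝ) ≤ 13 * (s * Real.log n) := h3
        _ = 13 * (g * Real.log n) * u := by rw [← hug]; ring
    rw [hK']; push_cast
    have h5 : 1 ≤ 2 * (g * Real.log n) := by nlinarith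
    linarith
  have hround : (s : ℝ) + (R * (2 * s') + s) ≤ 18 * s := by
    have h1 : (R : ℝ) * (2 * s') ≤ (2 * u) * (2 * (4 * g)) := by gcongr
    have h2 : (2 * u) * (2 * (4 * g)) = 16 * s := by rw [← hug]; ring
    linarith
  have h0 : 0 ≤ g * Real.log n := by positivity
  calc ((K : ℝ) + K') * (s + (R * (2 * s') + s)) ≤ (22 * (g * Real.log n)) * (18 * s) := by
        gcongr
        linarith
    _ = 396 * (s * g * Real.log n) := by ring

/-- Depth at most `396 s ^ (3/2) w ^ (1/2) log n`. -/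
theorem width_bound {n s w : ℕ} (hn : 2 ≤ n) (hs : 1 ≤ s) (hw : 1 ≤ w)
    {F : Finset (Clause (Fin n))} (hF : SpaceWidth F s w) :
    ∃ D : ℕ, DepthAtMost F D ∧ (D : ℝ) ≤ 396 * (s * Real.sqrt (w * s) * Real.log n) := by
  obtain ⟨D, h1, h2⟩ := width_bound_aux (w := min w s) hn (by omega) (min_le_right _ _)
  refine ⟨D, depth_of_pathCost h1 hF.min, h2.trans ?_⟩
  have hl := log_ge hn
  have : ((min w s : ℕ) : ℝ) ≤ w := by exact_mod_cast min_le_left _ _
  gcongr

/-- The recursive bound. -/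
theorem narrow_bound_aux : ∀ r : ℕ, ∃ A : ℝ, 0 < A ∧
    ∀ n w s : ℕ, 2 ≤ n → 1 ≤ w → 1 ≤ s → ∃ D : ℕ, PathCost (clauseSys (Fin n))
      ((univ : Finset (Clause (Fin n))).filter (fun C => C.card ≤ w)) s D ∧
      (D : ℝ) ≤ A * (2 * w * Real.log n) ^ (3 * r + 1) * (s : ℝ) ^ (1 + 1 / ((r : ℝ) + 1)) := by
  intro r
  induction r with
  | zero =>
    refine ⟨13, by norm_num, ?_⟩
    intro n w s hn hw hs
    obtain ⟨ℓ, hℓ1, hℓ2⟩ := exists_bits hn
    have hl := log_ge hn
    have hwR : (1 : ℝ) ≤ w := by exact_mod_cast hw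
    have hsR : (1 : ℝ) ≤ s := by exact_mod_cast hs
    refine ⟨_, pathCost_base (clauseSys (Fin n)) (count_clause_configs n (by omega) s ℓ hℓ1 _), ?_⟩
    have he0 : (clauseSys (Fin n)).e0 = 0 := rfl
    rw [he0]
    push_cast
    have e1 : (s : ℝ) ^ (1 + 1 / ((0 : ℝ) + 1)) = s * s := by
      have : (1 + 1 / ((0 : ℝ) + 1)) = ((2 : ℕ) : ℝ) := by norm_num
      rw [this, Real.rpow_natCast, pow_two]
    rw [e1]
    have h4 : (s : ℝ) * ℓ ≤ s * (5 * Real.log n) := by gcongr
    have h5 : 5 ≤ 8 * (s * Real.log n) := by nlinarith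
    have h6 : (5 + (s : ℝ) * ℓ) ≤ 13 * (s * Real.log n) := by linarith
    calc (5 + (s : ℝ) * ℓ) * (0 + s) ≤ 13 * (s * Real.log n) * (0 + s) := by gcongr
      _ = 13 * (1 * Real.log n) * (s * s) := by ring
      _ ≤ 13 * (2 * w * Real.log n) * (s * s) := by
        gcongr
        linarith
      _ = _ := by norm_num
  | succ r ih =>
    obtain ⟨A, hA0, hA⟩ := ih
    refine ⟨17 * (2 + 4 * A), by positivity, ?_⟩
    intro n w s hn hw hs
    set 𝓔 := (univ : Finset (Clause (Fin n))).filter (fun C => C.card ≤ w) with h𝓔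
    have h𝓔ne : 𝓔.Nonempty := ⟨∅, mem_filter.2 ⟨mem_univ _, by simp⟩⟩
    have hl := log_ge hn
    have hwR : (1 : ℝ) ≤ w := by exact_mod_cast hw
    have hsR : (1 : ℝ) ≤ s := by exact_mod_cast hs
    have hs0 : (0 : ℝ) < s := by linarith
    set y : ℝ := 2 * w * Real.log n with hy
    have hy1 : 1 ≤ y := by rw [hy]; nlinarith
    have hwy : (w : ℝ) ≤ y := by rw [hy]; nlinarith
    have hly : Real.log n ≤ y := by rw [hy]; nlinarith
    have hr0 : (0 : ℝ) < (r : ℝ) + 1 := by positivity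
    have hr1 : (0 : ℝ) < (r : ℝ) + 2 := by positivity
    set σ : ℝ := (s : ℝ) ^ (((r : ℝ) + 1) / ((r : ℝ) + 2)) with hσ
    set ζ : ℝ := (s : ℝ) ^ (1 / ((r : ℝ) + 2)) with hζ
    have hσ1 : 1 ≤ σ := Real.one_le_rpow hsR (by positivity)
    have hζ1 : 1 ≤ ζ := Real.one_le_rpow hsR (by positivity)
    have hσζ : σ * ζ = s := by
      rw [hσ, hζ, ← Real.rpow_add hs0, ← add_div]
      have : ((r : ℝ) + 1 + 1) / ((r : ℝ) + 2) = 1 := by
        rw [div_eq_one_iff_eq hr1.ne']; ring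
      rw [this, Real.rpow_one]
    have hσpow : σ ^ (1 + 1 / ((r : ℝ) + 1)) = s := by
      rw [hσ, ← Real.rpow_mul hs0.le]
      have : ((r : ℝ) + 1) / ((r : ℝ) + 2) * (1 + 1 / ((r : ℝ) + 1)) = 1 := by
        field_simp
        ring
      rw [this, Real.rpow_one]
    set s' := ⌈w * σ⌉₊ with hs'
    have hs'1 : w * σ ≤ s' := Nat.le_ceil _
    have hwσ : 1 ≤ w * σ := by nlinarith
    have hs'2 : (s' : ℝ) ≤ 2 * w * σ := by
      have := Nat.ceil_lt_add_one (show 0 ≤ w * σ by positivity)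
      linarith
    have hs'0 : (0 : ℝ) < s' := by linarith
    have hs'N : 1 ≤ s' := by
      have : (1 : ℝ) ≤ s' := by linarith
      exact_mod_cast this
    obtain ⟨D', hD'1, hD'2⟩ := hA n w s' hn hw hs'N
    set δ : ℝ := s' / (3 * s) with hδ
    have hδ0 : 0 < δ := by positivity
    set K := ⌊5 * (w * Real.log n) / δ⌋₊ + 1 with hK
    have hKδ : Real.log 𝓔.card + 1 < K * δ := by
      have h1 := log_card_le hn hw
      have h2 : 5 * (w * Real.log n) / δ < K := by
        rw [hK]; push_cast; exact Nat.lt_floor_add_one _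
      rw [div_lt_iff₀ hδ0] at h2
      linarith
    refine ⟨_, pathCost_recur (clauseSys (Fin n)) (𝓔 := 𝓔) (s := s) (s' := s') (D' := D')
      (by omega) h𝓔ne (δ := δ) ?_ ?_ hKδ hD'1, ?_⟩
    · rw [hδ]
      have : 3 * ((s' : ℝ) / (3 * s)) * s = s' := by field_simp
      rw [this]
    · intro E hE
      have h1 : E.card ≤ w := (mem_filter.1 hE).2
      have h2 : ((clauseSys (Fin n)).wt E : ℝ) ≤ s' := by
        have : (E.card : ℝ) ≤ w := by exact_mod_cast h1
        show (E.card : ℝ) ≤ s'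
        nlinarith
      exact_mod_cast h2
    · have he0 : (clauseSys (Fin n)).e0 = 0 := rfl
      rw [he0]
      push_cast
      simp only [zero_add]
      have hKr : (K : ℝ) ≤ 17 * (y * ζ) := by
        have h1 : (⌊5 * (w * Real.log n) / δ⌋₊ : ℝ) ≤ 5 * (w * Real.log n) / δ :=
          Nat.floor_le (by positivity)
        have h2 : 5 * (w * Real.log n) / δ ≤ 15 * (Real.log n * ζ) := by
          rw [div_le_iff₀ hδ0]
          calc 5 * (w * Real.log n) = 15 * (Real.log n * ζ) * ((w * σ) / (3 * s)) := by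
                rw [← hσζ]; field_simp; ring
            _ ≤ 15 * (Real.log n * ζ) * δ := by
              rw [hδ]; gcongr
        have h3 : Real.log n * ζ ≤ y * ζ := by gcongr
        have h4 : 1 ≤ 2 * (y * ζ) := by nlinarith
        rw [hK]; push_cast
        linarith
      have hD'3 : (D' : ℝ) ≤ 4 * A * y ^ (3 * r + 3) * s := by
        have h1 : (s' : ℝ) ^ (1 + 1 / ((r : ℝ) + 1)) ≤ 4 * y ^ 2 * s := by
          calc (s' : ℝ) ^ (1 + 1 / ((r : ℝ) + 1)) ≤ (2 * w * σ) ^ (1 + 1 / ((r : ℝ) + 1)) :=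
                Real.rpow_le_rpow hs'0.le hs'2 (by positivity)
            _ = (2 * w : ℝ) ^ (1 + 1 / ((r : ℝ) + 1)) * s := by
              rw [Real.mul_rpow (by positivity) (by positivity), hσpow]
            _ ≤ (2 * w : ℝ) ^ (2 : ℝ) * s := by
              gcongr
              · linarith
              · have : 1 / ((r : ℝ) + 1) ≤ 1 := by
                  rw [div_le_one hr0]
                  have : (0 : ℝ) ≤ r := by positivity
                  linarith
                linarith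
            _ = 4 * (w : ℝ) ^ 2 * s := by
              rw [show (2 : ℝ) = ((2 : ℕ) : ℝ) by norm_num, Real.rpow_natCast]
              push_cast
              ring
            _ ≤ 4 * y ^ 2 * s := by gcongr
        calc (D' : ℝ) ≤ A * y ^ (3 * r + 1) * (s' : ℝ) ^ (1 + 1 / ((r : ℝ) + 1)) := hD'2
          _ ≤ A * y ^ (3 * r + 1) * (4 * y ^ 2 * s) := by gcongr
          _ = 4 * A * y ^ (3 * r + 3) * s := by
            rw [show 3 * r + 3 = (3 * r + 1) + 2 by ring, pow_add]
            ring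
      have hyp : 1 ≤ y ^ (3 * r + 3) := one_le_pow₀ hy1
      have hround : (s : ℝ) + (D' + s) ≤ (2 + 4 * A) * y ^ (3 * r + 3) * s := by
        have h1 : 2 * (s : ℝ) ≤ 2 * y ^ (3 * r + 3) * s := by nlinarith
        linarith
      have hexp : (s : ℝ) ^ (1 + 1 / (((r + 1 : ℕ) : ℝ) + 1)) = s * ζ := by
        rw [Real.rpow_add hs0, Real.rpow_one, hζ]
        congr 2
        push_cast
        ring
      push_cast at hexp
      rw [hexp]
      calc (K : ℝ) * (s + (D' + s)) ≤ (17 * (y * ζ)) * ((2 + 4 * A) * y ^ (3 * r + 3) * s) := by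
            gcongr
        _ = 17 * (2 + 4 * A) * y ^ (3 * (r + 1) + 1) * (s * ζ) := by
          rw [show 3 * (r + 1) + 1 = (3 * r + 3) + 1 by ring, pow_succ]
          ring

/-- For refutations of bounded width depth is almost linear in total space. -/
theorem narrow_bound (ε : ℝ) (hε : 0 < ε) : ∃ A : ℝ, ∃ k : ℕ, ∀ n w s : ℕ, 2 ≤ n → 1 ≤ w → 1 ≤ s →
    ∀ F : Finset (Clause (Fin n)), SpaceWidth F s w →
      ∃ D : ℕ, DepthAtMost F D ∧ (D : ℝ) ≤ A * (w * Real.log n) ^ k * (s : ℝ) ^ (1 + ε) := by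
  obtain ⟨r, hr⟩ := exists_nat_one_div_lt hε
  obtain ⟨A, hA0, hA⟩ := narrow_bound_aux r
  refine ⟨A * 2 ^ (3 * r + 1), 3 * r + 1, ?_⟩
  intro n w s hn hw hs F hF
  obtain ⟨D, h1, h2⟩ := hA n w s hn hw hs
  refine ⟨D, depth_of_pathCost h1 hF, h2.trans ?_⟩
  have hl := log_ge hn
  have hsR : (1 : ℝ) ≤ s := by exact_mod_cast hs
  have e : (2 * (w : ℝ) * Real.log n) ^ (3 * r + 1) =
      2 ^ (3 * r + 1) * (w * Real.log n) ^ (3 * r + 1) := by
    rw [← mul_pow]; ring_nf
  rw [e]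
  calc A * (2 ^ (3 * r + 1) * ((w : ℝ) * Real.log n) ^ (3 * r + 1)) *
        (s : ℝ) ^ (1 + 1 / ((r : ℝ) + 1)) =
      (A * 2 ^ (3 * r + 1)) * ((w : ℝ) * Real.log n) ^ (3 * r + 1) *
        (s : ℝ) ^ (1 + 1 / ((r : ℝ) + 1)) := by ring
    _ ≤ (A * 2 ^ (3 * r + 1)) * ((w : ℝ) * Real.log n) ^ (3 * r + 1) * (s : ℝ) ^ (1 + ε) := by
      gcongr

end Pool.Agent.Lib.Pad9061
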