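import Pool.Agent.Lib.Pad9061.Adversary

set_option autoImplicit false

/-!
# Chains of tribes: the formula and the adversary
-/

namespace Pool.Agent.Lib.Pad9061

open Finset

section

variable {V : Type} [DecidableEq V] {k : ℕ}

/-- The tribe `j` at time `t` as a positive clause. -/
def tr (B : ℕ → Fin k → Fin k → V) (t : ℕ) (j : Fin k) : Clause V :=
  univ.image fun i => (B t j i, true)

/-- The negative clause of a transversal `g` of the tribes at time `t`. -/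
def ng (B : ℕ → Fin k → Fin k → V) (t : ℕ) (g : Fin k → Fin k) : Clause V :=
  univ.image fun j => (B t j (g j), false)

/-- The chain formula: all tribes hold at time `0`; if all tribes hold at time `t < T` then all
tribes hold at time `t + 1`; not all tribes hold at time `T`. -/
def chainCNF (B : ℕ → Fin k → Fin k → V) (T : ℕ) : Finset (Clause V) :=
  univ.image (tr B 0) ∪
    ((range T) ×ˢ ((univ : Finset (Fin k → Fin k)) ×ˢ (univ : Finset (Fin k)))).image
      (fun x => ng B x.1 x.2.1 ∪ tr B (x.1 + 1) x.2.2) ∪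
    univ.image (ng B T)

theorem mem_chainCNF {B : ℕ → Fin k → Fin k → V} {T : ℕ} {C : Clause V} :
    C ∈ chainCNF B T ↔ (∃ j, C = tr B 0 j) ∨ (∃ t < T, ∃ g j, C = ng B t g ∪ tr B (t + 1) j) ∨
      ∃ g, C = ng B T g := by
  unfold chainCNF
  simp only [mem_union, mem_image, mem_univ, true_and, mem_product, mem_range, Prod.exists,
    and_true]
  constructor
  · rintro ((⟨j, rfl⟩ | ⟨t, g, j, ht, rfl⟩) | ⟨g, rfl⟩)
    · exact Or.inl ⟨j, rfl⟩
    · exact Or.inr (Or.inl ⟨t, ht, g, j, rfl⟩)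
    · exact Or.inr (Or.inr ⟨g, rfl⟩)
  · rintro (⟨j, rfl⟩ | ⟨t, ht, g, j, rfl⟩ | ⟨g, rfl⟩)
    · exact Or.inl (Or.inl ⟨j, rfl⟩)
    · exact Or.inl (Or.inr ⟨t, g, j, ht, rfl⟩)
    · exact Or.inr ⟨g, rfl⟩

theorem falsified_tr {B : ℕ → Fin k → Fin k → V} {Z O : Finset V} {t : ℕ} {j : Fin k}
    (h : Falsified Z O (tr B t j)) (i : Fin k) : B t j i ∈ Z :=
  (h (B t j i, true) (mem_image_of_mem _ (mem_univ i))).1 rfl

theorem falsified_ng {B : ℕ → Fin k → Fin k → V} {Z O : Finset V} {t : ℕ} {g : Fin k → Fin k}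
    (h : Falsified Z O (ng B t g)) (j : Fin k) : B t j (g j) ∈ O :=
  (h (B t j (g j), false) (mem_image_of_mem (fun j => (B t j (g j), false)) (mem_univ j))).2 rfl

/-- Number of tribes of time `t` containing an element of `O`. -/
def hits (B : ℕ → Fin k → Fin k → V) (O : Finset V) (t : ℕ) : ℕ :=
  (univ.filter fun j => ∃ i, B t j i ∈ O).card

/-- Number of times with at least `κ` hit tribes. -/
def ndec (B : ℕ → Fin k → Fin k → V) (O : Finset V) (T κ : ℕ) : ℕ :=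
  ((range (T + 1)).filter fun t => κ ≤ hits B O t).card

/-- The expansion property. -/
def Expands (B : ℕ → Fin k → Fin k → V) (T κ N : ℕ) : Prop :=
  ∀ I : Finset (ℕ × Fin k × Fin k), (∀ x ∈ I, x.1 ≤ T) → I.Nonempty → I.card ≤ N →
    κ * (I.image Prod.fst).card ≤ I.card →
      I.card < 2 * (I.image fun x => B x.1 x.2.1 x.2.2).card

/-- The invariant of the adversary. -/
structure Good (B : ℕ → Fin k → Fin k → V) (T κ : ℕ) (Z O : Finset V) (lo hi : ℕ)
    (R W : Finset (ℕ × Fin k)) : Prop where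
  lohi : lo < hi
  hiT : hi ≤ T
  disj : ∀ v ∈ O, v ∉ Z
  R_hi : ∀ p ∈ R, hi ≤ p.1 ∧ p.1 ≤ T
  R_O : ∀ p ∈ R, ∀ i, B p.1 p.2 i ∉ O
  R_inj : ∀ p ∈ R, ∀ p' ∈ R, p.2 = p'.2 → p = p'
  R_card : R.card ≤ ndec B O T κ
  dec : ∀ t ≤ T, κ ≤ hits B O t → t ≤ lo ∨ ∃ j, (t, j) ∈ R
  light : ∀ t ≤ T, ∀ j, (t, j) ∉ R → (∀ i, B t j i ∉ O) →
    (univ.filter fun i => B t j i ∈ Z ∧ ∀ p ∈ R, B t j i ≠ B p.1 p.2 i).card ≤ κ
  W_card : W.card = O.card
  W_spec : ∀ w ∈ W, w.1 ≤ T ∧ (∃ i, B w.1 w.2 i ∈ O) ∧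
    κ ≤ (univ.filter fun i => B w.1 w.2 i ∈ Z).card
  long : T ≤ (hi - lo) * 2 ^ ndec B O T κ

theorem overlap_lt {B : ℕ → Fin k → Fin k → V} {T κ N : ℕ}
    (hE : Expands B T κ N) (hκ : 0 < κ) (hN : 2 * κ ≤ N) {t t' : ℕ} (ht : t ≤ T) (ht' : t' ≤ T)
    (hne : t ≠ t') (j : Fin k) :
    (univ.filter fun i => B t j i = B t' j i).card < κ := by
  by_contra hcon
  push Not at hcon
  obtain ⟨S, hS, hSc⟩ := Finset.exists_subset_card_eq hcon
  have hdisj : Disjoint (S.image fun i => (t, j, i)) (S.image fun i => (t', j, i)) := by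
    rw [Finset.disjoint_left]
    intro x hx hx'
    simp only [mem_image] at hx hx'
    obtain ⟨i, -, rfl⟩ := hx
    obtain ⟨i', -, h⟩ := hx'
    exact hne (Prod.ext_iff.1 h).1.symm
  have c1 : (S.image fun i => ((t, j, i) : ℕ × Fin k × Fin k)).card = κ := by
    rw [card_image_of_injective _ (fun a b h => by simpa using h), hSc]
  have c2 : (S.image fun i => ((t', j, i) : ℕ × Fin k × Fin k)).card = κ := by
    rw [card_image_of_injective _ (fun a b h => by simpa using h), hSc]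
  set I := (S.image fun i => ((t, j, i) : ℕ × Fin k × Fin k)) ∪
    (S.image fun i => ((t', j, i) : ℕ × Fin k × Fin k)) with hI
  have hIc : I.card = 2 * κ := by
    rw [hI, card_union_of_disjoint hdisj, c1, c2]; ring
  have h1 := hE I ?_ ?_ (by omega) ?_
  · have h2 : (I.image fun x => B x.1 x.2.1 x.2.2).card ≤ κ := by
      have hsub : (I.image fun x => B x.1 x.2.1 x.2.2) ⊆ S.image fun i => B t j i := by
        intro v hv
        simp only [hI, mem_image, mem_union] at hv ⊢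
        obtain ⟨x, hx, rfl⟩ := hv
        rcases hx with ⟨i, hi, rfl⟩ | ⟨i, hi, rfl⟩
        · exact ⟨i, hi, rfl⟩
        · exact ⟨i, hi, (mem_filter.1 (hS hi)).2⟩
      exact (card_le_card hsub).trans (card_image_le.trans hSc.le)
    omega
  · intro x hx
    simp only [hI, mem_image, mem_union] at hx
    rcases hx with ⟨i, hi, rfl⟩ | ⟨i, hi, rfl⟩ <;> assumption
  · rw [← card_pos]; omega
  · have hsub : I.image Prod.fst ⊆ {t, t'} := by
      intro x hx
      simp only [hI, mem_image, mem_union] at hx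
      obtain ⟨y, hy, rfl⟩ := hx
      rcases hy with ⟨i, hi, rfl⟩ | ⟨i, hi, rfl⟩ <;> simp
    have := (card_le_card hsub).trans (card_le_two)
    rw [hIc]
    nlinarith

theorem ones_lt {B : ℕ → Fin k → Fin k → V} {T κ N : ℕ}
    (hE : Expands B T κ N) (hκ : 0 < κ) {Z : Finset V} {W : Finset (ℕ × Fin k)}
    (hW : ∀ w ∈ W, w.1 ≤ T ∧ κ ≤ (univ.filter fun i => B w.1 w.2 i ∈ Z).card)
    (hW0 : W.Nonempty) (hN : κ * W.card ≤ N) : κ * W.card < 2 * Z.card := by
  have hch : ∀ w : ℕ × Fin k, ∃ S : Finset (Fin k), w ∈ W → S.card = κ ∧ ∀ i ∈ S, B w.1 w.2 i ∈ Z := by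
    intro w
    by_cases hw : w ∈ W
    · obtain ⟨S, hS, hSc⟩ := Finset.exists_subset_card_eq (hW w hw).2
      exact ⟨S, fun _ => ⟨hSc, fun i hi => (mem_filter.1 (hS hi)).2⟩⟩
    · exact ⟨∅, fun h => absurd h hw⟩
  choose S hS using hch
  set I : Finset (ℕ × Fin k × Fin k) :=
    (W.sigma fun w => S w).image (fun x => (x.1.1, x.1.2, x.2)) with hI
  have hinj : Set.InjOn (fun x : (Σ _ : ℕ × Fin k, Fin k) => ((x.1.1, x.1.2, x.2) : ℕ × Fin k × Fin k))
      (W.sigma fun w => S w) := by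
    rintro ⟨⟨a, b⟩, c⟩ _ ⟨⟨a', b'⟩, c'⟩ _ h
    simp only [Prod.mk.injEq] at h
    obtain ⟨rfl, rfl, rfl⟩ := h
    rfl
  have hIc : I.card = κ * W.card := by
    rw [hI, card_image_of_injOn hinj, card_sigma, sum_congr rfl (fun w hw => (hS w hw).1),
      sum_const, smul_eq_mul, mul_comm]
  have hmem : ∀ x, x ∈ I → ∃ w ∈ W, ∃ i ∈ S w, x = (w.1, w.2, i) := by
    intro x hx
    simp only [hI, mem_image, mem_sigma] at hx
    obtain ⟨⟨w, i⟩, ⟨hw, hi⟩, rfl⟩ := hx
    exact ⟨w, hw, i, hi, rfl⟩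
  have h1 := hE I ?_ ?_ (by omega) ?_
  · have h2 : (I.image fun x => B x.1 x.2.1 x.2.2).card ≤ Z.card := by
      apply card_le_card
      intro v hv
      obtain ⟨x, hx, rfl⟩ := mem_image.1 hv
      obtain ⟨w, hw, i, hi, rfl⟩ := hmem x hx
      exact (hS w hw).2 i hi
    omega
  · intro x hx
    obtain ⟨w, hw, i, hi, rfl⟩ := hmem x hx
    exact (hW w hw).1
  · rw [← card_pos, hIc]
    exact Nat.mul_pos hκ hW0.card_pos
  · rw [hIc]
    gcongr
    have : I.image Prod.fst ⊆ W.image Prod.fst := by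
      intro y hy
      obtain ⟨x, hx, rfl⟩ := mem_image.1 hy
      obtain ⟨w, hw, i, hi, rfl⟩ := hmem x hx
      exact mem_image_of_mem _ hw
    exact (card_le_card this).trans card_image_le

theorem times_lt {B : ℕ → Fin k → Fin k → V} {T κ N : ℕ}
    (hE : Expands B T κ N) (hκ : 0 < κ) {O : Finset V} {X : Finset ℕ}
    (hX : ∀ t ∈ X, t ≤ T ∧ κ ≤ hits B O t)
    (hX0 : X.Nonempty) (hN : κ * X.card ≤ N) : κ * X.card < 2 * O.card := by
  have hch : ∀ t : ℕ, ∃ S : Finset (Fin k), t ∈ X → S.card = κ ∧ ∀ j ∈ S, ∃ i, B t j i ∈ O := by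
    intro t
    by_cases ht : t ∈ X
    · obtain ⟨S, hS, hSc⟩ := Finset.exists_subset_card_eq (hX t ht).2
      exact ⟨S, fun _ => ⟨hSc, fun i hi => (mem_filter.1 (hS hi)).2⟩⟩
    · exact ⟨∅, fun h => absurd h ht⟩
  choose S hS using hch
  have hch2 : ∀ (t : ℕ) (j : Fin k), ∃ i : Fin k, t ∈ X → j ∈ S t → B t j i ∈ O := by
    intro t j
    by_cases h : t ∈ X ∧ j ∈ S t
    · obtain ⟨i, hi⟩ := (hS t h.1).2 j h.2
      exact ⟨i, fun _ _ => hi⟩
    · refine ⟨j, fun h1 h2 => absurd ⟨h1, h2⟩ h⟩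
  choose p hp using hch2
  set I : Finset (ℕ × Fin k × Fin k) :=
    (X.sigma fun t => S t).image (fun x => (x.1, x.2, p x.1 x.2)) with hI
  have hinj : Set.InjOn (fun x : (Σ _ : ℕ, Fin k) => ((x.1, x.2, p x.1 x.2) : ℕ × Fin k × Fin k))
      (X.sigma fun w => S w) := by
    rintro ⟨a, b⟩ _ ⟨a', b'⟩ _ h
    simp only [Prod.mk.injEq] at h
    obtain ⟨rfl, rfl, -⟩ := h
    rfl
  have hIc : I.card = κ * X.card := by
    rw [hI, card_image_of_injOn hinj, card_sigma, sum_congr rfl (fun w hw => (hS w hw).1),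
      sum_const, smul_eq_mul, mul_comm]
  have hmem : ∀ x, x ∈ I → ∃ t ∈ X, ∃ j ∈ S t, x = (t, j, p t j) := by
    intro x hx
    simp only [hI, mem_image, mem_sigma] at hx
    obtain ⟨⟨w, i⟩, ⟨hw, hi⟩, rfl⟩ := hx
    exact ⟨w, hw, i, hi, rfl⟩
  have h1 := hE I ?_ ?_ (by omega) ?_
  · have h2 : (I.image fun x => B x.1 x.2.1 x.2.2).card ≤ O.card := by
      apply card_le_card
      intro v hv
      obtain ⟨x, hx, rfl⟩ := mem_image.1 hv
      obtain ⟨t, ht, j, hj, rfl⟩ := hmem x hx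
      exact hp t j ht hj
    omega
  · intro x hx
    obtain ⟨t, ht, j, hj, rfl⟩ := hmem x hx
    exact (hX t ht).1
  · rw [← card_pos, hIc]
    exact Nat.mul_pos hκ hX0.card_pos
  · rw [hIc]
    gcongr
    intro y hy
    obtain ⟨x, hx, rfl⟩ := mem_image.1 hy
    obtain ⟨t, ht, j, hj, rfl⟩ := hmem x hx
    exact ht

end

end Pool.Agent.Lib.Pad9061
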