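import Pool.Agent.Lib.Pad9061.Base

set_option autoImplicit false

/-!
# The system of clauses; counting configurations
-/

namespace Pool.Agent.Lib.Pad9061

open Finset

/-- There are at most `32 N ^ s` sets of sets over an `N`-element set with at most `s`
occurrences in total. -/
theorem count_configs {L : Type} [Fintype L] [DecidableEq L] (hL : 0 < Fintype.card L) (s : ℕ) :
    ((univ : Finset (Finset (Finset L))).filter (fun M => ∑ C ∈ M, C.card ≤ s)).card ≤
      32 * (Fintype.card L) ^ s := by
  set N := Fintype.card L with hN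
  have hNR : (0 : ℝ) < N := by exact_mod_cast hL
  set x : ℝ := 1 / N with hx
  have hx0 : 0 < x := by positivity
  have hx1 : x ≤ 1 := by
    rw [hx, div_le_one hNR]
    exact_mod_cast hL
  have h1 : ∑ M ∈ (univ : Finset (Finset (Finset L))), ∏ C ∈ M, x ^ C.card =
      ∏ C ∈ (univ : Finset (Finset L)), (1 + x ^ C.card) := by
    rw [Finset.prod_one_add, powerset_univ]
  have h2 : ∏ C ∈ (univ : Finset (Finset L)), (1 + x ^ C.card) ≤
      Real.exp (∑ C ∈ (univ : Finset (Finset L)), x ^ C.card) := by
    rw [Real.exp_sum]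
    apply prod_le_prod
    · intro C _; positivity
    · intro C _
      have := Real.add_one_le_exp (x ^ C.card)
      linarith
  have h3 : ∑ C ∈ (univ : Finset (Finset L)), x ^ C.card = (x + 1) ^ N := by
    have := Finset.sum_pow_mul_eq_add_pow x 1 (univ : Finset L)
    simp only [one_pow, mul_one, powerset_univ, card_univ] at this
    rw [this]
  have h4 : (x + 1) ^ N ≤ 3 := by
    calc (x + 1) ^ N ≤ (Real.exp x) ^ N := by
          gcongr
          exact Real.add_one_le_exp x
      _ = Real.exp (N * x) := by rw [← Real.exp_nat_mul]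
      _ = Real.exp 1 := by
        congr 1
        rw [hx]
        field_simp
      _ ≤ 3 := by
        have := Real.exp_one_lt_d9
        linarith
  have h5 : Real.exp ((x + 1) ^ N) ≤ 32 := by
    calc Real.exp ((x + 1) ^ N) ≤ Real.exp 3 := Real.exp_le_exp.2 h4
      _ = (Real.exp 1) ^ 3 := by
        rw [← Real.exp_nat_mul]
        norm_num
      _ ≤ 3 ^ 3 := by
        have := Real.exp_one_lt_d9
        have := Real.exp_pos 1
        gcongr
        linarith
      _ ≤ 32 := by norm_num
  have h6 : (((univ : Finset (Finset (Finset L))).filter (fun M => ∑ C ∈ M, C.card ≤ s)).card : ℝ) *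
      x ^ s ≤ 32 := by
    calc _ = ∑ M ∈ (univ : Finset (Finset (Finset L))).filter (fun M => ∑ C ∈ M, C.card ≤ s),
          x ^ s := by rw [sum_const, nsmul_eq_mul]
      _ ≤ ∑ M ∈ (univ : Finset (Finset (Finset L))).filter (fun M => ∑ C ∈ M, C.card ≤ s),
          ∏ C ∈ M, x ^ C.card := by
        refine sum_le_sum fun M hM => ?_
        rw [Finset.prod_pow_eq_pow_sum]
        exact pow_le_pow_of_le_one hx0.le hx1 (mem_filter.1 hM).2
      _ ≤ ∑ M ∈ (univ : Finset (Finset (Finset L))), ∏ C ∈ M, x ^ C.card := by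
        apply sum_le_sum_of_subset_of_nonneg (filter_subset _ _)
        intro M _ _
        exact prod_nonneg fun C _ => by positivity
      _ ≤ 32 := by rw [h1]; exact h2.trans (by rw [h3]; exact h5)
  have h7 : x ^ s = 1 / (N : ℝ) ^ s := by rw [hx, div_pow, one_pow]
  rw [h7, mul_one_div, div_le_iff₀ (by positivity)] at h6
  exact_mod_cast h6

section

variable (V : Type) [DecidableEq V]

/-- The system of clauses. -/
def clauseSys : Sys V (Clause V) where
  wt := fun C => C.card
  T := fun ρ C => KT ρ C
  F := fun ρ C => KF ρ C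
  T_mono := fun h hC => hC.mono h
  F_mono := fun h hC => hC.mono h
  excl := fun h1 h2 => KT_KF h1 h2
  e0 := 0
  Ev := fun _ => True
  Ev_sub := fun _ _ => trivial
  eval := by
    intro Y _ ρ
    refine ((solve_query_set (Y.biUnion fun C => C.image Prod.fst) ρ).mono ?_).weaken
      fun ρ' _ h => ?_
    · rw [zero_add]
      exact card_biUnion_le.trans (sum_le_sum fun C _ => card_image_le)
    · intro C hC
      by_cases hex : ∃ l ∈ C, ρ' l.1 = some l.2
      · exact Or.inl hex
      · right
        push Not at hex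
        intro l hl
        have h1 := h l.1 (mem_biUnion.2 ⟨C, hC, mem_image_of_mem _ hl⟩)
        obtain ⟨b, hb⟩ := Option.ne_none_iff_exists'.1 h1
        have h2 := hex l hl
        rw [hb] at h2 ⊢
        congr 1
        cases h3 : l.2 <;> cases b <;> simp_all

theorem sz_clauseSys (M : Finset (Clause V)) : sz (clauseSys V).wt M = size M := rfl

end

/-- Number of clauses of width at most `w` over `n` variables. -/
theorem card_clauses_le (n w : ℕ) :
    ((univ : Finset (Clause (Fin n))).filter (fun C => C.card ≤ w)).card ≤ (2 * n + 1) ^ w := by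
  classical
  -- clauses of width at most `w` are images of functions `Fin w → Option literal`
  have hsub : ((univ : Finset (Clause (Fin n))).filter (fun C => C.card ≤ w)) ⊆
      (univ : Finset (Fin w → Option (Fin n × Bool))).image
        (fun f => univ.filter (fun l => ∃ i, f i = some l)) := by
    intro C hC
    have hCw : C.card ≤ w := (mem_filter.1 hC).2
    rw [mem_image]
    set e := C.equivFin with he
    refine ⟨fun i => if h : i.val < C.card then some (e.symm ⟨i.val, h⟩).1 else none,
      mem_univ _, ?_⟩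
    ext l
    simp only [mem_filter, mem_univ, true_and]
    constructor
    · rintro ⟨i, hi⟩
      by_cases h : i.val < C.card
      · rw [dif_pos h] at hi
        rw [← Option.some.inj hi]
        exact (e.symm ⟨i.val, h⟩).2
      · rw [dif_neg h] at hi
        simp at hi
    · intro hl
      refine ⟨⟨(e ⟨l, hl⟩).val, lt_of_lt_of_le (e ⟨l, hl⟩).2 hCw⟩, ?_⟩
      rw [dif_pos (e ⟨l, hl⟩).2]
      simp
  refine (card_le_card hsub).trans (card_image_le.trans ?_)
  rw [card_univ, Fintype.card_fun, Fintype.card_fin, Fintype.card_option, Fintype.card_prod,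
    Fintype.card_fin, Fintype.card_bool, mul_comm n 2]

open Classical in
/-- Counting configurations of clauses. -/
theorem count_clause_configs (n : ℕ) (hn : 1 ≤ n) (s ℓ : ℕ) (hℓ : 2 * n ≤ 2 ^ ℓ)
    (𝓔 : Finset (Clause (Fin n))) :
    ((𝓔.powerset).filter (fun Y => (clauseSys (Fin n)).Ev Y ∧
      sz (clauseSys (Fin n)).wt Y ≤ s)).card ≤ 2 ^ (5 + s * ℓ) := by
  have hL : Fintype.card (Fin n × Bool) = 2 * n := by simp [mul_comm]
  have h1 := count_configs (L := Fin n × Bool) (by rw [hL]; omega) s
  rw [hL] at h1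
  refine (card_le_card ?_).trans (h1.trans ?_)
  · intro Y hY
    exact mem_filter.2 ⟨mem_univ _, (mem_filter.1 hY).2.2⟩
  · calc 32 * (2 * n) ^ s ≤ 32 * (2 ^ ℓ) ^ s := by gcongr
      _ = 2 ^ (5 + s * ℓ) := by
        rw [pow_add, mul_comm s ℓ, pow_mul]
        norm_num

/-- `F` has a space-aware refutation of total space at most `s` with all clauses of width at most
`w`. -/
def SpaceWidth {V : Type} [DecidableEq V] (F : Finset (Clause V)) (s w : ℕ) : Prop :=
  ∃ τ : ℕ, ∃ M : ℕ → Finset (Clause V), M 0 = ∅ ∧ (∅ : Clause V) ∈ M τ ∧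
    (∀ t < τ, Step F (M t) (M (t + 1))) ∧ ∀ t ≤ τ, size (M t) ≤ s ∧ ∀ C ∈ M t, C.card ≤ w

/-- From path costs to depth. -/
theorem depth_of_pathCost {n s w D : ℕ}
    (h : PathCost (clauseSys (Fin n)) ((univ : Finset (Clause (Fin n))).filter (fun C => C.card ≤ w))
      s D) {F : Finset (Clause (Fin n))} (hF : SpaceWidth F s w) : DepthAtMost F D := by
  obtain ⟨τ, M, h0, h1, h2, h3⟩ := hF
  apply depthAtMost_of_solve
  refine (h M τ (fun _ => none) ?_ ?_ ?_).weaken fun ρ' _ hb => ?_
  · intro t ht
    refine ⟨trivial, (h3 t ht).1, ?_⟩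
    intro C hC
    exact mem_filter.2 ⟨mem_univ _, (h3 t ht).2 C hC⟩
  · rw [h0]
    intro C hC
    simp at hC
  · refine ⟨∅, h1, ?_⟩
    intro l hl
    simp at hl
  · obtain ⟨t, ht, hT, hF'⟩ := hb
    exact axiom_of_boundary (h2 t ht) hT hF'

end Pool.Agent.Lib.Pad9061
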