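import Mathlib

set_option autoImplicit false

/-!
# Resolution: depth and total space (basic definitions)
-/

namespace Pool.Agent.Lib.Pad9061

/-- A clause over the variables `V`; `(v, true)` is the positive literal. -/
abbrev Clause (V : Type) := Finset (V × Bool)

variable {V : Type} [DecidableEq V]

/-- `F` has a resolution refutation (a DAG, without weakening) of depth at most `d`. -/
def DepthAtMost (F : Finset (Clause V)) (d : ℕ) : Prop :=
  ∃ r : Clause V → ℕ, ∃ S : Set (Clause V), (∅ : Clause V) ∈ S ∧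
    ∀ C ∈ S, r C ≤ d ∧
      (C ∈ F ∨ ∃ A ∈ S, ∃ B ∈ S, ∃ v : V, (v, true) ∈ A ∧ (v, false) ∈ B ∧
        C = A.erase (v, true) ∪ B.erase (v, false) ∧ r A < r C ∧ r B < r C)

/-- One step of a space-aware refutation. -/
def Step (F : Finset (Clause V)) (M M' : Finset (Clause V)) : Prop :=
  (∃ C ∈ F, M' = insert C M) ∨
  (∃ A ∈ M, ∃ B ∈ M, ∃ v : V, (v, true) ∈ A ∧ (v, false) ∈ B ∧
    M' = insert (A.erase (v, true) ∪ B.erase (v, false)) M) ∨
  M' ⊆ M

/-- Total number of literal occurrences of a configuration. -/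
def size (M : Finset (Clause V)) : ℕ := ∑ C ∈ M, C.card

/-- `F` has a space-aware refutation of total space at most `s`. -/
def SpaceAtMost (F : Finset (Clause V)) (s : ℕ) : Prop :=
  ∃ τ : ℕ, ∃ M : ℕ → Finset (Clause V), M 0 = ∅ ∧ (∅ : Clause V) ∈ M τ ∧
    (∀ t < τ, Step F (M t) (M (t + 1))) ∧ ∀ t ≤ τ, size (M t) ≤ s

/-- A clause is falsified by the partial assignment with zeros `Z` and ones `O`. -/
def Falsified (Z O : Finset V) (C : Clause V) : Prop :=
  ∀ l ∈ C, (l.2 = true → l.1 ∈ Z) ∧ (l.2 = false → l.1 ∈ O)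

/-- The Prover-Delayer (adversary) argument for resolution depth. -/
theorem adversary_depth (F : Finset (Clause V)) (q : ℕ)
    (Inv : ℕ → Finset V → Finset V → Prop)
    (h0 : Inv q ∅ ∅)
    (hsafe : ∀ b Z O, Inv b Z O → ∀ C ∈ F, ¬ Falsified Z O C)
    (hstep : ∀ b Z O, Inv (b + 1) Z O → ∀ v, v ∉ Z → v ∉ O →
      Inv b (insert v Z) O ∨ Inv b Z (insert v O))
    (d : ℕ) (hd : DepthAtMost F d) : q < d := by
  obtain ⟨r, S, hS, hr⟩ := hd
  have key : ∀ m : ℕ, ∀ b Z O, Inv b Z O → ∀ C ∈ S, Falsified Z O C → r C ≤ m → r C ≤ b → False := by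
    intro m
    induction m with
    | zero =>
      intro b Z O hI C hC hF hm hb
      rcases (hr C hC).2 with h | ⟨A, hA, B, hB, v, -, -, -, hrA, -⟩
      · exact hsafe b Z O hI C h hF
      · omega
    | succ m ih =>
      intro b Z O hI C hC hF hm hb
      rcases (hr C hC).2 with h | ⟨A, hA, B, hB, v, hvA, hvB, hCe, hrA, hrB⟩
      · exact hsafe b Z O hI C h hF
      · have fA : ∀ Z' O', Z ⊆ Z' → O ⊆ O' → v ∈ Z' → Falsified Z' O' A := by
          intro Z' O' hZ hO hv l hl
          by_cases hlv : l = (v, true)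
          · subst hlv
            exact ⟨fun _ => hv, fun h => by simp at h⟩
          · have hlC : l ∈ C := by
              rw [hCe]; exact Finset.mem_union_left _ (Finset.mem_erase.2 ⟨hlv, hl⟩)
            exact ⟨fun h => hZ ((hF l hlC).1 h), fun h => hO ((hF l hlC).2 h)⟩
        have fB : ∀ Z' O', Z ⊆ Z' → O ⊆ O' → v ∈ O' → Falsified Z' O' B := by
          intro Z' O' hZ hO hv l hl
          by_cases hlv : l = (v, false)
          · subst hlv
            exact ⟨fun h => by simp at h, fun _ => hv⟩
          · have hlC : l ∈ C := by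
              rw [hCe]; exact Finset.mem_union_right _ (Finset.mem_erase.2 ⟨hlv, hl⟩)
            exact ⟨fun h => hZ ((hF l hlC).1 h), fun h => hO ((hF l hlC).2 h)⟩
        by_cases hvZ : v ∈ Z
        · exact ih b Z O hI A hA (fA Z O subset_rfl subset_rfl hvZ) (by omega) (by omega)
        by_cases hvO : v ∈ O
        · exact ih b Z O hI B hB (fB Z O subset_rfl subset_rfl hvO) (by omega) (by omega)
        cases b with
        | zero => omega
        | succ b =>
          rcases hstep b Z O hI v hvZ hvO with h | h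
          · exact ih b _ _ h A hA
              (fA _ _ (Finset.subset_insert _ _) subset_rfl (Finset.mem_insert_self _ _))
              (by omega) (by omega)
          · exact ih b _ _ h B hB
              (fB _ _ subset_rfl (Finset.subset_insert _ _) (Finset.mem_insert_self _ _))
              (by omega) (by omega)
  by_contra hcon
  push Not at hcon
  have h1 : r ∅ ≤ d := (hr ∅ hS).1
  exact key d q ∅ ∅ h0 ∅ hS (fun l hl => by simp at hl) h1 (by omega)

end Pool.Agent.Lib.Pad9061
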