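import Pool.Agent.Lib.Pad9061.Chain

set_option autoImplicit false

/-!
# Existence of the expanding labelling (counting argument)
-/

namespace Pool.Agent.Lib.Pad9061

open Finset

/-- Number of maps sending `I` into `V`. -/
theorem card_maps {α β : Type} [Fintype α] [DecidableEq α] [Fintype β] [DecidableEq β]
    (I : Finset α) (V : Finset β) :
    ((univ : Finset (α → β)).filter (fun b => ∀ x ∈ I, b x ∈ V)).card =
      V.card ^ I.card * (Fintype.card β) ^ (Fintype.card α - I.card) := by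
  have h : ((univ : Finset (α → β)).filter (fun b => ∀ x ∈ I, b x ∈ V)) =
      Fintype.piFinset (fun x => if x ∈ I then V else (univ : Finset β)) := by
    ext b
    simp only [mem_filter, mem_univ, true_and, Fintype.mem_piFinset]
    constructor
    · intro h x
      by_cases hx : x ∈ I
      · simp only [hx, if_true]; exact h x hx
      · simp [hx]
    · intro h x hx
      have := h x
      simpa only [hx, if_true] using this
  rw [h, Fintype.card_piFinset]
  have h2 : ∀ x : α, (if x ∈ I then V else (univ : Finset β)).card =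
      if x ∈ I then V.card else Fintype.card β := by
    intro x
    split_ifs <;> simp
  simp only [h2]
  rw [Finset.prod_ite]
  simp only [prod_const]
  congr 2
  · congr 1
    ext x; simp
  · rw [← Finset.compl_filter, card_compl]
    congr 2
    ext x; simp

theorem sum_quarter (N : ℕ) : ∑ m ∈ Icc 1 N, (1 / 4 : ℝ) ^ m < 1 := by
  have h : ∀ N : ℕ, ∑ m ∈ Icc 1 N, (1 / 4 : ℝ) ^ m = 1 / 3 * (1 - (1 / 4) ^ N) := by
    intro N
    induction N with
    | zero => simp
    | succ N ih =>
      rw [Finset.sum_Icc_succ_top (by omega), ih]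
      ring
  rw [h]
  have : (0 : ℝ) < (1 / 4) ^ N := by positivity
  linarith

theorem sq_le_two_pow {κ : ℕ} (hκ : 4 ≤ κ) : κ ^ 2 ≤ 2 ^ κ := by
  induction κ, hκ using Nat.le_induction with
  | base => norm_num
  | succ n hn ih =>
    calc (n + 1) ^ 2 = n ^ 2 + (2 * n + 1) := by ring
      _ ≤ 2 ^ n + 2 ^ n := by
        apply Nat.add_le_add ih
        nlinarith
      _ = 2 ^ (n + 1) := by ring

/-- The main counting bound. -/
theorem count_bound {κ m : ℕ} (hκ : 4 ≤ κ) (hm : 1 ≤ m) (hmN : m ≤ κ ^ 3) (c : ℕ) (hmc : m ≤ c) :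
    4 ^ m * (((2 ^ κ + 1).choose (m / κ)) * (((m / κ) * ((2 * κ) * (2 * κ))).choose m) *
      ((4096 * κ ^ 16).choose (m / 2)) * ((m / 2) ^ m * (4096 * κ ^ 16) ^ (c - m))) ≤
      (4096 * κ ^ 16) ^ c := by
  have hκ0 : 0 < κ := by omega
  have e1 : (2 ^ κ + 1).choose (m / κ) ≤ 4 ^ m := by
    calc (2 ^ κ + 1).choose (m / κ) ≤ (2 ^ κ + 1) ^ (m / κ) := Nat.choose_le_pow _ _
      _ ≤ (4 ^ κ) ^ (m / κ) := by
        apply Nat.pow_le_pow_left
        have h1 : (4 : ℕ) ^ κ = 2 ^ κ * 2 ^ κ := by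
          rw [← mul_pow]
          norm_num
        have h2 : 2 ≤ 2 ^ κ := by
          calc 2 = 2 ^ 1 := by norm_num
            _ ≤ 2 ^ κ := Nat.pow_le_pow_right (by norm_num) (by omega)
        rw [h1]
        nlinarith
      _ = 4 ^ (κ * (m / κ)) := by rw [← pow_mul]
      _ ≤ 4 ^ m := Nat.pow_le_pow_right (by norm_num) (Nat.mul_div_le m κ)
  have e2 : ((m / κ) * ((2 * κ) * (2 * κ))).choose m ≤ (4 * κ ^ 5) ^ m := by
    calc ((m / κ) * ((2 * κ) * (2 * κ))).choose m ≤ ((m / κ) * ((2 * κ) * (2 * κ))) ^ m :=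
          Nat.choose_le_pow _ _
      _ ≤ (4 * κ ^ 5) ^ m := by
        apply Nat.pow_le_pow_left
        have h1 : m / κ ≤ κ ^ 3 := (Nat.div_le_self m κ).trans hmN
        calc (m / κ) * ((2 * κ) * (2 * κ)) ≤ κ ^ 3 * ((2 * κ) * (2 * κ)) := by gcongr
          _ = 4 * κ ^ 5 := by ring
  have e3 : (4096 * κ ^ 16).choose (m / 2) ≤ (4096 * κ ^ 16) ^ (m / 2) := Nat.choose_le_pow _ _
  have e4 : (m / 2) ^ m ≤ (κ ^ 3) ^ m := Nat.pow_le_pow_left ((Nat.div_le_self m 2).trans hmN) m
  calc _ ≤ 4 ^ m * ((4 ^ m) * ((4 * κ ^ 5) ^ m) * ((4096 * κ ^ 16) ^ (m / 2)) *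
        ((κ ^ 3) ^ m * (4096 * κ ^ 16) ^ (c - m))) := by gcongr
    _ = (64 * κ ^ 8) ^ m * ((4096 * κ ^ 16) ^ (m / 2)) * (4096 * κ ^ 16) ^ (c - m) := by
      have : (64 * κ ^ 8) ^ m = 4 ^ m * 4 ^ m * (4 * κ ^ 5) ^ m * (κ ^ 3) ^ m := by
        rw [← mul_pow, ← mul_pow, ← mul_pow]
        congr 1
        ring
      rw [this]
      ring
    _ ≤ (4096 * κ ^ 16) ^ (m - m / 2) * ((4096 * κ ^ 16) ^ (m / 2)) *
        (4096 * κ ^ 16) ^ (c - m) := by
      have e5 : (64 * κ ^ 8) ^ m ≤ (4096 * κ ^ 16) ^ (m - m / 2) := by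
        have h1 : (4096 * κ ^ 16) = (64 * κ ^ 8) ^ 2 := by ring
        rw [h1, ← pow_mul]
        apply Nat.pow_le_pow_right (by positivity)
        omega
      exact Nat.mul_le_mul_right _ (Nat.mul_le_mul_right _ e5)
    _ = (4096 * κ ^ 16) ^ c := by
      rw [← pow_add, ← pow_add]
      congr 1
      omega

/-- Existence of the expanding labelling. -/
theorem exists_expander {κ : ℕ} (hκ : 4 ≤ κ) :
    ∃ b : (Fin (2 ^ κ + 1) × Fin (2 * κ) × Fin (2 * κ)) → Fin (4096 * κ ^ 16),
      ∀ I : Finset (Fin (2 ^ κ + 1) × Fin (2 * κ) × Fin (2 * κ)), I.Nonempty → I.card ≤ κ ^ 3 →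
        κ * (I.image Prod.fst).card ≤ I.card → I.card < 2 * (I.image b).card := by
  classical
  by_contra hcon
  push Not at hcon
  set α := Fin (2 ^ κ + 1) × Fin (2 * κ) × Fin (2 * κ) with hα
  set n' := 4096 * κ ^ 16 with hn'
  have hκ0 : 0 < κ := by omega
  have hcα : Fintype.card α = (2 ^ κ + 1) * ((2 * κ) * (2 * κ)) := by
    simp [hα]
  set c := Fintype.card α with hc
  -- cover of all labellings by bad events
  obtain ⟨U, hU⟩ : ∃ U : ℕ → Finset (α → Fin n'), U = fun m =>
        (powersetCard (m / κ) (univ : Finset (Fin (2 ^ κ + 1)))).biUnion fun X =>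
          (powersetCard m (X ×ˢ (univ : Finset (Fin (2 * κ) × Fin (2 * κ))))).biUnion fun I =>
            (powersetCard (m / 2) (univ : Finset (Fin n'))).biUnion fun V =>
              (univ : Finset (α → Fin n')).filter (fun b => ∀ x ∈ I, b x ∈ V) := ⟨_, rfl⟩
  have hcover : (univ : Finset (α → Fin n')) ⊆ (Icc 1 (κ ^ 3)).biUnion U := by
    intro b _
    obtain ⟨I, hI0, hIN, hIt, hIb⟩ := hcon b
    have hm1 : 1 ≤ I.card := hI0.card_pos
    have ht : (I.image Prod.fst).card ≤ I.card / κ := by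
      rw [Nat.le_div_iff_mul_le hκ0, mul_comm]
      exact hIt
    obtain ⟨X, hX1, hX2⟩ := Finset.exists_superset_card_eq (s := I.image Prod.fst)
      (n := I.card / κ) ht (by
        rw [Fintype.card_fin]
        have h1 : I.card / κ ≤ κ ^ 2 := by
          rw [Nat.div_le_iff_le_mul_add_pred hκ0]
          calc I.card ≤ κ ^ 3 := hIN
            _ = κ * κ ^ 2 := by ring
            _ ≤ _ := Nat.le_add_right _ _
        have h2 := sq_le_two_pow hκ
        omega)
    have hV0 : (I.image b).card ≤ I.card / 2 := by omega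
    obtain ⟨V, hV1, hV2⟩ := Finset.exists_superset_card_eq (s := I.image b)
      (n := I.card / 2) hV0 (by
        rw [Fintype.card_fin]
        have h1 : I.card / 2 ≤ κ ^ 3 := (Nat.div_le_self _ _).trans hIN
        have h2 : κ ^ 3 ≤ κ ^ 16 := Nat.pow_le_pow_right hκ0 (by norm_num)
        rw [hn']
        omega)
    rw [mem_biUnion]
    refine ⟨I.card, mem_Icc.2 ⟨hm1, hIN⟩, ?_⟩
    rw [hU]
    simp only [mem_biUnion]
    refine ⟨X, mem_powersetCard.2 ⟨subset_univ _, hX2⟩, I,
      mem_powersetCard.2 ⟨?_, rfl⟩, V, mem_powersetCard.2 ⟨subset_univ _, hV2⟩, ?_⟩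
    · intro x hx
      rw [mem_product]
      exact ⟨hX1 (mem_image_of_mem _ hx), mem_univ _⟩
    · exact mem_filter.2 ⟨mem_univ _, fun x hx => hV1 (mem_image_of_mem _ hx)⟩
  have hcard := card_le_card hcover
  have hb1 : ∀ m ∈ Icc 1 (κ ^ 3), ((U m).card : ℝ) ≤ (n' : ℝ) ^ c * (1 / 4) ^ m := by
    intro m hm
    obtain ⟨hm1, hm2⟩ := mem_Icc.1 hm
    by_cases hmc : m ≤ c
    · have hbound : (U m).card ≤
          ((2 ^ κ + 1).choose (m / κ)) * (((m / κ) * ((2 * κ) * (2 * κ))).choose m) *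
            (n'.choose (m / 2)) * ((m / 2) ^ m * n' ^ (c - m)) := by
        rw [hU]
        refine (card_biUnion_le).trans ?_
        refine (sum_le_card_nsmul _ _ ((((m / κ) * ((2 * κ) * (2 * κ))).choose m) *
            (n'.choose (m / 2)) * ((m / 2) ^ m * n' ^ (c - m))) ?_).trans ?_
        · intro X hX
          obtain ⟨-, hXc⟩ := mem_powersetCard.1 hX
          refine (card_biUnion_le).trans ?_
          refine (sum_le_card_nsmul _ _ ((n'.choose (m / 2)) * ((m / 2) ^ m * n' ^ (c - m))) ?_).trans ?_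
          · intro I hI
            obtain ⟨-, hIc⟩ := mem_powersetCard.1 hI
            refine (card_biUnion_le).trans ?_
            refine (sum_le_card_nsmul _ _ ((m / 2) ^ m * n' ^ (c - m)) ?_).trans ?_
            · intro V hV
              obtain ⟨-, hVc⟩ := mem_powersetCard.1 hV
              rw [card_maps, hVc, hIc, Fintype.card_fin]
            · rw [card_powersetCard, card_univ, Fintype.card_fin, smul_eq_mul]
          · rw [card_powersetCard, card_product, hXc, card_univ, Fintype.card_prod,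
              Fintype.card_fin, smul_eq_mul]
            exact le_of_eq (by ring)
        · rw [card_powersetCard, card_univ, Fintype.card_fin, smul_eq_mul]
          exact le_of_eq (by ring)
      have h2 := count_bound hκ hm1 hm2 c hmc
      rw [← hn'] at h2
      have h3 : 4 ^ m * (U m).card ≤ n' ^ c := (Nat.mul_le_mul_left (4 ^ m) hbound).trans h2
      have h4 : (4 : ℝ) ^ m * ((U m).card : ℝ) ≤ (n' : ℝ) ^ c := by exact_mod_cast h3
      rw [one_div, inv_pow, ← div_eq_mul_inv, le_div_iff₀ (by positivity), mul_comm]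
      exact h4
    · -- no sets of size `m`
      have : U m = ∅ := by
        rw [eq_empty_iff_forall_notMem]
        intro b hb
        rw [hU] at hb
        simp only [mem_biUnion] at hb
        obtain ⟨X, -, I, hI, -⟩ := hb
        obtain ⟨-, hIc⟩ := mem_powersetCard.1 hI
        have h7 : I.card ≤ c := card_le_univ I
        omega
      rw [this]
      simp only [card_empty, Nat.cast_zero]
      positivity
  have h5 : ((univ : Finset (α → Fin n')).card : ℝ) ≤ ∑ m ∈ Icc 1 (κ ^ 3), (n' : ℝ) ^ c * (1 / 4) ^ m := by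
    calc ((univ : Finset (α → Fin n')).card : ℝ) ≤ (((Icc 1 (κ ^ 3)).biUnion U).card : ℝ) := by
          exact_mod_cast hcard
      _ ≤ ∑ m ∈ Icc 1 (κ ^ 3), ((U m).card : ℝ) := by
        exact_mod_cast card_biUnion_le
      _ ≤ _ := sum_le_sum hb1
  rw [card_univ, Fintype.card_fun, Fintype.card_fin, ← hc, ← mul_sum] at h5
  push_cast at h5
  have hn0 : (0 : ℝ) < (n' : ℝ) ^ c := by
    have : 0 < n' := by rw [hn']; positivity
    positivity
  have h6 := sum_quarter (κ ^ 3)
  nlinarith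

end Pool.Agent.Lib.Pad9061
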