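import Pool.Agent.Lib.Pad9061.Chain

set_option autoImplicit false

/-!
# The lower bound on depth for chains of tribes
-/

namespace Pool.Agent.Lib.Pad9061

open Finset

section

variable {V : Type} [DecidableEq V] {κ : ℕ}

theorem hits_insert_le {k : ℕ} {B : ℕ → Fin k → Fin k → V}
    (tag : ∀ t t' j j' i i', B t j i = B t' j' i' → j = j' ∧ i = i') (O : Finset V) (v : V) (t : ℕ) :
    hits B (insert v O) t ≤ hits B O t + 1 := by
  unfold hits
  have hsub : (univ.filter fun j => ∃ i, B t j i ∈ insert v O) ⊆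
      (univ.filter fun j => ∃ i, B t j i ∈ O) ∪ (univ.filter fun j => ∃ i, B t j i = v) := by
    intro j hj
    obtain ⟨i, hi⟩ := (mem_filter.1 hj).2
    rcases mem_insert.1 hi with h | h
    · exact mem_union_right _ (mem_filter.2 ⟨mem_univ _, i, h⟩)
    · exact mem_union_left _ (mem_filter.2 ⟨mem_univ _, i, h⟩)
  have h1 : (univ.filter fun j => ∃ i, B t j i = v).card ≤ 1 := by
    rw [card_le_one]
    intro a ha b hb
    obtain ⟨i, hi⟩ := (mem_filter.1 ha).2
    obtain ⟨i', hi'⟩ := (mem_filter.1 hb).2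
    exact (tag t t a b i i' (hi.trans hi'.symm)).1
  calc _ ≤ _ := card_le_card hsub
    _ ≤ _ := card_union_le _ _
    _ ≤ _ := by omega

theorem hits_mono {k : ℕ} {B : ℕ → Fin k → Fin k → V} {O O' : Finset V} (h : O ⊆ O') (t : ℕ) :
    hits B O t ≤ hits B O' t := by
  unfold hits
  apply card_le_card
  intro j hj
  obtain ⟨i, hi⟩ := (mem_filter.1 hj).2
  exact mem_filter.2 ⟨mem_univ _, i, h hi⟩

variable {B : ℕ → Fin (2 * κ) → Fin (2 * κ) → V}

/-- An unreserved tribe is not all zero. -/
theorem not_all_zero (tag : ∀ t t' j j' i i', B t j i = B t' j' i' → j = j' ∧ i = i')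
    {T N : ℕ} (hE : Expands B T κ N) (hκ : 0 < κ) (hN : 2 * κ ≤ N) {Z O : Finset V}
    {lo hi : ℕ} {R W : Finset (ℕ × Fin (2 * κ))} (G : Good B T κ Z O lo hi R W)
    {t : ℕ} (ht : t ≤ T) {j : Fin (2 * κ)} (hR : (t, j) ∉ R) (hZ : ∀ i, B t j i ∈ Z) : False := by
  have hO : ∀ i, B t j i ∉ O := fun i h => G.disj _ h (hZ i)
  have h1 := G.light t ht j hR hO
  have hu : (univ : Finset (Fin (2 * κ))) ⊆
      (univ.filter fun i => B t j i ∈ Z ∧ ∀ p ∈ R, B t j i ≠ B p.1 p.2 i) ∪
      (univ.filter fun i => ∃ p ∈ R, B t j i = B p.1 p.2 i) := by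
    intro i _
    by_cases h : ∃ p ∈ R, B t j i = B p.1 p.2 i
    · exact mem_union_right _ (mem_filter.2 ⟨mem_univ _, h⟩)
    · push Not at h
      exact mem_union_left _ (mem_filter.2 ⟨mem_univ _, hZ i, h⟩)
  have h2 : (univ.filter fun i => ∃ p ∈ R, B t j i = B p.1 p.2 i).card < κ := by
    by_cases hp : ∃ p ∈ R, p.2 = j
    · obtain ⟨p, hpR, hpj⟩ := hp
      have hne : t ≠ p.1 := by
        intro h
        apply hR
        rw [h, ← hpj]
        exact hpR
      refine lt_of_le_of_lt (card_le_card ?_)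
        (overlap_lt hE hκ hN ht (G.R_hi p hpR).2 hne j)
      intro i hi
      obtain ⟨p', hp', hi'⟩ := (mem_filter.1 hi).2
      have h3 : j = p'.2 := (tag _ _ _ _ _ _ hi').1
      have h4 : p' = p := G.R_inj p' hp' p hpR (by rw [← h3, hpj])
      subst h4
      refine mem_filter.2 ⟨mem_univ _, ?_⟩
      rw [hi', h3]
    · have : (univ.filter fun i => ∃ p ∈ R, B t j i = B p.1 p.2 i) = ∅ := by
        rw [filter_eq_empty_iff]
        rintro i - ⟨p, hp', hi⟩
        exact hp ⟨p, hp', (tag _ _ _ _ _ _ hi).1.symm⟩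
      rw [this]
      simpa using hκ
  have h3 := (card_le_card hu).trans (card_union_le _ _)
  rw [card_univ, Fintype.card_fin] at h3
  omega

/-- The adversary invariant with budget `b`. -/
def Inv (B : ℕ → Fin (2 * κ) → Fin (2 * κ) → V) (T q : ℕ) (b : ℕ) (Z O : Finset V) : Prop :=
  (∃ lo hi R W, Good B T κ Z O lo hi R W) ∧ Z.card + O.card + b ≤ q ∧ κ * O.card ≤ 2 * q

theorem ndec_lt {T N L q : ℕ} (hE : Expands B T κ N) (hκ : 0 < κ) (hL : 0 < L) (hLN : κ * L ≤ N)
    (hq : 4 * q ≤ κ * κ * L) {O : Finset V} (hO : κ * O.card ≤ 2 * q) : ndec B O T κ < L := by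
  by_contra hcon
  push Not at hcon
  obtain ⟨X, hX, hXc⟩ := Finset.exists_subset_card_eq hcon
  have h1 := times_lt (O := O) (X := X) hE hκ
    (fun t ht => by
      have := mem_filter.1 (hX ht)
      exact ⟨by have := mem_range.1 this.1; omega, this.2⟩)
    (by rw [← card_pos]; omega) (by rw [hXc]; exact hLN)
  rw [hXc] at h1
  have h2 : κ * (κ * L) < κ * (2 * O.card) := Nat.mul_lt_mul_of_pos_left h1 hκ
  nlinarith

theorem inv_safe (tag : ∀ t t' j j' i i', B t j i = B t' j' i' → j = j' ∧ i = i')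
    {T N L q : ℕ} (hE : Expands B T κ N) (hκ : 0 < κ) (hN : 2 * κ ≤ N) (hL : 0 < L)
    (hLN : κ * L ≤ N) (hq : 4 * q ≤ κ * κ * L) (hT : 2 ^ L ≤ T)
    (b : ℕ) (Z O : Finset V) (hI : Inv B T q b Z O) : ∀ C ∈ chainCNF B T, ¬ Falsified Z O C := by
  obtain ⟨⟨lo, hi, R, W, G⟩, h1, h2⟩ := hI
  have hnd := ndec_lt hE hκ hL hLN hq h2
  have hgap : lo + 2 ≤ hi := by
    by_contra hcon
    push Not at hcon
    have h3 : hi - lo ≤ 1 := by omega
    have h4 : T ≤ 1 * 2 ^ ndec B O T κ := G.long.trans (Nat.mul_le_mul_right _ h3)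
    have h5 : 2 ^ ndec B O T κ < 2 ^ L := Nat.pow_lt_pow_right (by norm_num) hnd
    omega
  have hall : ∀ t ≤ T, ∀ g : Fin (2 * κ) → Fin (2 * κ), (∀ j, B t j (g j) ∈ O) → t ≤ lo := by
    intro t ht g hg
    have hh : κ ≤ hits B O t := by
      unfold hits
      have : (univ.filter fun j => ∃ i, B t j i ∈ O) = univ := by
        rw [filter_eq_self]
        exact fun j _ => ⟨g j, hg j⟩
      rw [this, card_univ, Fintype.card_fin]
      omega
    rcases G.dec t ht hh with h | ⟨j, hj⟩
    · exact h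
    · exact absurd (hg j) (G.R_O _ hj _)
  intro C hC hF
  rcases mem_chainCNF.1 hC with ⟨j, rfl⟩ | ⟨t, ht, g, j, rfl⟩ | ⟨g, rfl⟩
  · have hR : (0, j) ∉ R := by
      intro h
      have := (G.R_hi _ h).1
      simp only at this
      omega
    exact not_all_zero tag hE hκ hN G (Nat.zero_le _) hR (fun i => falsified_tr hF i)
  · have f1 : Falsified Z O (ng B t g) := fun l hl => hF l (mem_union_left _ hl)
    have f2 : Falsified Z O (tr B (t + 1) j) := fun l hl => hF l (mem_union_right _ hl)
    have h3 := hall t ht.le g (fun j => falsified_ng f1 j)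
    have hR : (t + 1, j) ∉ R := by
      intro h
      have := (G.R_hi _ h).1
      simp only at this
      omega
    exact not_all_zero tag hE hκ hN G ht hR (fun i => falsified_tr f2 i)
  · have h3 := hall T le_rfl g (fun j => falsified_ng hF j)
    have := G.lohi
    have := G.hiT
    omega

theorem inv_init {T q : ℕ} (hκ : 0 < κ) (hT : 0 < T) : Inv B T q q ∅ ∅ := by
  refine ⟨⟨0, T, ∅, ∅, ?_⟩, by simp, by simp⟩
  have hh : ∀ t, hits B (∅ : Finset V) t = 0 := by
    intro t
    simp [hits]
  refine ⟨hT, le_rfl, by simp, by simp, by simp, by simp, by simp, ?_, ?_, by simp, by simp, ?_⟩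
  · intro t _ h
    rw [hh] at h
    omega
  · intro t _ j _ _
    simp
  · simp only [tsub_zero]
    exact Nat.le_mul_of_pos_right _ (by positivity)

theorem inv_step (tag : ∀ t t' j j' i i', B t j i = B t' j' i' → j = j' ∧ i = i')
    {T N L q : ℕ} (hE : Expands B T κ N) (hκ : 0 < κ) (hL : 0 < L) (hLκ : L ≤ κ)
    (hLN : κ * L ≤ N) (hq : 4 * q ≤ κ * κ * L) (hqN : 2 * q + κ ≤ N)
    (b : ℕ) (Z O : Finset V) (hI : Inv B T q (b + 1) Z O) (v : V) (hvZ : v ∉ Z) (hvO : v ∉ O) :
    Inv B T q b (insert v Z) O ∨ Inv B T q b Z (insert v O) := by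
  classical
  obtain ⟨⟨lo, hi, R, W, G⟩, h1, h2⟩ := hI
  by_cases hone : (∀ p ∈ R, ∀ i, B p.1 p.2 i ≠ v) ∧
      ∃ t ≤ T, ∃ j, (t, j) ∉ R ∧ (∀ i, B t j i ∉ O) ∧ (∃ i, B t j i = v) ∧
        κ ≤ (univ.filter fun i => B t j i ∈ Z ∧ ∀ p ∈ R, B t j i ≠ B p.1 p.2 i).card
  · -- answer one
    right
    obtain ⟨hvR, t0, ht0, j0, hR0, hO0, ⟨i0, hi0⟩, hc0⟩ := hone
    have hw0 : (t0, j0) ∉ W := by
      intro h
      obtain ⟨-, ⟨i, hi⟩, -⟩ := G.W_spec _ h
      exact hO0 i hi
    set O' := insert v O with hO'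
    set W' := insert (t0, j0) W with hW'
    have hWc' : W'.card = O'.card := by
      rw [hW', hO', card_insert_of_notMem hw0, card_insert_of_notMem hvO, G.W_card]
    have hWs' : ∀ w ∈ W', w.1 ≤ T ∧ (∃ i, B w.1 w.2 i ∈ O') ∧
        κ ≤ (univ.filter fun i => B w.1 w.2 i ∈ Z).card := by
      intro w hw
      rcases mem_insert.1 hw with rfl | hw
      · refine ⟨ht0, ⟨i0, by rw [hi0]; exact mem_insert_self _ _⟩, hc0.trans (card_le_card ?_)⟩
        intro i hi
        exact mem_filter.2 ⟨mem_univ _, (mem_filter.1 hi).2.1⟩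
      · obtain ⟨a1, ⟨i, a2⟩, a3⟩ := G.W_spec w hw
        exact ⟨a1, ⟨i, mem_insert_of_mem a2⟩, a3⟩
    have hOc' : O'.card = O.card + 1 := card_insert_of_notMem hvO
    have hones : κ * O'.card ≤ 2 * q := by
      have h3 := ones_lt (W := W') (Z := Z) hE hκ (fun w hw => ⟨(hWs' w hw).1, (hWs' w hw).2.2⟩)
        ⟨_, mem_insert_self _ _⟩ (by rw [hWc', hOc']; nlinarith)
      rw [hWc'] at h3
      omega
    have hnd' := ndec_lt hE hκ hL hLN hq hones
    -- newly decided times
    set X := (range (T + 1)).filter (fun t => κ ≤ hits B O' t ∧ ¬ κ ≤ hits B O t) with hX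
    have hndX : ndec B O T κ + X.card ≤ ndec B O' T κ := by
      unfold ndec
      rw [hX, ← card_union_of_disjoint]
      · apply card_le_card
        intro t ht
        rcases mem_union.1 ht with ht | ht
        · have := mem_filter.1 ht
          exact mem_filter.2 ⟨this.1, this.2.trans (hits_mono (subset_insert _ _) t)⟩
        · have := mem_filter.1 ht
          exact mem_filter.2 ⟨this.1, this.2.1⟩
      · rw [disjoint_left]
        intro t ht ht'
        exact (mem_filter.1 ht').2.2 (mem_filter.1 ht).2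
    obtain ⟨lo', hi', g1, g2, g3, g4, g5⟩ := exists_gap X lo hi G.lohi
    set Y := X.filter (fun t => hi' ≤ t) with hY
    have hYX : Y.card ≤ X.card := card_le_card (filter_subset _ _)
    obtain ⟨f, hf1, hf2⟩ := exists_distinct (α := Fin (2 * κ)) Y
      (fun t => univ.filter fun j => ∀ i, B t j i ∉ O') κ (R.image Prod.snd)
      (by
        intro t ht
        have ht' := (mem_filter.1 (mem_filter.1 ht).1).2
        have h3 := hits_insert_le tag O v t
        rw [← hO'] at h3
        have h4 : hits B O' t = κ := by omega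
        unfold hits at h4
        have h5 := Finset.card_filter_add_card_filter_not (s := (univ : Finset (Fin (2 * κ)))) (fun j => ∃ i, B t j i ∈ O')
        rw [card_univ, Fintype.card_fin] at h5
        have h6 : (univ.filter fun j => ¬ ∃ i, B t j i ∈ O') =
          (univ.filter fun j => ∀ i, B t j i ∉ O') := by
          apply filter_congr
          intro j _
          push Not
          rfl
        rw [h6] at h5
        omega)
      (by
        have h3 : (R.image Prod.snd).card ≤ R.card := card_image_le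
        have h4 := G.R_card
        omega)
      (fun _ => trivial) ⟨⟨0, by omega⟩⟩
    set R' := R ∪ Y.image (fun t => (t, f t)) with hR'
    refine ⟨⟨lo', hi', R', W', ?_⟩, ?_, hones⟩
    · have hYmem : ∀ t ∈ Y, hi' ≤ t ∧ t ≤ T := by
        intro t ht
        have a := mem_filter.1 ht
        have b := mem_range.1 (mem_filter.1 a.1).1
        exact ⟨a.2, by omega⟩
      refine ⟨g2, g3.trans G.hiT, ?_, ?_, ?_, ?_, ?_, ?_, ?_, hWc', hWs', ?_⟩
      · intro w hw
        rcases mem_insert.1 hw with rfl | hw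
        · exact hvZ
        · exact G.disj w hw
      · intro p hp
        rcases mem_union.1 hp with hp | hp
        · exact ⟨g3.trans (G.R_hi p hp).1, (G.R_hi p hp).2⟩
        · obtain ⟨t, ht, rfl⟩ := mem_image.1 hp
          exact hYmem t ht
      · intro p hp i hi
        rcases mem_union.1 hp with hp | hp
        · rcases mem_insert.1 hi with h | h
          · exact hvR p hp i h
          · exact G.R_O p hp i h
        · obtain ⟨t, ht, rfl⟩ := mem_image.1 hp
          exact (mem_filter.1 (hf1 t ht).1).2 i hi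
      · intro p hp p' hp' heq
        rcases mem_union.1 hp with hp | hp <;> rcases mem_union.1 hp' with hp' | hp'
        · exact G.R_inj p hp p' hp' heq
        · obtain ⟨t, ht, rfl⟩ := mem_image.1 hp'
          exact absurd (mem_image.2 ⟨p, hp, heq⟩) (hf1 t ht).2
        · obtain ⟨t, ht, rfl⟩ := mem_image.1 hp
          exact absurd (mem_image.2 ⟨p', hp', heq.symm⟩) (hf1 t ht).2
        · obtain ⟨t, ht, rfl⟩ := mem_image.1 hp
          obtain ⟨t', ht', rfl⟩ := mem_image.1 hp'
          have := hf2 t ht t' ht' heq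
          rw [this]
      · have h3 : R'.card ≤ R.card + Y.card :=
          (card_union_le _ _).trans (Nat.add_le_add_left card_image_le _)
        have h4 := G.R_card
        omega
      · intro t ht hh
        by_cases hold : κ ≤ hits B O t
        · rcases G.dec t ht hold with h | ⟨j, hj⟩
          · exact Or.inl (h.trans g1)
          · exact Or.inr ⟨j, mem_union_left _ hj⟩
        · have htX : t ∈ X := mem_filter.2 ⟨mem_range.2 (by omega), hh, hold⟩
          rcases g4 t htX with h | h
          · exact Or.inl h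
          · exact Or.inr ⟨f t, mem_union_right _ (mem_image.2 ⟨t, mem_filter.2 ⟨htX, h⟩, rfl⟩)⟩
      · intro t ht j hjR hjO
        have a1 : (t, j) ∉ R := fun h => hjR (mem_union_left _ h)
        have a2 : ∀ i, B t j i ∉ O := fun i h => hjO i (mem_insert_of_mem h)
        refine (card_le_card ?_).trans (G.light t ht j a1 a2)
        intro i hi
        have := (mem_filter.1 hi).2
        exact mem_filter.2 ⟨mem_univ _, this.1, fun p hp => this.2 p (mem_union_left _ hp)⟩
      · calc T ≤ (hi - lo) * 2 ^ ndec B O T κ := G.long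
          _ ≤ ((hi' - lo') * 2 ^ X.card) * 2 ^ ndec B O T κ := by gcongr
          _ = (hi' - lo') * 2 ^ (ndec B O T κ + X.card) := by ring
          _ ≤ (hi' - lo') * 2 ^ ndec B O' T κ := by
            gcongr
            norm_num
    · rw [hOc']; omega
  · -- answer zero
    left
    refine ⟨⟨lo, hi, R, W, ?_⟩, ?_, h2⟩
    · refine ⟨G.lohi, G.hiT, ?_, G.R_hi, G.R_O, G.R_inj, G.R_card, G.dec, ?_, G.W_card, ?_, G.long⟩
      · intro w hw hwZ
        rcases mem_insert.1 hwZ with rfl | hwZ
        · exact hvO hw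
        · exact G.disj w hw hwZ
      · intro t ht j hjR hjO
        by_cases hcase : (∀ p ∈ R, ∀ i, B p.1 p.2 i ≠ v) ∧ ∃ i, B t j i = v
        · obtain ⟨hvR, i0, hi0⟩ := hcase
          have h3 : (univ.filter fun i => B t j i ∈ Z ∧ ∀ p ∈ R, B t j i ≠ B p.1 p.2 i).card < κ := by
            by_contra hcon
            push Not at hcon
            exact hone ⟨hvR, t, ht, j, hjR, hjO, ⟨i0, hi0⟩, hcon⟩
          have hsub : (univ.filter fun i => B t j i ∈ insert v Z ∧
              ∀ p ∈ R, B t j i ≠ B p.1 p.2 i) ⊆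
              insert i0 (univ.filter fun i => B t j i ∈ Z ∧ ∀ p ∈ R, B t j i ≠ B p.1 p.2 i) := by
            intro i hi
            obtain ⟨a, b⟩ := (mem_filter.1 hi).2
            rcases mem_insert.1 a with h | h
            · have : i = i0 := (tag t t j j i i0 (h.trans hi0.symm)).2
              rw [this]
              exact mem_insert_self _ _
            · exact mem_insert_of_mem (mem_filter.2 ⟨mem_univ _, h, b⟩)
          have := (card_le_card hsub).trans (card_insert_le _ _)
          omega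
        · refine (card_le_card ?_).trans (G.light t ht j hjR hjO)
          intro i hi
          obtain ⟨a, b⟩ := (mem_filter.1 hi).2
          refine mem_filter.2 ⟨mem_univ _, ?_, b⟩
          rcases mem_insert.1 a with h | h
          · exfalso
            apply hcase
            refine ⟨?_, i, h⟩
            intro p hp i' hi'
            have e := tag _ _ _ _ _ _ (h.trans hi'.symm)
            apply b p hp
            rw [h, e.2, hi']
          · exact h
      · intro w hw
        obtain ⟨a1, a2, a3⟩ := G.W_spec w hw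
        refine ⟨a1, a2, a3.trans (card_le_card ?_)⟩
        intro i hi
        exact mem_filter.2 ⟨mem_univ _, mem_insert_of_mem (mem_filter.1 hi).2⟩
    · rw [card_insert_of_notMem hvZ]; omega

/-- The depth lower bound for chains of tribes. -/
theorem chain_depth (tag : ∀ t t' j j' i i', B t j i = B t' j' i' → j = j' ∧ i = i')
    {T N L q : ℕ} (hE : Expands B T κ N) (hκ : 0 < κ) (hN : 2 * κ ≤ N) (hL : 0 < L) (hLκ : L ≤ κ)
    (hLN : κ * L ≤ N) (hq : 4 * q ≤ κ * κ * L) (hqN : 2 * q + κ ≤ N) (hT : 2 ^ L ≤ T) (d : ℕ)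
    (hd : DepthAtMost (chainCNF B T) d) : q < d := by
  refine adversary_depth (chainCNF B T) q (Inv B T q)
    (inv_init hκ (lt_of_lt_of_le (by positivity) hT)) ?_ ?_ d hd
  · exact fun b Z O hI => inv_safe tag hE hκ hN hL hLN hq hT b Z O hI
  · exact fun b Z O hI v hvZ hvO => inv_step tag hE hκ hL hLκ hLN hq hqN b Z O hI v hvZ hvO

end

end Pool.Agent.Lib.Pad9061
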