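import Pool.Agent.Lib.Pad9061.Chain

set_option autoImplicit false

/-!
# Chains of tribes have refutations of small total space
-/

namespace Pool.Agent.Lib.Pad9061

open Finset

section

variable {V : Type} [DecidableEq V]

/-- `M'` can be reached from `M` in total space at most `s`. -/
def Reach (F : Finset (Clause V)) (s : ℕ) : Finset (Clause V) → Finset (Clause V) → Prop :=
  Relation.ReflTransGen (fun M M' => Step F M M' ∧ size M' ≤ s)

theorem size_insert_le (C : Clause V) (M : Finset (Clause V)) :
    size (insert C M) ≤ C.card + size M := by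
  unfold size
  by_cases h : C ∈ M
  · rw [insert_eq_of_mem h]; omega
  · rw [sum_insert h]

theorem size_mono {M M' : Finset (Clause V)} (h : M ⊆ M') : size M ≤ size M' :=
  sum_le_sum_of_subset h

theorem size_union_le (M M' : Finset (Clause V)) : size (M ∪ M') ≤ size M + size M' := by
  unfold size
  rw [← sum_union_inter]
  exact Nat.le_add_right _ _

theorem size_image_le {ι : Type} [DecidableEq ι] (J : Finset ι) (f : ι → Clause V) (k : ℕ)
    (hf : ∀ j, (f j).card ≤ k) : size (J.image f) ≤ J.card * k := by
  unfold size
  calc ∑ C ∈ J.image f, C.card ≤ ∑ j ∈ J, (f j).card := by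
        have := Finset.sum_image_le_of_nonneg (s := J) (g := f) (f := fun C : Clause V => C.card)
        exact this (fun _ _ => Nat.zero_le _)
    _ ≤ ∑ _j ∈ J, k := sum_le_sum fun j _ => hf j
    _ = J.card * k := by rw [sum_const, smul_eq_mul]

theorem reach_axiom {F : Finset (Clause V)} {s : ℕ} {C : Clause V} (hC : C ∈ F)
    {M : Finset (Clause V)} (h : size (insert C M) ≤ s) : Reach F s M (insert C M) :=
  Relation.ReflTransGen.single ⟨Or.inl ⟨C, hC, rfl⟩, h⟩

theorem reach_res {F : Finset (Clause V)} {s : ℕ} {A B : Clause V}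
    {M : Finset (Clause V)} (hA : A ∈ M) (hB : B ∈ M) {v : V} (hvA : (v, true) ∈ A)
    (hvB : (v, false) ∈ B)
    (h : size (insert (A.erase (v, true) ∪ B.erase (v, false)) M) ≤ s) :
    Reach F s M (insert (A.erase (v, true) ∪ B.erase (v, false)) M) :=
  Relation.ReflTransGen.single ⟨Or.inr (Or.inl ⟨A, hA, B, hB, v, hvA, hvB, rfl⟩), h⟩

theorem reach_del {F : Finset (Clause V)} {s : ℕ} {M M' : Finset (Clause V)} (h : M' ⊆ M)
    (hs : size M' ≤ s) : Reach F s M M' :=
  Relation.ReflTransGen.single ⟨Or.inr (Or.inr h), hs⟩

theorem reach_seq {F : Finset (Clause V)} {s : ℕ} {M0 M1 : Finset (Clause V)}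
    (h : Reach F s M0 M1) (h0 : size M0 ≤ s) :
    ∃ τ : ℕ, ∃ M : ℕ → Finset (Clause V), M 0 = M0 ∧ M τ = M1 ∧
      (∀ t < τ, Step F (M t) (M (t + 1))) ∧ ∀ t ≤ τ, size (M t) ≤ s := by
  induction h with
  | refl => exact ⟨0, fun _ => M0, rfl, rfl, by simp, fun _ _ => h0⟩
  | @tail b c _ hbc ih =>
    obtain ⟨τ, M, h1, h2, h3, h4⟩ := ih
    refine ⟨τ + 1, fun t => if t ≤ τ then M t else c, ?_, ?_, ?_, ?_⟩
    · simp [h1]
    · simp
    · intro t ht
      by_cases htτ : t < τ
      · simp only [htτ.le, if_true, Nat.succ_le_of_lt htτ]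
        exact h3 t htτ
      · have : t = τ := by omega
        subst this
        simp only [le_refl, if_true, Nat.not_succ_le_self, if_false]
        rw [h2]
        exact hbc.1
    · intro t ht
      by_cases htτ : t ≤ τ
      · simp only [htτ, if_true]; exact h4 t htτ
      · simp only [htτ, if_false]; exact hbc.2

variable {k : ℕ}

/-- The negative prefix clause. -/
def pre (B : ℕ → Fin k → Fin k → V) (t : ℕ) (g : Fin k → Fin k) (i : ℕ) : Clause V :=
  (univ.filter fun j : Fin k => j.val < i).image fun j => (B t j (g j), false)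

/-- The tail of a tribe. -/
def tail (B : ℕ → Fin k → Fin k → V) (t : ℕ) (j : Fin k) (m : ℕ) : Clause V :=
  (univ.filter fun x : Fin k => m ≤ x.val).image fun x => (B t j x, true)

theorem pre_full (B : ℕ → Fin k → Fin k → V) (t : ℕ) (g : Fin k → Fin k) :
    pre B t g k = ng B t g := by
  unfold pre ng
  congr 1
  rw [filter_eq_self]
  exact fun j _ => j.2

theorem card_pre_le (B : ℕ → Fin k → Fin k → V) (t : ℕ) (g : Fin k → Fin k) (i : ℕ) :
    (pre B t g i).card ≤ k := by
  calc _ ≤ (univ.filter fun j : Fin k => j.val < i).card := card_image_le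
    _ ≤ (univ : Finset (Fin k)).card := card_filter_le _ _
    _ = k := by simp

theorem card_tail_le (B : ℕ → Fin k → Fin k → V) (t : ℕ) (j : Fin k) (m : ℕ) :
    (tail B t j m).card ≤ k := by
  calc _ ≤ (univ.filter fun x : Fin k => m ≤ x.val).card := card_image_le
    _ ≤ (univ : Finset (Fin k)).card := card_filter_le _ _
    _ = k := by simp

theorem card_tr_le (B : ℕ → Fin k → Fin k → V) (t : ℕ) (j : Fin k) :
    (tr B t j).card ≤ k := by
  calc _ ≤ (univ : Finset (Fin k)).card := card_image_le
    _ = k := by simp

theorem tail_zero (B : ℕ → Fin k → Fin k → V) (t : ℕ) (j : Fin k) :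
    tail B t j 0 = tr B t j := by
  unfold tail tr
  congr 1
  rw [filter_eq_self]
  exact fun j _ => Nat.zero_le _

theorem tail_full (B : ℕ → Fin k → Fin k → V) (t : ℕ) (j : Fin k) :
    tail B t j k = ∅ := by
  unfold tail
  rw [image_eq_empty, filter_eq_empty_iff]
  intro x _
  have := x.2
  omega

/-- The computation of the resolvent. -/
theorem resolvent_eq {B : ℕ → Fin k → Fin k → V}
    (tag : ∀ t t' j j' i i', B t j i = B t' j' i' → j = j' ∧ i = i') (t : ℕ)
    {C : Clause V} (hC : ∀ l ∈ C, l.2 = true) (g : Fin k → Fin k) (i m : Fin k) {E : Clause V}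
    (h1 : tail B t i m.val ⊆ E) (h2 : E ⊆ tail B t i m.val ∪ (pre B t g i.val ∪ C)) :
    E.erase (B t i m, true) ∪
      (pre B t (Function.update g i m) (i.val + 1) ∪ C).erase (B t i m, false) =
      tail B t i (m.val + 1) ∪ (pre B t g i.val ∪ C) := by
  have hpre : (pre B t (Function.update g i m) (i.val + 1) ∪ C).erase (B t i m, false) =
      pre B t g i.val ∪ C := by
    ext l
    simp only [mem_erase, mem_union, pre, mem_image, mem_filter, mem_univ, true_and]
    constructor
    · rintro ⟨hl, ⟨j, hj, rfl⟩ | hl'⟩
      · by_cases hji : j = i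
        · subst hji
          simp at hl
        · left
          refine ⟨j, ?_, ?_⟩
          · have : j.val ≠ i.val := fun h => hji (Fin.ext h)
            omega
          · rw [Function.update_of_ne hji]
      · exact Or.inr hl'
    · rintro (⟨j, hj, rfl⟩ | hl')
      · have hji : j ≠ i := by
          intro h; rw [h] at hj; omega
        refine ⟨?_, Or.inl ⟨j, by omega, ?_⟩⟩
        · intro h
          have := (tag _ _ _ _ _ _ (Prod.ext_iff.1 h).1).1
          exact hji this
        · rw [Function.update_of_ne hji]
      · refine ⟨?_, Or.inr hl'⟩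
        intro h
        have := hC l hl'
        rw [h] at this
        simp at this
  rw [hpre]
  apply Finset.Subset.antisymm
  · apply union_subset _ subset_union_right
    intro l hl
    obtain ⟨hl1, hl2⟩ := mem_erase.1 hl
    rcases mem_union.1 (h2 hl2) with h | h
    · obtain ⟨x, hx, rfl⟩ := mem_image.1 h
      apply mem_union_left
      refine mem_image.2 ⟨x, mem_filter.2 ⟨mem_univ _, ?_⟩, rfl⟩
      have hxm := (mem_filter.1 hx).2
      have : x ≠ m := fun h => hl1 (by rw [h])
      have : x.val ≠ m.val := fun h => this (Fin.ext h)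
      omega
    · exact mem_union_right _ h
  · apply union_subset_union _ subset_rfl
    intro l hl
    obtain ⟨x, hx, rfl⟩ := mem_image.1 hl
    have hxm := (mem_filter.1 hx).2
    refine mem_erase.2 ⟨?_, h1 (mem_image.2 ⟨x, mem_filter.2 ⟨mem_univ _, by omega⟩, rfl⟩)⟩
    intro h
    have := (tag _ _ _ _ _ _ (Prod.ext_iff.1 h).1).2
    rw [this] at hxm
    omega

/-- Deriving `C` from all tribes of time `t`. -/
theorem derive {B : ℕ → Fin k → Fin k → V} (hk : 0 < k)
    (tag : ∀ t t' j j' i i', B t j i = B t' j' i' → j = j' ∧ i = i') {F : Finset (Clause V)}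
    (t : ℕ) {C : Clause V} (hC : ∀ l ∈ C, l.2 = true) (hCk : C.card ≤ k)
    (hF : ∀ g, ng B t g ∪ C ∈ F) :
    ∀ n ≤ k, ∀ (g : Fin k → Fin k) (K : Finset (Clause V)) (s : ℕ), (∀ j, tr B t j ∈ K) →
      size K + 4 * k * (n + 2) ≤ s → Reach F s K (insert (pre B t g (k - n) ∪ C) K) := by
  intro n
  induction n with
  | zero =>
    intro _ g K s hK hs
    rw [Nat.sub_zero, pre_full]
    refine reach_axiom (hF g) ((size_insert_le _ _).trans ?_)
    have h1 : (ng B t g ∪ C).card ≤ k + k := by
      refine (card_union_le _ _).trans (Nat.add_le_add ?_ hCk)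
      rw [← pre_full]
      exact card_pre_le _ _ _ _
    nlinarith
  | succ n ih =>
    intro hn g K s hK hs
    set i : Fin k := ⟨k - (n + 1), by omega⟩ with hi
    have hi1 : i.val + 1 = k - n := by simp only [hi]; omega
    have hiv : k - (n + 1) = i.val := rfl
    rw [hiv]
    set D := pre B t g i.val ∪ C with hD
    have hDc : D.card ≤ k + k := (card_union_le _ _).trans (Nat.add_le_add (card_pre_le _ _ _ _) hCk)
    have hEc : ∀ m, (tail B t i m ∪ D).card ≤ 3 * k := by
      intro m
      have := (card_union_le (tail B t i m) D).trans (Nat.add_le_add (card_tail_le _ _ _ _) hDc)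
      omega
    -- one resolution step
    have hstep : ∀ (m : Fin k) (E : Clause V) (K1 : Finset (Clause V)), K ⊆ K1 → E ∈ K1 →
        size K1 ≤ size K + 3 * k → tail B t i m.val ⊆ E → E ⊆ tail B t i m.val ∪ D →
        Reach F s K1 (insert (tail B t i (m.val + 1) ∪ D) K) := by
      intro m E K1 hKK hE hK1 h1 h2
      have r1 : Reach F s K1 (insert (pre B t (Function.update g i m) (k - n) ∪ C) K1) := by
        apply ih (by omega) (Function.update g i m) K1 s (fun j => hKK (hK j))
        nlinarith
      rw [← hi1] at r1
      set D' := pre B t (Function.update g i m) (i.val + 1) ∪ C with hD'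
      have hD'c : D'.card ≤ k + k :=
        (card_union_le _ _).trans (Nat.add_le_add (card_pre_le _ _ _ _) hCk)
      have hres := resolvent_eq tag t hC g i m h1 h2
      have hvE : (B t i m, true) ∈ E :=
        h1 (mem_image.2 ⟨m, mem_filter.2 ⟨mem_univ _, le_rfl⟩, rfl⟩)
      have hvD : (B t i m, false) ∈ D' := by
        apply mem_union_left
        refine mem_image.2 ⟨i, mem_filter.2 ⟨mem_univ _, by omega⟩, ?_⟩
        simp
      have hsz : size (insert (tail B t i (m.val + 1) ∪ D) (insert D' K1)) ≤ s := by
        have a1 := size_insert_le (tail B t i (m.val + 1) ∪ D) (insert D' K1)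
        have a2 := size_insert_le D' K1
        have a3 := hEc (m.val + 1)
        nlinarith
      have r2 : Reach F s (insert D' K1)
          (insert (tail B t i (m.val + 1) ∪ D) (insert D' K1)) := by
        have := reach_res (F := F) (s := s) (A := E) (B := D') (M := insert D' K1)
          (mem_insert_of_mem hE) (mem_insert_self _ _) hvE hvD
          (by rw [hres]; exact hsz)
        rw [hres] at this
        exact this
      have r3 : Reach F s (insert (tail B t i (m.val + 1) ∪ D) (insert D' K1))
          (insert (tail B t i (m.val + 1) ∪ D) K) := by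
        apply reach_del
        · exact insert_subset_insert _ (hKK.trans (subset_insert _ _))
        · have a1 := size_insert_le (tail B t i (m.val + 1) ∪ D) K
          have a3 := hEc (m.val + 1)
          nlinarith
      exact r1.trans (r2.trans r3)
    have hall : ∀ m, 1 ≤ m → m ≤ k → Reach F s K (insert (tail B t i m ∪ D) K) := by
      intro m hm
      induction m, hm using Nat.le_induction with
      | base =>
        intro _
        have := hstep ⟨0, hk⟩ (tr B t i) K subset_rfl (hK i) (by omega)
          (by rw [← tail_zero]) (by rw [← tail_zero]; exact subset_union_left)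
        simpa using this
      | succ m hm ihm =>
        intro hmk
        have r1 := ihm (by omega)
        have r2 := hstep ⟨m, by omega⟩ (tail B t i m ∪ D) (insert (tail B t i m ∪ D) K)
          (subset_insert _ _) (mem_insert_self _ _)
          (by
            have := size_insert_le (tail B t i m ∪ D) K
            have a3 := hEc m
            omega)
          subset_union_left subset_rfl
        exact r1.trans r2
    have := hall k (by omega) le_rfl
    rw [tail_full, empty_union] at this
    exact this

theorem derive_full {B : ℕ → Fin k → Fin k → V} (hk : 0 < k)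
    (tag : ∀ t t' j j' i i', B t j i = B t' j' i' → j = j' ∧ i = i') {F : Finset (Clause V)}
    (t : ℕ) {C : Clause V} (hC : ∀ l ∈ C, l.2 = true) (hCk : C.card ≤ k)
    (hF : ∀ g, ng B t g ∪ C ∈ F) (K : Finset (Clause V)) (s : ℕ) (hK : ∀ j, tr B t j ∈ K)
    (hs : size K + 4 * k * (k + 2) ≤ s) : Reach F s K (insert C K) := by
  have := derive hk tag t hC hCk hF k le_rfl id K s hK hs
  have h0 : pre B t id (k - k) = ∅ := by
    unfold pre
    rw [image_eq_empty, filter_eq_empty_iff]
    intro x _
    omega
  rw [h0, empty_union] at this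
  exact this

/-- The chain of tribes has a refutation of total space `O(k ^ 2)`. -/
theorem chain_space {B : ℕ → Fin k → Fin k → V} (hk : 0 < k)
    (tag : ∀ t t' j j' i i', B t j i = B t' j' i' → j = j' ∧ i = i') (T : ℕ) :
    SpaceAtMost (chainCNF B T) (6 * k * k + 8 * k) := by
  set F := chainCNF B T with hF
  set s := 6 * k * k + 8 * k with hs
  have htr : ∀ t j, ∀ l ∈ tr B t j, l.2 = true := by
    intro t j l hl
    obtain ⟨i, -, rfl⟩ := mem_image.1 hl
    rfl
  have hsz : ∀ (J : Finset (Fin k)) t, size (J.image (tr B t)) ≤ k * k := by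
    intro J t
    refine (size_image_le J (tr B t) k (fun j => card_tr_le B t j)).trans ?_
    gcongr
    calc J.card ≤ (univ : Finset (Fin k)).card := card_le_univ J
      _ = k := by simp
  -- reach the tribes of time `0`
  have r0 : ∀ J : Finset (Fin k), Reach F s ∅ (J.image (tr B 0)) := by
    intro J
    induction J using Finset.induction_on with
    | empty => exact Relation.ReflTransGen.refl
    | insert x J hx ih =>
      rw [image_insert]
      refine ih.trans (reach_axiom (mem_chainCNF.2 (Or.inl ⟨x, rfl⟩)) ?_)
      rw [← image_insert]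
      have := hsz (insert x J) 0
      nlinarith
  have r1 : ∀ t < T, Reach F s (univ.image (tr B t)) (univ.image (tr B (t + 1))) := by
    intro t ht
    have h1 : ∀ J : Finset (Fin k), Reach F s (univ.image (tr B t))
        (univ.image (tr B t) ∪ J.image (tr B (t + 1))) := by
      intro J
      induction J using Finset.induction_on with
      | empty => rw [image_empty, union_empty]; exact Relation.ReflTransGen.refl
      | insert x J hx ih =>
        rw [image_insert, union_insert]
        refine ih.trans (derive_full hk tag t (htr (t + 1) x) (card_tr_le _ _ _)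
          (fun g => mem_chainCNF.2 (Or.inr (Or.inl ⟨t, ht, g, x, rfl⟩))) _ s
          (fun j => mem_union_left _ (mem_image_of_mem _ (mem_univ j))) ?_)
        have a1 := size_union_le (univ.image (tr B t)) (J.image (tr B (t + 1)))
        have a2 := hsz univ t
        have a3 := hsz J (t + 1)
        nlinarith
    refine (h1 univ).trans (reach_del subset_union_right ?_)
    have a2 := hsz univ (t + 1)
    nlinarith
  have r2 : ∀ t ≤ T, Reach F s ∅ (univ.image (tr B t)) := by
    intro t
    induction t with
    | zero => exact fun _ => r0 univ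
    | succ t ih => exact fun ht => (ih (by omega)).trans (r1 t (by omega))
  have r3 : Reach F s ∅ (insert ∅ (univ.image (tr B T))) := by
    refine (r2 T le_rfl).trans (derive_full hk tag T (C := ∅) (by simp) (by simp)
      (fun g => by
        rw [union_empty]
        exact mem_chainCNF.2 (Or.inr (Or.inr ⟨g, rfl⟩))) _ s
      (fun j => mem_image_of_mem _ (mem_univ j)) ?_)
    have a2 := hsz univ T
    nlinarith
  obtain ⟨τ, M, m1, m2, m3, m4⟩ := reach_seq r3 (by simp [size])
  exact ⟨τ, M, m1, by rw [m2]; exact mem_insert_self _ _, m3, m4⟩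

end

end Pool.Agent.Lib.Pad9061
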