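import Pool.Agent.Lib.Pad9061.Expander
import Pool.Agent.Lib.Pad9061.Space
import Pool.Agent.Lib.Pad9061.Lower

set_option autoImplicit false

/-!
# A polynomial gap between total space and depth
-/

namespace Pool.Agent.Lib.Pad9061

open Finset

/-- A space-aware refutation yields a DAG refutation. -/
theorem depth_of_space {V : Type} [DecidableEq V] {F : Finset (Clause V)} {s : ℕ}
    (h : SpaceAtMost F s) : ∃ d, DepthAtMost F d := by
  classical
  obtain ⟨τ, M, h0, h1, h2, -⟩ := h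
  refine ⟨τ, fun C => sInf {t | C ∈ M t}, {C | ∃ t ≤ τ, C ∈ M t}, ⟨τ, le_rfl, h1⟩, ?_⟩
  rintro C ⟨t, ht, hC⟩
  have hle : sInf {t | C ∈ M t} ≤ t := Nat.sInf_le hC
  refine ⟨hle.trans ht, ?_⟩
  have hmem : C ∈ M (sInf {t | C ∈ M t}) := Nat.sInf_mem (s := {t | C ∈ M t}) ⟨t, hC⟩
  show C ∈ F ∨ ∃ A ∈ {C | ∃ t ≤ τ, C ∈ M t}, ∃ B ∈ {C | ∃ t ≤ τ, C ∈ M t}, ∃ v : V,
    (v, true) ∈ A ∧ (v, false) ∈ B ∧ C = A.erase (v, true) ∪ B.erase (v, false) ∧
      sInf {t | A ∈ M t} < sInf {t | C ∈ M t} ∧ sInf {t | B ∈ M t} < sInf {t | C ∈ M t}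
  obtain ⟨m, hm⟩ : ∃ m, m = sInf {t | C ∈ M t} := ⟨_, rfl⟩
  rw [← hm] at hle hmem ⊢
  cases m with
  | zero => rw [h0] at hmem; simp at hmem
  | succ m =>
    have hnot : C ∉ M m := by
      intro h
      have : sInf {t | C ∈ M t} ≤ m := Nat.sInf_le h
      omega
    rcases h2 m (by omega) with ⟨A, hA, hM⟩ | ⟨A, hA, B, hB, v, hvA, hvB, hM⟩ | hM
    · left
      rw [hM] at hmem
      rcases mem_insert.1 hmem with h | h
      · rw [h]; exact hA
      · exact absurd h hnot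
    · right
      rw [hM] at hmem
      rcases mem_insert.1 hmem with h | h
      · refine ⟨A, ⟨m, by omega, hA⟩, B, ⟨m, by omega, hB⟩, v, hvA, hvB, h, ?_, ?_⟩
        · have : sInf {t | A ∈ M t} ≤ m := Nat.sInf_le hA
          omega
        · have : sInf {t | B ∈ M t} ≤ m := Nat.sInf_le hB
          omega
      · exact absurd h hnot
    · exact absurd (hM hmem) hnot

/-- The formulas. -/
theorem exists_formula {κ n : ℕ} (hκ : 4 ≤ κ) (hn : 16384 * κ ^ 18 ≤ n) :
    ∃ F : Finset (Clause (Fin n)), SpaceAtMost F (28 * κ ^ 2) ∧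
      ∀ d, DepthAtMost F d → κ ^ 3 < 4 * d := by
  classical
  obtain ⟨b, hb⟩ := exists_expander hκ
  have hcard : Fintype.card (Fin (2 * κ) × Fin (2 * κ) × Fin (4096 * κ ^ 16)) ≤
      Fintype.card (Fin n) := by
    simp only [Fintype.card_prod, Fintype.card_fin]
    calc 2 * κ * (2 * κ * (4096 * κ ^ 16)) = 16384 * κ ^ 18 := by ring
      _ ≤ n := hn
  obtain ⟨e⟩ := Function.Embedding.nonempty_of_card_le hcard
  obtain ⟨T, hT⟩ : ∃ T, T = 2 ^ κ := ⟨_, rfl⟩
  set B : ℕ → Fin (2 * κ) → Fin (2 * κ) → Fin n := fun t j i =>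
    e (j, i, b (⟨min t (2 ^ κ), by omega⟩, j, i)) with hB
  have tag : ∀ t t' j j' i i', B t j i = B t' j' i' → j = j' ∧ i = i' := by
    intro t t' j j' i i' h
    have := e.injective h
    simp only [Prod.mk.injEq] at this
    exact ⟨this.1, this.2.1⟩
  have hE : Expands B T κ (κ ^ 3) := by
    intro I hIT hI0 hIN hIt
    set φ : ℕ × Fin (2 * κ) × Fin (2 * κ) → Fin (2 ^ κ + 1) × Fin (2 * κ) × Fin (2 * κ) :=
      fun x => (⟨min x.1 (2 ^ κ), by omega⟩, x.2) with hφ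
    have hinj : Set.InjOn φ I := by
      intro x hx y hy hxy
      have hx' := hIT x hx
      have hy' := hIT y hy
      simp only [hφ, Prod.mk.injEq, Fin.mk.injEq] at hxy
      obtain ⟨h1, h2⟩ := hxy
      refine Prod.ext ?_ h2
      omega
    have hc : (I.image φ).card = I.card := card_image_of_injOn hinj
    have h1 := hb (I.image φ) (hI0.image _) (by rw [hc]; exact hIN) (by
      rw [hc]
      refine le_trans ?_ hIt
      gcongr
      have : (I.image φ).image Prod.fst =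
          (I.image Prod.fst).image (fun t => (⟨min t (2 ^ κ), by omega⟩ : Fin (2 ^ κ + 1))) := by
        rw [image_image, image_image]
        rfl
      rw [this]
      exact card_image_le)
    rw [hc] at h1
    refine lt_of_lt_of_le h1 ?_
    gcongr
    -- values of `b` are determined by values of `B`
    have hsub : (I.image φ).image b ⊆
        ((I.image fun x => B x.1 x.2.1 x.2.2).image
          (fun v => (if h : ∃ y, e y = v then (Classical.choose h).2.2 else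
            b (⟨0, by omega⟩, ⟨0, by omega⟩, ⟨0, by omega⟩)))) := by
      intro w hw
      simp only [mem_image] at hw ⊢
      obtain ⟨y, ⟨x, hx, rfl⟩, rfl⟩ := hw
      refine ⟨B x.1 x.2.1 x.2.2, ⟨x, hx, rfl⟩, ?_⟩
      have hex : ∃ y, e y = B x.1 x.2.1 x.2.2 := ⟨_, rfl⟩
      rw [dif_pos hex]
      have := e.injective (Classical.choose_spec hex)
      rw [this]
    exact (card_le_card hsub).trans card_image_le
  refine ⟨chainCNF B T, ?_, ?_⟩
  · obtain ⟨τ, M, m1, m2, m3, m4⟩ := chain_space (B := B) (by omega) tag T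
    refine ⟨τ, M, m1, m2, m3, fun t ht => (m4 t ht).trans ?_⟩
    nlinarith
  · intro d hd
    have h2 : 2 * κ ≤ κ ^ 3 := by nlinarith [Nat.mul_le_mul hκ hκ]
    have := chain_depth (q := κ ^ 3 / 4) (L := κ) tag hE (by omega) h2
      (by omega) le_rfl (by nlinarith [Nat.mul_le_mul hκ hκ]) (by
        have := Nat.div_mul_le_self (κ ^ 3) 4
        nlinarith) (by
        have h3 := Nat.div_mul_le_self (κ ^ 3) 4
        have h4 : 2 * κ ≤ κ ^ 3 := h2
        omega) hT.ge d hd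
    omega

/-- The asymptotic form. -/
theorem gap_family :
    ∃ F : (n : ℕ) → Finset (Clause (Fin n)), ∃ D : ℕ → ℕ,
      (∀ n, IsLeast {d | DepthAtMost (F n) d} (D n)) ∧
      (∀ᶠ n : ℕ in Filter.atTop, (n : ℝ) ^ (1 / 6 : ℝ) ≤ 200 * (D n : ℝ)) ∧
      (∀ k : ℕ, Filter.Tendsto (fun n : ℕ => (D n : ℝ) / Real.log (n : ℝ) ^ k)
        Filter.atTop Filter.atTop) ∧
      ∀ᶠ n : ℕ in Filter.atTop, ∃ s : ℕ, SpaceAtMost (F n) s ∧ (s : ℝ) ≤ 112 * (D n : ℝ) ^ (2 / 3 : ℝ) := by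
  classical
  -- the parameter
  obtain ⟨κ, hκ⟩ : ∃ κ : ℕ → ℕ, κ = fun n : ℕ => ⌊((n : ℝ) / 16384) ^ (1 / 18 : ℝ)⌋₊ := ⟨_, rfl⟩
  have hκn : ∀ n, 16384 * κ n ^ 18 ≤ n := by
    intro n
    have h1 : (κ n : ℝ) ≤ ((n : ℝ) / 16384) ^ (1 / 18 : ℝ) := by
      rw [hκ]; exact Nat.floor_le (by positivity)
    have h2 : (κ n : ℝ) ^ 18 ≤ (n : ℝ) / 16384 := by
      calc (κ n : ℝ) ^ 18 ≤ (((n : ℝ) / 16384) ^ (1 / 18 : ℝ)) ^ 18 := by gcongr
        _ = (n : ℝ) / 16384 := by
          rw [← Real.rpow_natCast, ← Real.rpow_mul (by positivity)]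
          norm_num
    have h3 : (16384 : ℝ) * (κ n : ℝ) ^ 18 ≤ n := by linarith
    exact_mod_cast h3
  have hκt : Filter.Tendsto (fun n : ℕ => ((n : ℝ) / 16384) ^ (1 / 18 : ℝ)) Filter.atTop Filter.atTop := by
    apply (tendsto_rpow_atTop (by norm_num)).comp
    exact (tendsto_natCast_atTop_atTop).atTop_div_const (by norm_num)
  have hF : ∀ n, ∃ F : Finset (Clause (Fin n)), (∃ s, SpaceAtMost F s) ∧
      (4 ≤ κ n → SpaceAtMost F (28 * κ n ^ 2) ∧ ∀ d, DepthAtMost F d → κ n ^ 3 < 4 * d) := by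
    intro n
    by_cases h4 : 4 ≤ κ n
    · obtain ⟨F, h1, h2⟩ := exists_formula h4 (hκn n)
      exact ⟨F, ⟨_, h1⟩, fun _ => ⟨h1, h2⟩⟩
    · refine ⟨{∅}, ⟨0, 1, fun t => if t = 0 then ∅ else {∅}, by simp, by simp, ?_, ?_⟩,
        fun h => absurd h h4⟩
      · intro t ht
        have : t = 0 := by omega
        subst this
        exact Or.inl ⟨∅, by simp, by simp⟩
      · intro t ht
        by_cases h : t = 0 <;> simp [h, size]
  choose F hF1 hF2 using hF
  have hD : ∀ n, ∃ D, IsLeast {d | DepthAtMost (F n) d} D := by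
    intro n
    obtain ⟨s, hs⟩ := hF1 n
    exact ⟨_, Nat.isLeast_find (depth_of_space hs)⟩
  choose D hD using hD
  have hev : ∀ᶠ n : ℕ in Filter.atTop, 4 ≤ κ n ∧ ((n : ℝ) / 16384) ^ (1 / 18 : ℝ) ≤ 5 / 4 * (κ n : ℝ) := by
    filter_upwards [hκt.eventually_ge_atTop 5] with n hn
    have h1 : ((n : ℝ) / 16384) ^ (1 / 18 : ℝ) < κ n + 1 := by
      rw [hκ]; exact Nat.lt_floor_add_one _
    have h2 : (4 : ℝ) < κ n := by linarith
    have h3 : 4 < κ n := by exact_mod_cast h2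
    exact ⟨h3.le, by linarith⟩
  have hDκ : ∀ n, 4 ≤ κ n → (κ n : ℝ) ^ 3 ≤ 4 * (D n : ℝ) := by
    intro n hn
    have := (hF2 n hn).2 (D n) (hD n).1
    exact_mod_cast this.le
  have hlow : ∀ᶠ n : ℕ in Filter.atTop, (n : ℝ) ^ (1 / 6 : ℝ) ≤ 200 * (D n : ℝ) := by
    filter_upwards [hev] with n hn
    have h1 := hDκ n hn.1
    have h2 : (((n : ℝ) / 16384) ^ (1 / 18 : ℝ)) ^ 3 ≤ (5 / 4 * (κ n : ℝ)) ^ 3 := by
      gcongr
      exact hn.2
    have h3 : (((n : ℝ) / 16384) ^ (1 / 18 : ℝ)) ^ 3 = ((n : ℝ) / 16384) ^ (1 / 6 : ℝ) := by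
      rw [← Real.rpow_natCast, ← Real.rpow_mul (by positivity)]
      norm_num
    rw [h3, Real.div_rpow (by positivity) (by positivity)] at h2
    have h4 : (16384 : ℝ) ^ (1 / 6 : ℝ) ≤ 6 := by
      calc (16384 : ℝ) ^ (1 / 6 : ℝ) ≤ (6 ^ 6 : ℝ) ^ (1 / 6 : ℝ) := by
            apply Real.rpow_le_rpow (by norm_num) (by norm_num) (by norm_num)
        _ = 6 := by
          rw [← Real.rpow_natCast, ← Real.rpow_mul (by norm_num)]
          norm_num
    have h5 : (0 : ℝ) < (16384 : ℝ) ^ (1 / 6 : ℝ) := by positivity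
    rw [div_le_iff₀ h5] at h2
    have h6 : (0 : ℝ) ≤ (κ n : ℝ) ^ 3 := by positivity
    calc (n : ℝ) ^ (1 / 6 : ℝ) ≤ (5 / 4 * (κ n : ℝ)) ^ 3 * (16384 : ℝ) ^ (1 / 6 : ℝ) := h2
      _ ≤ (5 / 4 * (κ n : ℝ)) ^ 3 * 6 := by gcongr
      _ ≤ 200 * (D n : ℝ) := by nlinarith
  refine ⟨F, D, hD, hlow, ?_, ?_⟩
  · intro k
    have h1 : Filter.Tendsto (fun n : ℕ => (n : ℝ) ^ (1 / 6 : ℝ) / Real.log (n : ℝ) ^ k)
        Filter.atTop Filter.atTop := by
      have h2 : Filter.Tendsto (fun x : ℝ => Real.log x ^ k / x ^ (1 / 6 : ℝ)) Filter.atTop (nhds 0) := by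
        have := isLittleO_log_rpow_rpow_atTop (k : ℝ) (show (0 : ℝ) < 1 / 6 by norm_num)
        have := this.tendsto_div_nhds_zero
        simpa only [Real.rpow_natCast] using this
      have h3 := h2.comp tendsto_natCast_atTop_atTop (α := ℕ)
      have h4 : Filter.Tendsto (fun n : ℕ => Real.log (n : ℝ) ^ k / (n : ℝ) ^ (1 / 6 : ℝ))
          Filter.atTop (nhdsWithin 0 (Set.Ioi 0)) := by
        rw [tendsto_nhdsWithin_iff]
        refine ⟨h3, ?_⟩
        filter_upwards [Filter.eventually_gt_atTop 1] with n hn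
        have hn' : (1 : ℝ) < n := by exact_mod_cast hn
        have := Real.log_pos hn'
        simp only [Set.mem_Ioi]
        positivity
      have h5 := h4.inv_tendsto_nhdsGT_zero
      refine h5.congr fun n => ?_
      simp only [Pi.inv_apply, inv_div]
    have h6 : Filter.Tendsto (fun n : ℕ => (n : ℝ) ^ (1 / 6 : ℝ) / Real.log (n : ℝ) ^ k / 200)
        Filter.atTop Filter.atTop := h1.atTop_div_const (by norm_num)
    refine Filter.tendsto_atTop_mono' _ ?_ h6
    filter_upwards [hlow, Filter.eventually_gt_atTop 1] with n hn hn1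
    have hn' : (1 : ℝ) < n := by exact_mod_cast hn1
    have hlog := Real.log_pos hn'
    rw [div_div, div_le_div_iff₀ (by positivity) (by positivity)]
    have h7 : (0 : ℝ) < Real.log (n : ℝ) ^ k := by positivity
    nlinarith
  · filter_upwards [hev] with n hn
    refine ⟨28 * κ n ^ 2, (hF2 n hn.1).1, ?_⟩
    have h1 := hDκ n hn.1
    have h2 : (κ n : ℝ) ^ 2 ≤ 4 * (D n : ℝ) ^ (2 / 3 : ℝ) := by
      calc (κ n : ℝ) ^ 2 = ((κ n : ℝ) ^ 3) ^ (2 / 3 : ℝ) := by
            rw [← Real.rpow_natCast, ← Real.rpow_natCast, ← Real.rpow_mul (by positivity)]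
            norm_num
        _ ≤ (8 * (D n : ℝ)) ^ (2 / 3 : ℝ) := by
          apply Real.rpow_le_rpow (by positivity) _ (by norm_num)
          have : (0 : ℝ) ≤ (D n : ℝ) := by positivity
          linarith
        _ = 4 * (D n : ℝ) ^ (2 / 3 : ℝ) := by
          rw [Real.mul_rpow (by norm_num) (by positivity)]
          congr 1
          have : (8 : ℝ) = 2 ^ 3 := by norm_num
          rw [this, ← Real.rpow_natCast, ← Real.rpow_mul (by norm_num)]
          norm_num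
    push_cast
    linarith

end Pool.Agent.Lib.Pad9061
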