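import Pool.Agent.Lib.Pad9061.Nested

set_option autoImplicit false

/-!
# Configurations that are small outside one clause
-/

namespace Pool.Agent.Lib.Pad9061

open Finset

section

variable (V : Type) [DecidableEq V] (m : ℕ)

/-- Items: a small set of clauses together with at most one literal. The item is false if the
clauses and the literal are true. -/
def oneSys : Sys V (Finset (Clause V) × Option (V × Bool)) where
  wt := fun _ => 1
  T := fun ρ x => (∃ C ∈ x.1, KF ρ C) ∨ ∃ l, x.2 = some l ∧ ρ l.1 = some (!l.2)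
  F := fun ρ x => (∀ C ∈ x.1, KT ρ C) ∧ ∀ l, x.2 = some l → ρ l.1 = some l.2
  T_mono := by
    intro ρ ρ' x h hx
    rcases hx with ⟨C, hC, hK⟩ | ⟨l, hl, hl'⟩
    · exact Or.inl ⟨C, hC, hK.mono h⟩
    · exact Or.inr ⟨l, hl, h _ _ hl'⟩
  F_mono := by
    intro ρ ρ' x h hx
    exact ⟨fun C hC => (hx.1 C hC).mono h, fun l hl => h _ _ (hx.2 l hl)⟩
  excl := by
    intro ρ x hT hF
    rcases hT with ⟨C, hC, hK⟩ | ⟨l, hl, hl'⟩
    · exact KT_KF (hF.1 C hC) hK
    · have := hF.2 l hl
      rw [this] at hl'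
      simp at hl'
  e0 := m
  Ev := fun Y => ∃ R, size R ≤ m ∧ ∀ x ∈ Y, x.1 = R
  Ev_sub := by
    rintro Y Y' h ⟨R, hR, hY⟩
    exact ⟨R, hR, fun x hx => hY x (h hx)⟩
  eval := by
    rintro Y ⟨R, hR, hY⟩ ρ
    set Q1 : Finset V := R.biUnion fun C => C.image Prod.fst with hQ1
    set Q2 : Finset V := Y.biUnion fun x => (x.2.toFinset).image Prod.fst with hQ2
    have hc1 : Q1.card ≤ m :=
      (card_biUnion_le.trans (sum_le_sum fun C _ => card_image_le)).trans hR
    have hc2 : Q2.card ≤ ∑ x ∈ Y, 1 := by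
      refine card_biUnion_le.trans (sum_le_sum fun x _ => card_image_le.trans ?_)
      cases x.2 <;> simp
    have hc : (Q1 ∪ Q2).card ≤ m + sz (fun _ => 1) Y :=
      (card_union_le _ _).trans (Nat.add_le_add hc1 hc2)
    refine ((solve_query_set (Q1 ∪ Q2) ρ).mono hc).weaken fun ρ' _ h => ?_
    intro x hx
    have hxR := hY x hx
    by_cases hex : ∃ C ∈ R, KF ρ' C
    · left; left
      rw [hxR]
      exact hex
    · push Not at hex
      have hall : ∀ C ∈ R, KT ρ' C := by
        intro C hC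
        have h1 := hex C hC
        unfold KF at h1
        push Not at h1
        obtain ⟨l, hl, hl'⟩ := h1
        refine ⟨l, hl, ?_⟩
        have h2 := h l.1 (mem_union_left _ (mem_biUnion.2 ⟨C, hC, mem_image_of_mem _ hl⟩))
        obtain ⟨b, hb⟩ := Option.ne_none_iff_exists'.1 h2
        rw [hb] at hl' ⊢
        congr 1
        cases h3 : l.2 <;> cases b <;> simp_all
      cases hx2 : x.2 with
      | none =>
        right
        refine ⟨by rw [hxR]; exact hall, ?_⟩
        intro l hl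
        simp at hl
      | some l =>
        have h2 := h l.1 (mem_union_right _ (mem_biUnion.2 ⟨x, hx, by
          rw [hx2]
          exact mem_image_of_mem _ (by simp)⟩))
        obtain ⟨b, hb⟩ := Option.ne_none_iff_exists'.1 h2
        by_cases hbl : b = l.2
        · right
          refine ⟨by rw [hxR]; exact hall, ?_⟩
          intro l' hl'
          obtain rfl := Option.some.inj hl'
          rw [hb, hbl]
        · left; right
          refine ⟨l, rfl, ?_⟩
          rw [hb]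
          congr 1
          cases h3 : l.2 <;> cases b <;> simp_all

variable {V}

/-- The set of items of a configuration with a distinguished clause. -/
def itemsOf (M : Finset (Clause V)) (C : Clause V) : Finset (Finset (Clause V) × Option (V × Bool)) :=
  if C ∈ M then C.image (fun l => (M.erase C, some l)) else {(M.erase C, none)}

variable {m}

theorem itemsOf_AllT {M : Finset (Clause V)} {C : Clause V} {ρ : PA V}
    (h : (oneSys V m).AllT ρ (itemsOf M C)) : ∃ C' ∈ M, KF ρ C' := by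
  unfold itemsOf at h
  split_ifs at h with hC
  · by_cases hex : ∃ C' ∈ M.erase C, KF ρ C'
    · obtain ⟨C', hC', hK⟩ := hex
      exact ⟨C', mem_of_mem_erase hC', hK⟩
    · refine ⟨C, hC, ?_⟩
      intro l hl
      have h1 := h (M.erase C, some l) (mem_image_of_mem _ hl)
      rcases h1 with h1 | ⟨l', hl', h2⟩
      · exact absurd h1 hex
      · obtain rfl := Option.some.inj hl'
        exact h2
  · have h1 := h (M.erase C, none) (mem_singleton_self _)
    rcases h1 with ⟨C', hC', hK⟩ | ⟨l', hl', h2⟩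
    · exact ⟨C', mem_of_mem_erase hC', hK⟩
    · simp at hl'

theorem itemsOf_SomeF {M : Finset (Clause V)} {C : Clause V} {ρ : PA V}
    (h : (oneSys V m).SomeF ρ (itemsOf M C)) : ∀ C' ∈ M, KT ρ C' := by
  unfold itemsOf at h
  obtain ⟨x, hx, hF⟩ := h
  split_ifs at hx with hC
  · obtain ⟨l, hl, rfl⟩ := mem_image.1 hx
    intro C' hC'
    by_cases hCC : C' = C
    · subst hCC
      exact ⟨l, hl, hF.2 l rfl⟩
    · exact hF.1 C' (mem_erase.2 ⟨hCC, hC'⟩)
  · rw [mem_singleton] at hx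
    subst hx
    intro C' hC'
    refine hF.1 C' (mem_erase.2 ⟨?_, hC'⟩)
    rintro rfl
    exact hC hC'

theorem itemsOf_Ev {M : Finset (Clause V)} {C : Clause V} (h : size (M.erase C) ≤ m) :
    (oneSys V m).Ev (itemsOf M C) := by
  refine ⟨M.erase C, h, ?_⟩
  intro x hx
  unfold itemsOf at hx
  split_ifs at hx with hC
  · obtain ⟨l, hl, rfl⟩ := mem_image.1 hx
    rfl
  · rw [mem_singleton] at hx
    subst hx
    rfl

theorem itemsOf_sz {M : Finset (Clause V)} {C : Clause V} {s : ℕ} (hs : 1 ≤ s) (h : size M ≤ s) :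
    sz (oneSys V m).wt (itemsOf M C) ≤ s := by
  have e : sz (oneSys V m).wt (itemsOf M C) = (itemsOf M C).card := by
    unfold sz
    show ∑ x ∈ itemsOf M C, 1 = _
    rw [card_eq_sum_ones]
  rw [e]
  unfold itemsOf
  split_ifs with hC
  · refine card_image_le.trans (le_trans ?_ h)
    exact single_le_sum (f := fun C : Clause V => C.card) (fun _ _ => Nat.zero_le _) hC
  · simpa using hs

/-- `F` has a space-aware refutation of total space at most `s` whose configurations have size at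
most `m` outside one clause. -/
def SpaceOne {V : Type} [DecidableEq V] (F : Finset (Clause V)) (s m : ℕ) : Prop :=
  ∃ τ : ℕ, ∃ M : ℕ → Finset (Clause V), M 0 = ∅ ∧ (∅ : Clause V) ∈ M τ ∧
    (∀ t < τ, Step F (M t) (M (t + 1))) ∧ ∀ t ≤ τ, size (M t) ≤ s ∧ ∃ C, size ((M t).erase C) ≤ m

/-- The items over `n` variables. -/
noncomputable def itemSet (n m : ℕ) :
    Finset (Finset (Clause (Fin n)) × Option (Fin n × Bool)) :=
  (univ : Finset (Finset (Clause (Fin n)) × Option (Fin n × Bool))).filter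
    (fun x => size x.1 ≤ m)

theorem depth_of_pathCost_one {n s m D : ℕ} (hs : 1 ≤ s)
    (h : PathCost (oneSys (Fin n) m) (itemSet n m) s D) {F : Finset (Clause (Fin n))}
    (hF : SpaceOne F s m) : DepthAtMost F D := by
  obtain ⟨τ, M, h0, h1, h2, h3⟩ := hF
  have h4 : ∀ t, ∃ C : Clause (Fin n), t ≤ τ → size ((M t).erase C) ≤ m := by
    intro t
    by_cases ht : t ≤ τ
    · obtain ⟨C, hC⟩ := (h3 t ht).2
      exact ⟨C, fun _ => hC⟩
    · exact ⟨∅, fun h => absurd h ht⟩
  choose C hC using h4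
  apply depthAtMost_of_solve
  refine (h (fun i => itemsOf (M (τ - i)) (C (τ - i))) τ (fun _ => none) ?_ ?_ ?_).weaken
    fun ρ' _ hb => ?_
  · intro i hi
    refine ⟨itemsOf_Ev (hC _ (by omega)), itemsOf_sz hs (h3 _ (by omega)).1, ?_⟩
    intro x hx
    obtain ⟨R, hR, hx'⟩ := itemsOf_Ev (m := m) (hC (τ - i) (by omega))
    unfold itemSet
    rw [mem_filter, hx' x hx]
    exact ⟨mem_univ _, hR⟩
  · intro x hx
    rw [Nat.sub_zero] at hx
    unfold itemsOf at hx
    split_ifs at hx with hCM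
    · obtain ⟨l, hl, rfl⟩ := mem_image.1 hx
      left
      refine ⟨∅, mem_erase.2 ⟨?_, h1⟩, ?_⟩
      · intro h
        rw [← h] at hl
        simp at hl
      · intro l hl
        simp at hl
    · rw [mem_singleton] at hx
      subst hx
      left
      refine ⟨∅, mem_erase.2 ⟨?_, h1⟩, ?_⟩
      · intro h
        apply hCM
        rw [← h]
        exact h1
      · intro l hl
        simp at hl
  · refine ⟨(∅, none), ?_, ?_, ?_⟩
    · show (∅, none) ∈ itemsOf (M (τ - τ)) (C (τ - τ))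
      rw [Nat.sub_self, h0]
      simp [itemsOf]
    · intro C hC
      simp at hC
    · intro l hl
      simp at hl
  · obtain ⟨i, hi, hT, hF'⟩ := hb
    have e : τ - i = (τ - (i + 1)) + 1 := by omega
    have h5 := itemsOf_AllT hT
    have h6 := itemsOf_SomeF hF'
    rw [e] at h5
    exact axiom_of_boundary (h2 (τ - (i + 1)) (by omega)) h6 h5

/-- Counting small sets. -/
theorem card_small_sets {L : Type} [Fintype L] [DecidableEq L] (s : ℕ) :
    ((univ : Finset (Finset L)).filter (fun O => O.card ≤ s)).card ≤ (Fintype.card L + 1) ^ s := by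
  classical
  have hsub : ((univ : Finset (Finset L)).filter (fun O => O.card ≤ s)) ⊆
      (univ : Finset (Fin s → Option L)).image
        (fun f => univ.filter (fun l => ∃ i, f i = some l)) := by
    intro O hO
    have hOs : O.card ≤ s := (mem_filter.1 hO).2
    rw [mem_image]
    set e := O.equivFin with he
    refine ⟨fun i => if h : i.val < O.card then some (e.symm ⟨i.val, h⟩).1 else none,
      mem_univ _, ?_⟩
    ext l
    simp only [mem_filter, mem_univ, true_and]
    constructor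
    · rintro ⟨i, hi⟩
      by_cases h : i.val < O.card
      · rw [dif_pos h] at hi
        rw [← Option.some.inj hi]
        exact (e.symm ⟨i.val, h⟩).2
      · rw [dif_neg h] at hi
        simp at hi
    · intro hl
      refine ⟨⟨(e ⟨l, hl⟩).val, lt_of_lt_of_le (e ⟨l, hl⟩).2 hOs⟩, ?_⟩
      rw [dif_pos (e ⟨l, hl⟩).2]
      simp
  refine (card_le_card hsub).trans (card_image_le.trans ?_)
  rw [card_univ, Fintype.card_fun, Fintype.card_fin, Fintype.card_option]

theorem card_small_configs (n : ℕ) (hn : 1 ≤ n) (m ℓ : ℕ) (hℓ : 2 * n ≤ 2 ^ ℓ) :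
    ((univ : Finset (Finset (Clause (Fin n)))).filter (fun R => size R ≤ m)).card ≤
      2 ^ (5 + m * ℓ) := by
  have hL : Fintype.card (Fin n × Bool) = 2 * n := by simp [mul_comm]
  have h1 := count_configs (L := Fin n × Bool) (by rw [hL]; omega) m
  rw [hL] at h1
  refine h1.trans ?_
  calc 32 * (2 * n) ^ m ≤ 32 * (2 ^ ℓ) ^ m := by gcongr
    _ = 2 ^ (5 + m * ℓ) := by
      rw [pow_add, mul_comm m ℓ, pow_mul]
      norm_num

theorem card_itemSet (n : ℕ) (hn : 1 ≤ n) (m ℓ : ℕ) (hℓ : 2 * n ≤ 2 ^ ℓ) :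
    (itemSet n m).card ≤ 2 ^ (5 + m * ℓ + (ℓ + 1)) := by
  have h1 : itemSet n m ⊆
      ((univ : Finset (Finset (Clause (Fin n)))).filter (fun R => size R ≤ m)) ×ˢ
        (univ : Finset (Option (Fin n × Bool))) := by
    intro x hx
    exact mem_product.2 ⟨mem_filter.2 ⟨mem_univ _, (mem_filter.1 hx).2⟩, mem_univ _⟩
  refine (card_le_card h1).trans ?_
  rw [card_product, pow_add]
  refine Nat.mul_le_mul (card_small_configs n hn m ℓ hℓ) ?_
  rw [card_univ, Fintype.card_option, Fintype.card_prod, Fintype.card_fin, Fintype.card_bool,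
    pow_succ]
  have : 1 ≤ 2 ^ ℓ := Nat.one_le_two_pow
  omega

open Classical in
theorem count_item_configs (n : ℕ) (hn : 1 ≤ n) (m s ℓ : ℕ) (hℓ : 2 * n ≤ 2 ^ ℓ) :
    (((itemSet n m).powerset).filter (fun Y => (oneSys (Fin n) m).Ev Y ∧
      sz (oneSys (Fin n) m).wt Y ≤ s)).card ≤ 2 ^ (5 + m * ℓ + s * (ℓ + 1)) := by
  have hsub : (((itemSet n m).powerset).filter (fun Y => (oneSys (Fin n) m).Ev Y ∧
      sz (oneSys (Fin n) m).wt Y ≤ s)) ⊆
      ((((univ : Finset (Finset (Clause (Fin n)))).filter (fun R => size R ≤ m)) ×ˢ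
        ((univ : Finset (Finset (Option (Fin n × Bool)))).filter (fun O => O.card ≤ s))).image
        (fun p => p.2.image (fun o => (p.1, o)))) := by
    intro Y hY
    obtain ⟨-, ⟨R, hR, hYR⟩, hsz⟩ := mem_filter.1 hY
    rw [mem_image]
    refine ⟨(R, Y.image Prod.snd), mem_product.2 ⟨mem_filter.2 ⟨mem_univ _, hR⟩,
      mem_filter.2 ⟨mem_univ _, ?_⟩⟩, ?_⟩
    · refine card_image_le.trans (le_trans (le_of_eq ?_) hsz)
      unfold sz
      show _ = ∑ x ∈ Y, 1
      rw [card_eq_sum_ones]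
    · ext x
      simp only [mem_image]
      constructor
      · rintro ⟨o, ⟨y, hy, rfl⟩, rfl⟩
        have := hYR y hy
        rw [← this]
        exact hy
      · intro hx
        refine ⟨x.2, ⟨x, hx, rfl⟩, ?_⟩
        have := hYR x hx
        rw [← this]
  refine (card_le_card hsub).trans (card_image_le.trans ?_)
  rw [card_product, pow_add]
  refine Nat.mul_le_mul (card_small_configs n hn m ℓ hℓ) ?_
  refine (card_small_sets s).trans ?_
  rw [Fintype.card_option, Fintype.card_prod, Fintype.card_fin, Fintype.card_bool, mul_comm s,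
    pow_mul]
  refine Nat.pow_le_pow_left ?_ s
  rw [pow_succ]
  omega

/-- Depth at most `2000 m s (1 + log (s / m)) ^ 2 log n`. -/
theorem one_bound {n s m : ℕ} (hn : 2 ≤ n) (hm : 1 ≤ m) (hms : m ≤ s)
    {F : Finset (Clause (Fin n))} (hF : SpaceOne F s m) :
    ∃ D : ℕ, DepthAtMost F D ∧
      (D : ℝ) ≤ 2000 * (m * s * (1 + Real.log (s / m)) ^ 2 * Real.log n) := by
  have hs : 1 ≤ s := hm.trans hms
  have hl := log_ge hn
  have hmR : (1 : ℝ) ≤ m := by exact_mod_cast hm
  have hsR : (1 : ℝ) ≤ s := by exact_mod_cast hs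
  have hmsR : (m : ℝ) ≤ s := by exact_mod_cast hms
  obtain ⟨ℓ, hℓ1, hℓ2⟩ := exists_bits hn
  obtain ⟨J, hJ1, hJ2, hJ3, hJ4⟩ := exists_levels hm hms
  have hne : (itemSet n m).Nonempty := ⟨(∅, none), by simp [itemSet, size]⟩
  obtain ⟨D, hD1, hD2⟩ := pathCost_main (oneSys (Fin n) m) (𝓔 := itemSet n m) (s := s)
    (k := 5 + m * ℓ + s * (ℓ + 1)) (J := J) (by omega) hne hJ1
    (count_item_configs n (by omega) m s ℓ hℓ1)
  refine ⟨D, depth_of_pathCost_one hs hD1 hF, hD2.trans ?_⟩
  have he0 : (oneSys (Fin n) m).e0 = m := rfl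
  rw [he0]
  push_cast
  have hJR : (1 : ℝ) ≤ J := by exact_mod_cast hJ1
  set y : ℝ := m * Real.log n with hy
  have hy1 : (m : ℝ) ≤ 1.5 * y := by rw [hy]; nlinarith
  have hmℓ : (m : ℝ) * ℓ ≤ 5 * y := by
    calc (m : ℝ) * ℓ ≤ m * (5 * Real.log n) := by gcongr
      _ = 5 * y := by rw [hy]; ring
  have hℓy : (ℓ : ℝ) ≤ 5 * y := by
    have h0 : (0 : ℝ) ≤ ℓ := by positivity
    nlinarith
  -- the first factor
  have hf0 : Real.log ((itemSet n m).card) ≤ 0.7 * (6 + m * ℓ + ℓ) := by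
    have h1 : ((itemSet n m).card : ℝ) ≤ 2 ^ (5 + m * ℓ + (ℓ + 1)) := by
      exact_mod_cast card_itemSet n (by omega) m ℓ hℓ1
    have h2 : Real.log ((itemSet n m).card) ≤ Real.log ((2 : ℝ) ^ (5 + m * ℓ + (ℓ + 1))) :=
      Real.log_le_log (by exact_mod_cast hne.card_pos) h1
    rw [Real.log_pow] at h2
    push_cast at h2
    have h3 := Real.log_two_lt_d9
    have h4 : (0 : ℝ) ≤ 5 + m * ℓ + (ℓ + 1) := by positivity
    nlinarith
  have hp : (1 / 2 : ℝ) ^ J ≤ 1 := pow_le_one₀ (by norm_num) (by norm_num)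
  have hp0 : (0 : ℝ) ≤ (1 / 2 : ℝ) ^ J := by positivity
  have hf1 : Real.log ((itemSet n m).card) + 2 + (1 / 2 : ℝ) ^ J * (5 + m * ℓ + s * (ℓ + 1)) ≤
      36 * y := by
    have h2 : (1 / 2 : ℝ) ^ J * (5 + m * ℓ + s * (ℓ + 1)) ≤ 5 + 5 * y + (5 * y + 1.5 * y) := by
      calc (1 / 2 : ℝ) ^ J * (5 + m * ℓ + s * (ℓ + 1)) =
          (1 / 2 : ℝ) ^ J * (5 + m * ℓ) + ((1 / 2 : ℝ) ^ J * s) * (ℓ + 1) := by ring
        _ ≤ 1 * (5 + m * ℓ) + m * (ℓ + 1) := by gcongr
        _ = 5 + m * ℓ + (m * ℓ + m) := by ring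
        _ ≤ _ := by linarith
    linarith
  -- the second factor
  have h2J : (2 : ℝ) ^ J * (m + 1) ≤ 4 * s := by
    have : (2 : ℝ) ^ J * (m + 1) ≤ (2 : ℝ) ^ J * (m + m) := by gcongr
    linarith
  have hJJ : (1 : ℝ) ≤ (J : ℝ) ^ 2 := one_le_pow₀ hJR
  have hf2 : 12 * (J : ℝ) ^ 2 * s + 3 * 2 ^ J * (m + 1) + (m + s) ≤ 26 * (J ^ 2 * s) := by
    have h3 : (s : ℝ) ≤ J ^ 2 * s := by nlinarith
    linarith
  have hf3 : (J : ℝ) ^ 2 ≤ 2.1025 * (1 + Real.log (s / m)) ^ 2 := by
    calc (J : ℝ) ^ 2 ≤ (1.45 * (1 + Real.log (s / m))) ^ 2 := by gcongr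
      _ = _ := by ring
  have hy0 : 0 ≤ y := by rw [hy]; positivity
  have hlog0 : 0 ≤ Real.log ((itemSet n m).card) := Real.log_natCast_nonneg _
  calc (Real.log ((itemSet n m).card) + 2 + (1 / 2 : ℝ) ^ J * (5 + m * ℓ + s * (ℓ + 1))) *
        (12 * (J : ℝ) ^ 2 * s + 3 * 2 ^ J * (m + 1) + (m + s)) ≤ (36 * y) * (26 * (J ^ 2 * s)) := by
        gcongr
    _ ≤ (36 * y) * (26 * (2.1025 * (1 + Real.log (s / m)) ^ 2 * s)) := by gcongr
    _ = 1967.94 * (m * s * (1 + Real.log (s / m)) ^ 2 * Real.log n) := by rw [hy]; ring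
    _ ≤ _ := by
      have : 0 ≤ m * s * (1 + Real.log ((s : ℝ) / m)) ^ 2 * Real.log n := by positivity
      linarith

end

end Pool.Agent.Lib.Pad9061
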