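import Pool.Agent.Lib.Pad9061.Two
import Pool.Agent.Lib.Pad9061.OneWide

set_option autoImplicit false

/-!
# Configurations with small squares or small outside one clause
-/

namespace Pool.Agent.Lib.Pad9061

open Finset

/-- A refutation without repeated configurations. -/
theorem RefWith.inj {V : Type} [DecidableEq V] {F : Finset (Clause V)}
    {P : Finset (Clause V) → Prop} (hF : RefWith F P) :
    ∃ τ : ℕ, ∃ M : ℕ → Finset (Clause V), M 0 = ∅ ∧ (∅ : Clause V) ∈ M τ ∧
      (∀ t < τ, Step F (M t) (M (t + 1))) ∧ (∀ t ≤ τ, P (M t)) ∧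
      ∀ i j, i < j → j ≤ τ → M i ≠ M j := by
  classical
  have hex : ∃ τ : ℕ, ∃ M : ℕ → Finset (Clause V), M 0 = ∅ ∧ (∅ : Clause V) ∈ M τ ∧
      (∀ t < τ, Step F (M t) (M (t + 1))) ∧ (∀ t ≤ τ, P (M t)) := hF
  obtain ⟨M, h0, h1, h2, h3⟩ := Nat.find_spec hex
  refine ⟨Nat.find hex, M, h0, h1, h2, h3, ?_⟩
  intro i j hij hj heq
  set τ := Nat.find hex with hτ
  have hlt : τ - (j - i) < τ := by omega
  apply Nat.find_min hex hlt
  refine ⟨fun t => if t ≤ i then M t else M (t + (j - i)), ?_, ?_, ?_, ?_⟩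
  · show (if 0 ≤ i then M 0 else M (0 + (j - i))) = ∅
    rw [if_pos (Nat.zero_le _)]
    exact h0
  · show ∅ ∈ (if τ - (j - i) ≤ i then M (τ - (j - i)) else M (τ - (j - i) + (j - i)))
    split_ifs with h
    · have h4 : j = τ := by omega
      have h5 : τ - (j - i) = i := by omega
      rw [h5, heq, h4]
      exact h1
    · have h4 : τ - (j - i) + (j - i) = τ := by omega
      rw [h4]
      exact h1
  · intro t ht
    show Step F (if t ≤ i then M t else M (t + (j - i)))
      (if t + 1 ≤ i then M (t + 1) else M (t + 1 + (j - i)))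
    by_cases h4 : t + 1 ≤ i
    · rw [if_pos (by omega), if_pos h4]
      exact h2 t (by omega)
    · rw [if_neg h4]
      by_cases h5 : t ≤ i
      · rw [if_pos h5]
        have h6 : t = i := by omega
        subst h6
        rw [heq]
        have h7 : t + 1 + (j - t) = j + 1 := by omega
        rw [h7]
        exact h2 j (by omega)
      · rw [if_neg h5]
        have h7 : t + 1 + (j - i) = t + (j - i) + 1 := by omega
        rw [h7]
        exact h2 _ (by omega)
  · intro t ht
    show P (if t ≤ i then M t else M (t + (j - i)))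
    split_ifs
    · exact h3 t (by omega)
    · exact h3 _ (by omega)

section

variable (V : Type) [DecidableEq V] (m : ℕ)

/-- The joint system: clauses, and pairs of a small configuration and a literal. -/
def twoSys : Sys V (Clause V ⊕ (Finset (Clause V) × Option (V × Bool))) where
  wt := fun x => Sum.elim (fun C => C.card) (fun _ => 1) x
  T := fun ρ x => Sum.elim (fun C => KT ρ C) (fun y => (oneSys V m).F ρ y) x
  F := fun ρ x => Sum.elim (fun C => KF ρ C) (fun y => (oneSys V m).T ρ y) x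
  T_mono := by
    intro ρ ρ' x h hx
    cases x with
    | inl C => exact KT.mono h hx
    | inr y => exact (oneSys V m).F_mono h hx
  F_mono := by
    intro ρ ρ' x h hx
    cases x with
    | inl C => exact KF.mono h hx
    | inr y => exact (oneSys V m).T_mono h hx
  excl := by
    intro ρ x h1 h2
    cases x with
    | inl C => exact KT_KF h1 h2
    | inr y => exact (oneSys V m).excl h2 h1
  e0 := m
  Ev := fun Y => (∃ Y1 : Finset (Clause V), Y1.image Sum.inl = Y) ∨
    (∃ Y2 : Finset (Finset (Clause V) × Option (V × Bool)), (oneSys V m).Ev Y2 ∧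
      Y2.image Sum.inr = Y)
  Ev_sub := by
    rintro Y Y' h (⟨Y1, rfl⟩ | ⟨Y2, h2, rfl⟩)
    · obtain ⟨Y1', -, h1⟩ := subset_image_iff.1 h
      exact Or.inl ⟨Y1', h1⟩
    · obtain ⟨Y2', h3, h1⟩ := subset_image_iff.1 h
      exact Or.inr ⟨Y2', (oneSys V m).Ev_sub h3 h2, h1⟩
  eval := by
    rintro Y (⟨Y1, rfl⟩ | ⟨Y2, h2, rfl⟩) ρ
    · refine (((clauseSys V).eval Y1 trivial ρ).mono ?_).weaken fun ρ' _ h => ?_
      · have e : sz (fun x : Clause V ⊕ (Finset (Clause V) × Option (V × Bool)) =>
            Sum.elim (fun C => C.card) (fun _ => 1) x) (Y1.image Sum.inl) =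
            sz (clauseSys V).wt Y1 := by
          unfold sz
          rw [sum_image (fun x _ y _ hxy => Sum.inl_injective hxy)]
          rfl
        rw [e]
        show 0 + _ ≤ m + _
        omega
      · intro x hx
        obtain ⟨C, hC, rfl⟩ := mem_image.1 hx
        exact h C hC
    · refine (((oneSys V m).eval Y2 h2 ρ).mono ?_).weaken fun ρ' _ h => ?_
      · have e : sz (fun x : Clause V ⊕ (Finset (Clause V) × Option (V × Bool)) =>
            Sum.elim (fun C => C.card) (fun _ => 1) x) (Y2.image Sum.inr) =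
            sz (oneSys V m).wt Y2 := by
          unfold sz
          rw [sum_image (fun x _ y _ hxy => Sum.inr_injective hxy)]
          rfl
        rw [e]
        exact le_rfl
      · intro x hx
        obtain ⟨y, hy, rfl⟩ := mem_image.1 hx
        exact (h y hy).symm

end

/-- The joint set of items. -/
noncomputable def jointSet (n m : ℕ) :
    Finset (Clause (Fin n) ⊕ (Finset (Clause (Fin n)) × Option (Fin n × Bool))) :=
  (univ : Finset (Clause (Fin n))).disjSum (itemSet n m)

/-- The joint code length. -/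
noncomputable def kapJ {n : ℕ} (w : ℕ) (X : Finset (Clause (Fin n))) :
    Clause (Fin n) ⊕ (Finset (Clause (Fin n)) × Option (Fin n × Bool)) → ℝ :=
  fun x => Sum.elim (fun C => kap w X C + Real.log 2)
    (fun _ => Real.log (itemSet n w).card + Real.log 2) x

theorem itemSet_nonempty (n m : ℕ) : (itemSet n m).Nonempty :=
  ⟨(∅, none), mem_filter.2 ⟨mem_univ _, by simp [size]⟩⟩

theorem kraftJ {n : ℕ} (hn : 2 ≤ n) (w : ℕ) (X : Finset (Clause (Fin n)))
    (hX : X.card ≤ n ^ w) :
    ∑ x ∈ jointSet n w, Real.exp (-kapJ w X x) ≤ 1 := by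
  have hlog2 : Real.exp (-Real.log 2) = 1 / 2 := by
    rw [Real.exp_neg, Real.exp_log (by norm_num)]
    norm_num
  have hN : (0 : ℝ) < (itemSet n w).card := by exact_mod_cast (itemSet_nonempty n w).card_pos
  unfold jointSet
  rw [sum_disjSum]
  have h1 : ∑ C ∈ (univ : Finset (Clause (Fin n))), Real.exp (-kapJ w X (Sum.inl C)) ≤ 1 / 2 := by
    have e : ∀ C : Clause (Fin n), Real.exp (-kapJ w X (Sum.inl C)) =
        Real.exp (-kap w X C) * (1 / 2) := by
      intro C
      show Real.exp (-(kap w X C + Real.log 2)) = _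
      rw [neg_add, Real.exp_add, hlog2]
    simp_rw [e]
    rw [← sum_mul]
    have := kraft hn w X hX
    linarith
  have h2 : ∑ y ∈ itemSet n w, Real.exp (-kapJ w X (Sum.inr y)) ≤ 1 / 2 := by
    have e : ∀ y : Finset (Clause (Fin n)) × Option (Fin n × Bool),
        Real.exp (-kapJ w X (Sum.inr y)) = ((itemSet n w).card : ℝ)⁻¹ * (1 / 2) := by
      intro y
      show Real.exp (-(Real.log (itemSet n w).card + Real.log 2)) = _
      rw [neg_add, Real.exp_add, hlog2, Real.exp_neg, Real.exp_log hN]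
    simp_rw [e]
    rw [sum_const, nsmul_eq_mul, ← mul_assoc, mul_inv_cancel₀ hN.ne', one_mul]
  linarith

open Classical in
/-- Depth if every configuration has small squares or is small outside one clause. -/
theorem joint_bound {n s w : ℕ} (hn : 2 ≤ n) (hw : 1 ≤ w) (hws : w ≤ s)
    {F : Finset (Clause (Fin n))} {X : Finset (Clause (Fin n))} (hX : X.card ≤ n ^ w)
    (hF : RefWith F (fun M => ∑ C ∈ M, C.card ≤ s ∧
      (∑ C ∈ M \ X, C.card ^ 2 ≤ w * s ∨ ∃ Y, ∑ C ∈ M.erase Y, C.card ≤ w))) :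
    ∃ D : ℕ, DepthAtMost F D ∧
      (D : ℝ) ≤ 3000 * (w * s * (1 + Real.log (s / w)) ^ 2 * Real.log n) := by
  obtain ⟨τ, M, h0, h1, h2, h3, hinj⟩ := hF.inj
  have hs : 1 ≤ s := hw.trans hws
  have hl := log_ge hn
  have hnR : (2 : ℝ) ≤ n := by exact_mod_cast hn
  have hwR : (1 : ℝ) ≤ w := by exact_mod_cast hw
  have hsR : (1 : ℝ) ≤ s := by exact_mod_cast hs
  have hwsR : (w : ℝ) ≤ s := by exact_mod_cast hws
  obtain ⟨ℓ, hℓ1, hℓ2⟩ := exists_bits hn
  obtain ⟨J, hJ1, hJ2, hJ3, hJ4⟩ := exists_levels hw hws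
  -- the length of the refutation
  set k := 5 + s * ℓ with hk
  have hτ : τ < 2 ^ k := by
    have e1 : ((range (τ + 1)).image M).card = τ + 1 := by
      rw [card_image_of_injOn, card_range]
      intro i hi j hj hij
      have hi' : i < τ + 1 := by simpa using hi
      have hj' : j < τ + 1 := by simpa using hj
      rcases lt_trichotomy i j with h | h | h
      · exact absurd hij (hinj i j h (by omega))
      · exact h
      · exact absurd hij.symm (hinj j i h (by omega))
    have e2 : (range (τ + 1)).image M ⊆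
        (univ : Finset (Finset (Clause (Fin n)))).filter (fun R => size R ≤ s) := by
      intro Y hY
      obtain ⟨t, ht, rfl⟩ := mem_image.1 hY
      exact mem_filter.2 ⟨mem_univ _, (h3 t (by have := mem_range.1 ht; omega)).1⟩
    have e3 := (card_le_card e2).trans (card_small_configs n (by omega) s ℓ hℓ1)
    rw [e1, ← hk] at e3
    omega
  -- kinds and distinguished clauses
  set tp : ℕ → Bool := fun t => decide (∑ C ∈ M t \ X, C.card ^ 2 ≤ w * s) with htp
  have h4 : ∀ t, ∃ C : Clause (Fin n), t ≤ τ → tp t = false → size ((M t).erase C) ≤ w := by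
    intro t
    by_cases ht : t ≤ τ
    · rcases (h3 t ht).2 with h | ⟨C, hC⟩
      · refine ⟨∅, fun _ h' => ?_⟩
        simp only [htp, decide_eq_false_iff_not] at h'
        exact absurd h h'
      · exact ⟨C, fun _ _ => hC⟩
    · exact ⟨∅, fun h => absurd h ht⟩
  choose Cl hCl using h4
  set c : ℕ → Finset (Clause (Fin n) ⊕ (Finset (Clause (Fin n)) × Option (Fin n × Bool))) :=
    fun t => if tp t = true then (M t).image Sum.inl else (itemsOf (M t) (Cl t)).image Sum.inr
    with hc
  have hcA : ∀ t, tp t = true → c t = (M t).image Sum.inl := fun t ht => if_pos ht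
  have hcB : ∀ t, tp t = false → c t = (itemsOf (M t) (Cl t)).image Sum.inr := fun t ht => by
    simp only [hc]
    rw [if_neg (by rw [ht]; simp)]
  have htag : ∀ t t' x, x ∈ c t → x ∈ c t' → tp t = tp t' := by
    intro t t' x hx hx'
    cases ht : tp t with
    | true =>
      rw [hcA t ht] at hx
      obtain ⟨C, -, rfl⟩ := mem_image.1 hx
      cases ht' : tp t' with
      | true => rfl
      | false =>
        rw [hcB t' ht'] at hx'
        obtain ⟨y, -, hy⟩ := mem_image.1 hx'
        simp at hy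
    | false =>
      rw [hcB t ht] at hx
      obtain ⟨y, -, rfl⟩ := mem_image.1 hx
      cases ht' : tp t' with
      | true =>
        rw [hcA t' ht'] at hx'
        obtain ⟨C, -, hC⟩ := mem_image.1 hx'
        simp at hC
      | false => rfl
  set S := twoSys (Fin n) w with hS
  have hszA : ∀ Y1 : Finset (Clause (Fin n)), sz S.wt (Y1.image Sum.inl) = size Y1 := by
    intro Y1
    unfold sz
    rw [sum_image (fun x _ y _ hxy => Sum.inl_injective hxy)]
    rfl
  have hszB : ∀ Y2 : Finset (Finset (Clause (Fin n)) × Option (Fin n × Bool)),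
      sz S.wt (Y2.image Sum.inr) = sz (oneSys (Fin n) w).wt Y2 := by
    intro Y2
    unfold sz
    rw [sum_image (fun x _ y _ hxy => Sum.inr_injective hxy)]
    rfl
  have hEv : ∀ t, 0 ≤ t → t ≤ τ → S.Ev (c t) ∧ sz S.wt (c t) ≤ s ∧ c t ⊆ jointSet n w := by
    intro t _ ht
    cases htt : tp t with
    | true =>
      rw [hcA t htt]
      refine ⟨Or.inl ⟨M t, rfl⟩, ?_, ?_⟩
      · rw [hszA]
        exact (h3 t ht).1
      · intro x hx
        obtain ⟨C, -, rfl⟩ := mem_image.1 hx
        unfold jointSet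
        rw [inl_mem_disjSum]
        exact mem_univ _
    | false =>
      rw [hcB t htt]
      have hE : (oneSys (Fin n) w).Ev (itemsOf (M t) (Cl t)) := itemsOf_Ev (hCl t ht htt)
      refine ⟨Or.inr ⟨_, hE, rfl⟩, ?_, ?_⟩
      · rw [hszB]
        exact itemsOf_sz hs (h3 t ht).1
      · intro x hx
        obtain ⟨y, hy, rfl⟩ := mem_image.1 hx
        unfold jointSet
        rw [inr_mem_disjSum]
        obtain ⟨R, hR, hyR⟩ := hE
        unfold itemSet
        rw [mem_filter, hyR y hy]
        exact ⟨mem_univ _, hR⟩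
  -- the potential
  have hl2 : 0 ≤ Real.log 2 := Real.log_nonneg (by norm_num)
  have hl3 : 0 ≤ Real.log (2 * n) := Real.log_nonneg (by linarith)
  have hlN : 0 ≤ Real.log (itemSet n w).card := Real.log_natCast_nonneg _
  set KA : ℝ := w * Real.log n + w * Real.log (2 * n) + (1 + Real.log 2) with hKA
  have hKA0 : 0 ≤ KA := by positivity
  set K : ℝ := KA + Real.log (itemSet n w).card + Real.log 2 with hK
  have hK0 : 0 ≤ K := by positivity
  have hUp : Up S.wt c s (jointSet n w) (Ioo 0 τ) (K + 1) := by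
    intro π hπ
    refine Hd_le_kraft (by omega) hπ (kapJ w X) (kraftJ hn w X hX) (fun t ht => ?_)
      (fun t ht => (hEv t (Nat.zero_le _) (mem_Ioo.1 ht).2.le).2.2)
    have htτ := (mem_Ioo.1 ht).2.le
    cases htt : tp t with
    | true =>
      rw [hcA t htt, sum_image (fun x _ y _ hxy => Sum.inl_injective hxy)]
      have e1 : ∑ C ∈ M t, (S.wt (Sum.inl C) : ℝ) * kapJ w X (Sum.inl C) =
          ∑ C ∈ M t, (C.card : ℝ) * kap w X C + Real.log 2 * ∑ C ∈ M t, (C.card : ℝ) := by
        rw [mul_sum, ← sum_add_distrib]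
        refine sum_congr rfl fun C _ => ?_
        show (C.card : ℝ) * (kap w X C + Real.log 2) = _
        ring
      rw [e1]
      have e2 : ∑ C ∈ M t \ X, C.card ^ 2 ≤ w * s := by
        have := htt
        simp only [htp, decide_eq_true_eq] at this
        exact this
      have e3 := sum_kap_le hn hw hs X (M t) (h3 t htτ).1 e2
      have e4 : ∑ C ∈ M t, (C.card : ℝ) ≤ s := by exact_mod_cast (h3 t htτ).1
      have e5 := mul_le_mul_of_nonneg_left e4 hl2
      have e6 : 0 ≤ Real.log (itemSet n w).card * s := by positivity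
      rw [← hKA] at e3
      rw [hK]
      linarith
    | false =>
      rw [hcB t htt, sum_image (fun x _ y _ hxy => Sum.inr_injective hxy)]
      have e1 : ∑ y ∈ itemsOf (M t) (Cl t), (S.wt (Sum.inr y) : ℝ) * kapJ w X (Sum.inr y) =
          (Real.log (itemSet n w).card + Real.log 2) *
            ((sz (oneSys (Fin n) w).wt (itemsOf (M t) (Cl t)) : ℕ) : ℝ) := by
        unfold sz
        push_cast
        rw [mul_sum]
        refine sum_congr rfl fun y _ => ?_
        show ((1 : ℕ) : ℝ) * (Real.log (itemSet n w).card + Real.log 2) =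
          (Real.log (itemSet n w).card + Real.log 2) * ((1 : ℕ) : ℝ)
        ring
      rw [e1]
      have e2 : ((sz (oneSys (Fin n) w).wt (itemsOf (M t) (Cl t)) : ℕ) : ℝ) ≤ s := by
        exact_mod_cast itemsOf_sz hs (h3 t htτ).1
      have e3 := mul_le_mul_of_nonneg_left e2 (by positivity :
        0 ≤ Real.log (itemSet n w).card + Real.log 2)
      have e4 : 0 ≤ KA * s := by positivity
      rw [hK]
      linarith
  -- the search
  set σ : ℕ → ℕ := fun j => ⌈12 * (J : ℝ) * (1 / 2) ^ j * s⌉₊ with hσ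
  have hσ1 : ∀ j, 12 * (J : ℝ) * (1 / 2) ^ j * s ≤ σ j := fun j => Nat.le_ceil _
  have hσ2 : ∀ j, (σ j : ℝ) ≤ 12 * (J : ℝ) * (1 / 2) ^ j * s + 1 := fun j =>
    (Nat.ceil_lt_add_one (by positivity)).le
  set N := ⌊K + 1 + (1 / 2 : ℝ) ^ J * k⌋₊ + 1 with hN
  have hN1 : K + 1 + (1 / 2 : ℝ) ^ J * k < N := by
    rw [hN]; push_cast; exact Nat.lt_floor_add_one _
  have hN2 : (N : ℝ) ≤ K + 2 + (1 / 2 : ℝ) ^ J * k := by
    have : (⌊K + 1 + (1 / 2 : ℝ) ^ J * k⌋₊ : ℝ) ≤ K + 1 + (1 / 2 : ℝ) ^ J * k :=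
      Nat.floor_le (by positivity)
    rw [hN]; push_cast
    linarith
  have htp0 : tp 0 = true := by
    simp only [htp, h0]
    simp
  have hstart : ∀ ρ : PA (Fin n), Pos S tp ρ 0 (c 0) := by
    intro ρ
    refine ⟨fun _ x hx => ?_, fun h => by rw [htp0] at h; simp at h⟩
    rw [hcA 0 htp0, h0] at hx
    simp at hx
  have hend : ∀ ρ : PA (Fin n), Neg S tp ρ τ (c τ) := by
    intro ρ
    refine ⟨fun h => ?_, fun h x hx => ?_⟩
    · rw [hcA τ h]
      refine ⟨Sum.inl ∅, mem_image_of_mem _ h1, ?_⟩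
      intro l hl
      simp at hl
    · rw [hcB τ h] at hx
      obtain ⟨y, hy, rfl⟩ := mem_image.1 hx
      show (oneSys (Fin n) w).T ρ y
      unfold itemsOf at hy
      split_ifs at hy with hCM
      · obtain ⟨l, hl, rfl⟩ := mem_image.1 hy
        left
        refine ⟨∅, mem_erase.2 ⟨?_, h1⟩, ?_⟩
        · intro h
          rw [← h] at hl
          simp at hl
        · intro l hl
          simp at hl
      · rw [mem_singleton] at hy
        subst hy
        left
        refine ⟨∅, mem_erase.2 ⟨?_, h1⟩, ?_⟩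
        · intro h
          apply hCM
          rw [← h]
          exact h1
        · intro l hl
          simp at hl
  have hτ0 : 0 < τ := by
    rcases Nat.eq_zero_or_pos τ with h | h
    · exfalso
      rw [h, h0] at h1
      simp at h1
    · exact h
  have hκ0 : (0 : ℝ) ≤ (1 / 2 : ℝ) ^ J := by positivity
  refine ⟨N * (costT S.e0 σ J (J - 1) + ((S.e0 + s) + (S.e0 + s))), ?_, ?_⟩
  · apply depthAtMost_of_solve
    refine (top_level_two (S := S) (tp := tp) (c := c) (s := s) (𝓔 := jointSet n w)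
      (κ := (1 / 2 : ℝ) ^ J) hκ0 (by omega) htag hJ1 le_rfl σ (fun j _ => hσ1 j) N 0 τ
      (K + 1 + (1 / 2 : ℝ) ^ J * k) (fun _ => none) hN1 hEv ?_ hτ0 (hstart _)
      (hend _)).weaken fun ρ' _ h => ?_
    · refine Up.mono (subset_refl _) ?_ hUp
      have e1 : (Nat.clog 2 (τ - 0) : ℝ) ≤ k := by
        exact_mod_cast Nat.clog_le_of_le_pow (by omega)
      have e2 := mul_le_mul_of_nonneg_left e1 hκ0
      linarith
    · obtain ⟨t, -, ht, hT, hF'⟩ := h
      have hTrue : ∀ C ∈ M t, KT ρ' C := by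
        cases htt : tp t with
        | true =>
          have h5 := hT.1 htt
          rw [hcA t htt] at h5
          intro C hC
          exact h5 (Sum.inl C) (mem_image_of_mem _ hC)
        | false =>
          obtain ⟨x, hx, hxT⟩ := hT.2 htt
          rw [hcB t htt] at hx
          obtain ⟨y, hy, rfl⟩ := mem_image.1 hx
          exact itemsOf_SomeF (m := w) ⟨y, hy, hxT⟩
      have hFalse : ∃ C ∈ M (t + 1), KF ρ' C := by
        cases htt : tp (t + 1) with
        | true =>
          obtain ⟨x, hx, hxF⟩ := hF'.1 htt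
          rw [hcA (t + 1) htt] at hx
          obtain ⟨C, hC, rfl⟩ := mem_image.1 hx
          exact ⟨C, hC, hxF⟩
        | false =>
          have h5 := hF'.2 htt
          rw [hcB (t + 1) htt] at h5
          exact itemsOf_AllT (m := w) (C := Cl (t + 1))
            (fun y hy => h5 (Sum.inr y) (mem_image_of_mem _ hy))
      exact axiom_of_boundary (h2 t ht) hTrue hFalse
  · have he0 : S.e0 = w := rfl
    rw [he0]
    have hJR : (1 : ℝ) ≤ J := by exact_mod_cast hJ1
    set y : ℝ := w * Real.log n with hy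
    have hy1 : 1 ≤ 1.45 * y := by rw [hy]; nlinarith
    have hy0 : 0 ≤ y := by rw [hy]; positivity
    have hwℓ : (w : ℝ) * ℓ ≤ 5 * y := by
      calc (w : ℝ) * ℓ ≤ w * (5 * Real.log n) := by gcongr
        _ = 5 * y := by rw [hy]; ring
    have hℓy : (ℓ : ℝ) ≤ 5 * y := by
      have : (0 : ℝ) ≤ ℓ := by positivity
      nlinarith
    -- the first factor
    have hf0 : Real.log ((itemSet n w).card) ≤ 0.7 * (6 + w * ℓ + ℓ) := by
      have e1 : ((itemSet n w).card : ℝ) ≤ 2 ^ (5 + w * ℓ + (ℓ + 1)) := by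
        exact_mod_cast card_itemSet n (by omega) w ℓ hℓ1
      have e2 : Real.log ((itemSet n w).card) ≤ Real.log ((2 : ℝ) ^ (5 + w * ℓ + (ℓ + 1))) :=
        Real.log_le_log (by exact_mod_cast (itemSet_nonempty n w).card_pos) e1
      rw [Real.log_pow] at e2
      push_cast at e2
      have e3 := Real.log_two_lt_d9
      have e4 : (0 : ℝ) ≤ 5 + w * ℓ + (ℓ + 1) := by positivity
      nlinarith
    have hf1 : (N : ℝ) ≤ 32 * y := by
      have e1 : Real.log (2 * n) = Real.log 2 + Real.log n :=
        Real.log_mul (by norm_num) (by positivity)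
      have e2 : Real.log 2 ≤ Real.log n := Real.log_le_log (by norm_num) hnR
      have e3 : w * Real.log (2 * n) ≤ 2 * y := by
        rw [e1, hy]
        have := mul_le_mul_of_nonneg_left e2 (by linarith : (0 : ℝ) ≤ w)
        nlinarith
      have e4 : Real.log 2 ≤ 0.6932 := by
        have := Real.log_two_lt_d9
        linarith
      have hp : (1 / 2 : ℝ) ^ J ≤ 1 / 2 := by
        calc (1 / 2 : ℝ) ^ J ≤ (1 / 2 : ℝ) ^ 1 :=
              pow_le_pow_of_le_one (by norm_num) (by norm_num) hJ1
          _ = 1 / 2 := pow_one _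
      have e5 : (1 / 2 : ℝ) ^ J * (5 + s * ℓ) ≤ 2.5 + 5 * y := by
        calc (1 / 2 : ℝ) ^ J * (5 + s * ℓ) = (1 / 2 : ℝ) ^ J * 5 + ((1 / 2 : ℝ) ^ J * s) * ℓ := by
              ring
          _ ≤ 1 / 2 * 5 + w * (5 * Real.log n) := by gcongr
          _ = 2.5 + 5 * y := by rw [hy]; ring
      have e6 : (k : ℝ) = 5 + s * ℓ := by rw [hk]; push_cast; ring
      rw [e6] at hN2
      rw [hK, hKA] at hN2
      linarith
    -- the second factor
    have h2J0 : (0 : ℝ) < 2 ^ J := by positivity
    have h2J : (2 : ℝ) ^ J * (w + 1) ≤ 4 * s := by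
      have : (2 : ℝ) ^ J * (w + 1) ≤ (2 : ℝ) ^ J * (w + w) := by gcongr
      linarith
    have hJJ : (1 : ℝ) ≤ (J : ℝ) ^ 2 := one_le_pow₀ hJR
    have hcost : (costT w σ J (J - 1) : ℝ) + 4 * (w + 1) ≤ 4 * (2 ^ J * (w + 1)) + 24 * J ^ 2 * s := by
      have g1 := costT_le w s J σ hσ2 (J - 1) (by omega)
      have e1 : (2 : ℝ) ^ J = 2 * 2 ^ (J - 1) := by
        have : J = (J - 1) + 1 := by omega
        conv_lhs => rw [this, pow_succ]
        ring
      have e2 : (2 : ℝ) ^ (J - 1) * (1 / 2) ^ J = 1 / 2 := by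
        have g3 : (2 : ℝ) ^ J * (1 / 2) ^ J = 1 := by rw [← mul_pow]; norm_num
        rw [e1] at g3
        linarith
      have e3 : ((J - 1 : ℕ) : ℝ) = J - 1 := by
        rw [Nat.cast_sub hJ1]
        norm_num
      rw [e3] at g1
      refine g1.trans (le_of_eq ?_)
      calc (2 : ℝ) ^ (J - 1) * (8 * (w + 1) + (48 + 48 * ((J : ℝ) - 1)) * (J * (1 / 2) ^ J * s)) =
          4 * (2 * 2 ^ (J - 1)) * (w + 1) + 48 * J * J * s * (2 ^ (J - 1) * (1 / 2) ^ J) := by
            ring
        _ = _ := by rw [e2, ← e1]; ring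
    have hf2 : (costT w σ J (J - 1) : ℝ) + ((w + s) + (w + s)) ≤ 42 * (J ^ 2 * s) := by
      have g3 : (s : ℝ) ≤ J ^ 2 * s := by nlinarith
      nlinarith
    have hf3 : (J : ℝ) ^ 2 ≤ 2.1025 * (1 + Real.log (s / w)) ^ 2 := by
      calc (J : ℝ) ^ 2 ≤ (1.45 * (1 + Real.log (s / w))) ^ 2 := by gcongr
        _ = _ := by ring
    push_cast
    have hc0 : (0 : ℝ) ≤ costT w σ J (J - 1) := Nat.cast_nonneg _
    calc (N : ℝ) * (costT w σ J (J - 1) + ((w + s) + (w + s))) ≤
          (32 * y) * (42 * (J ^ 2 * s)) := by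
          gcongr
      _ ≤ (32 * y) * (42 * (2.1025 * (1 + Real.log (s / w)) ^ 2 * s)) := by gcongr
      _ = 2825.76 * (w * s * (1 + Real.log (s / w)) ^ 2 * Real.log n) := by rw [hy]; ring
      _ ≤ _ := by
        have : 0 ≤ w * s * (1 + Real.log ((s : ℝ) / w)) ^ 2 * Real.log n := by positivity
        linarith

end Pool.Agent.Lib.Pad9061
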