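import Pool.Agent.Lib.Pad9061.Base

set_option autoImplicit false

/-!
# Nested deferral: levels of reference blocks
-/

namespace Pool.Agent.Lib.Pad9061

open Finset

section

variable {V X : Type} [DecidableEq V] [DecidableEq X]

/-- `y` bounds the potential of the interval, the sum of its entropy and of its scaled length. -/
def Pot (wt : X → ℕ) (c : ℕ → Finset X) (s : ℕ) (𝓔 : Finset X) (κ : ℝ) (a b : ℕ) (y : ℝ) : Prop :=
  Up wt c s 𝓔 (Ioo a b) (y - κ * (Nat.clog 2 (b - a) : ℝ))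

variable {wt : X → ℕ} {c : ℕ → Finset X} {s : ℕ} {𝓔 : Finset X} {κ : ℝ}

theorem up_of_empty {J : Finset ℕ} (hJ : J = ∅) (x : ℝ) : Up wt c s 𝓔 J x := by
  subst hJ
  intro π hπ
  have := hπ.2
  simp at this

theorem Pot.of_short {a b : ℕ} (h : b ≤ a + 1) (y : ℝ) : Pot wt c s 𝓔 κ a b y := by
  apply up_of_empty
  rw [eq_empty_iff_forall_notMem]
  intro t ht
  have := mem_Ioo.1 ht
  omega

theorem Pot.mono {a b a' b' : ℕ} {y y' : ℝ} (hκ : 0 ≤ κ) (ha : a ≤ a') (hb : b' ≤ b) (hy : y ≤ y')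
    (h : Pot wt c s 𝓔 κ a b y) : Pot wt c s 𝓔 κ a' b' y' := by
  refine Up.mono ?_ ?_ h
  · intro t ht
    have := mem_Ioo.1 ht
    exact mem_Ioo.2 ⟨by omega, by omega⟩
  · have h1 : (Nat.clog 2 (b' - a') : ℝ) ≤ (Nat.clog 2 (b - a) : ℝ) := by
      exact_mod_cast Nat.clog_mono_right 2 (by omega)
    have h2 := mul_le_mul_of_nonneg_left h1 hκ
    linarith

theorem clog_half {m n : ℕ} (hm : 0 < m) (h : 2 * m ≤ n) : Nat.clog 2 m + 1 ≤ Nat.clog 2 n := by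
  have h1 : Nat.clog 2 (2 * m) ≤ Nat.clog 2 n := Nat.clog_mono_right 2 h
  have h2 : Nat.clog 2 (2 * m) = Nat.clog 2 m + 1 := by
    rw [Nat.clog_of_two_le (by norm_num) (by omega)]
    congr 2
    omega
  omega

theorem Pot.half {a b a' b' : ℕ} {y : ℝ} (hκ : 0 ≤ κ) (ha : a ≤ a') (hb : b' ≤ b) (hab : a' < b')
    (hlen : 2 * (b' - a') ≤ b - a) (h : Pot wt c s 𝓔 κ a b y) :
    Pot wt c s 𝓔 κ a' b' (y - κ) := by
  refine Up.mono ?_ ?_ h
  · intro t ht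
    have := mem_Ioo.1 ht
    exact mem_Ioo.2 ⟨by omega, by omega⟩
  · have h1 : (Nat.clog 2 (b' - a') : ℝ) + 1 ≤ (Nat.clog 2 (b - a) : ℝ) := by
      exact_mod_cast clog_half (by omega) hlen
    have h2 := mul_le_mul_of_nonneg_left h1 hκ
    rw [mul_add] at h2
    linarith

variable (S : Sys V X)

/-- The hypotheses on a level of the search. -/
structure Lev (c : ℕ → Finset X) (s : ℕ) (𝓔 : Finset X) (κ : ℝ) (J : ℕ) (a b : ℕ) (Z : Finset X)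
    (W : ℕ → ℝ) (ys : ℝ) (j : ℝ) (σ : ℕ) : Prop where
  avg : ∀ a' b', a ≤ a' → b' ≤ b → ∀ π, IsProb (Ioo a' b') π →
    ys - κ * (Nat.clog 2 (b' - a') : ℝ) < Hd S.wt c s 𝓔 (Ioo a' b') π →
    ∑ t ∈ Ioo a' b', π t * W t ≤ j
  small : ∀ t ∈ Ioo a b, W t ≤ J → sz S.wt (c t \ Z) ≤ σ

variable {S} in
theorem Lev.mono {J a b a' b' : ℕ} {Z : Finset X} {W : ℕ → ℝ} {ys j : ℝ} {σ : ℕ}
    (ha : a ≤ a') (hb : b' ≤ b) (h : Lev S c s 𝓔 κ J a b Z W ys j σ) :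
    Lev S c s 𝓔 κ J a' b' Z W ys j σ where
  avg := fun a'' b'' h1 h2 => h.avg a'' b'' (ha.trans h1) (h2.trans hb)
  small := fun t ht => h.small t (mem_Ioo.2 ⟨by have := (mem_Ioo.1 ht).1; omega,
    by have := (mem_Ioo.1 ht).2; omega⟩)

/-- The goal of a level of the search. -/
def LGoal (c : ℕ → Finset X) (s : ℕ) (𝓔 : Finset X) (κ : ℝ) (J : ℕ) (a b : ℕ) (Z : Finset X)
    (W : ℕ → ℝ) (y : ℝ) (ρ : PA V) : Prop :=
  ∃ a' b', a ≤ a' ∧ a' < b' ∧ b' ≤ b ∧ S.AllT ρ (c a' \ Z) ∧ S.SomeF ρ (c b' \ Z) ∧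
    Pot S.wt c s 𝓔 κ a' b' y ∧ (a' = a ∨ W a' ≤ J)

variable {S}

/-- One halving on the bottom level. -/
theorem bottom_step (hκ : 0 ≤ κ) {J a b : ℕ} {Z : Finset X} {W : ℕ → ℝ} {ys y y' : ℝ} {σ : ℕ}
    (hEv : ∀ t, a ≤ t → t ≤ b → S.Ev (c t))
    (hL : Lev S c s 𝓔 κ J a b Z W ys J σ) (hP : Pot S.wt c s 𝓔 κ a b y)
    (hy : y - κ ≤ y') (hys : ys ≤ y') {ρ : PA V} (hab : a < b)
    (hT : S.AllT ρ (c a \ Z)) (hF : S.SomeF ρ (c b \ Z)) :
    Solve (LGoal S c s 𝓔 κ J a b Z W y') ((S.e0 + σ) + (S.e0 + σ)) ρ := by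
  classical
  by_cases hshort : b ≤ a + 1
  · exact Solve.done ⟨a, b, le_rfl, hab, le_rfl, hT, hF, Pot.of_short hshort _, Or.inl rfl⟩
  push Not at hshort
  set μ := a + (b - a) / 2 with hμ
  have hμ1 : a < μ ∧ μ < b := by omega
  -- left neighbour
  obtain ⟨g1, h1a, h1μ, h1g, h1max⟩ : ∃ g1, a ≤ g1 ∧ g1 ≤ μ ∧ (g1 = a ∨ W g1 ≤ J) ∧
      ∀ t, g1 < t → t ≤ μ → ¬ W t ≤ J := by
    set G := (Icc a μ).filter (fun t => t = a ∨ W t ≤ J) with hG
    have hne : G.Nonempty := ⟨a, mem_filter.2 ⟨mem_Icc.2 ⟨le_rfl, hμ1.1.le⟩, Or.inl rfl⟩⟩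
    have hm := mem_filter.1 (G.max'_mem hne)
    have hm1 := mem_Icc.1 hm.1
    refine ⟨G.max' hne, hm1.1, hm1.2, hm.2, ?_⟩
    intro t ht1 ht2 hW
    have : t ∈ G := mem_filter.2 ⟨mem_Icc.2 ⟨by omega, ht2⟩, Or.inr hW⟩
    have := G.le_max' t this
    omega
  -- right neighbour
  obtain ⟨g2, h2b, h2μ, h2g, h2min⟩ : ∃ g2, g2 ≤ b ∧ μ < g2 ∧ (g2 = b ∨ W g2 ≤ J) ∧
      ∀ t, μ < t → t < g2 → ¬ W t ≤ J := by
    set G := (Ioc μ b).filter (fun t => t = b ∨ W t ≤ J) with hG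
    have hne : G.Nonempty := ⟨b, mem_filter.2 ⟨mem_Ioc.2 ⟨hμ1.2, le_rfl⟩, Or.inl rfl⟩⟩
    have hm := mem_filter.1 (G.min'_mem hne)
    have hm1 := mem_Ioc.1 hm.1
    refine ⟨G.min' hne, hm1.2, hm1.1, hm.2, ?_⟩
    intro t ht1 ht2 hW
    have : t ∈ G := mem_filter.2 ⟨mem_Ioc.2 ⟨ht1, by omega⟩, Or.inr hW⟩
    have := G.min'_le t this
    omega
  -- the middle interval has a drop
  have hmid : Pot S.wt c s 𝓔 κ g1 g2 y' := by
    refine Pot.mono hκ le_rfl le_rfl hys ?_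
    intro π hπ
    by_contra hcon
    push Not at hcon
    have h3 := hL.avg g1 g2 h1a h2b π hπ hcon
    have hbad : ∀ t ∈ Ioo g1 g2, (J : ℝ) < W t := by
      intro t ht
      have := mem_Ioo.1 ht
      by_contra h
      push Not at h
      rcases le_or_gt t μ with h4 | h4
      · exact h1max t this.1 h4 h
      · exact h2min t h4 this.2 h
    obtain ⟨t0, ht0, hpos⟩ : ∃ t ∈ Ioo g1 g2, 0 < π t := by
      by_contra h
      push Not at h
      have : ∑ t ∈ Ioo g1 g2, π t ≤ 0 := sum_nonpos h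
      rw [hπ.2] at this
      linarith
    have h4 : ∑ t ∈ Ioo g1 g2, π t * (J : ℝ) < ∑ t ∈ Ioo g1 g2, π t * W t :=
      sum_lt_sum (fun t ht => mul_le_mul_of_nonneg_left (hbad t ht).le (hπ.1 t))
        ⟨t0, ht0, mul_lt_mul_of_pos_left (hbad t0 ht0) hpos⟩
    rw [← sum_mul, hπ.2, one_mul] at h4
    linarith
  have hev1 : Solve (fun ρ' => S.AllT ρ' (c g1 \ Z) ∨ (a < g1 ∧ S.SomeF ρ' (c g1 \ Z)))
      (S.e0 + σ) ρ := by
    rcases h1g with h | h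
    · rw [h]; exact Solve.done (Or.inl hT)
    · by_cases hg : g1 = a
      · rw [hg]; exact Solve.done (Or.inl hT)
      · refine (S.eval' (S.Ev_sub sdiff_subset (hEv g1 h1a (by omega)))
          (hL.small g1 (mem_Ioo.2 ⟨by omega, by omega⟩) h) ρ).weaken fun ρ' _ h' => ?_
        exact h'.imp id fun h'' => ⟨by omega, h''⟩
  refine hev1.bind fun ρ1 he1 h1 => ?_
  rcases h1 with hT1 | ⟨hag, hF1⟩
  swap
  · exact Solve.done ⟨a, g1, le_rfl, hag, by omega, hT.mono he1, hF1,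
      (hP.half hκ le_rfl (by omega) hag (by omega)).mono hκ le_rfl le_rfl hy, Or.inl rfl⟩
  have hev2 : Solve (fun ρ' => (g2 < b ∧ S.AllT ρ' (c g2 \ Z) ∧ W g2 ≤ J) ∨ S.SomeF ρ' (c g2 \ Z))
      (S.e0 + σ) ρ1 := by
    rcases h2g with h | h
    · rw [h]; exact Solve.done (Or.inr (hF.mono he1))
    · by_cases hg : g2 = b
      · rw [hg]; exact Solve.done (Or.inr (hF.mono he1))
      · refine (S.eval' (S.Ev_sub sdiff_subset (hEv g2 (by omega) (by omega)))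
          (hL.small g2 (mem_Ioo.2 ⟨by omega, by omega⟩) h) ρ1).weaken fun ρ' _ h' => ?_
        exact h'.imp (fun h'' => ⟨by omega, h'', h⟩) id
  refine hev2.weaken fun ρ2 he2 h2 => ?_
  rcases h2 with ⟨hgb, hT2, hW2⟩ | hF2
  · exact ⟨g2, b, by omega, hgb, le_rfl, hT2, (hF.mono he1).mono he2,
      (hP.half hκ (by omega) le_rfl hgb (by omega)).mono hκ le_rfl le_rfl hy, Or.inr hW2⟩
  · exact ⟨g1, g2, h1a, by omega, h2b, hT1.mono he2, hF2, hmid, h1g⟩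

theorem LGoal.chain {J a b a1 b1 : ℕ} {Z : Finset X} {W : ℕ → ℝ} {y : ℝ} {ρ : PA V}
    (ha : a ≤ a1) (hb : b1 ≤ b) (hW : a1 = a ∨ W a1 ≤ J)
    (h : LGoal S c s 𝓔 κ J a1 b1 Z W y ρ) : LGoal S c s 𝓔 κ J a b Z W y ρ := by
  obtain ⟨a', b', h1, h2, h3, h4, h5, h6, h7⟩ := h
  refine ⟨a', b', ha.trans h1, h2, h3.trans hb, h4, h5, h6, ?_⟩
  rcases h7 with rfl | h7
  · exact hW
  · exact Or.inr h7

/-- The bottom level. -/
theorem bottom (hκ : 0 ≤ κ) {J a b : ℕ} {Z : Finset X} {W : ℕ → ℝ} {ys : ℝ} {σ : ℕ}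
    (hEv : ∀ t, a ≤ t → t ≤ b → S.Ev (c t))
    (hL : Lev S c s 𝓔 κ J a b Z W ys J σ) (hP : Pot S.wt c s 𝓔 κ a b (ys + 2 * κ))
    {ρ : PA V} (hab : a < b)
    (hT : S.AllT ρ (c a \ Z)) (hF : S.SomeF ρ (c b \ Z)) :
    Solve (LGoal S c s 𝓔 κ J a b Z W ys) (4 * (S.e0 + σ)) ρ := by
  have e : 4 * (S.e0 + σ) = ((S.e0 + σ) + (S.e0 + σ)) + ((S.e0 + σ) + (S.e0 + σ)) := by ring
  rw [e]
  refine (bottom_step hκ hEv hL hP (y' := ys + κ) (by linarith) (by linarith) hab hT hF).bind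
    fun ρ1 he1 h1 => ?_
  obtain ⟨a1, b1, h1, h2, h3, h4, h5, h6, h7⟩ := h1
  refine (bottom_step hκ (fun t ht1 ht2 => hEv t (by omega) (by omega)) (hL.mono h1 h3) h6
    (y' := ys) (by linarith) le_rfl h2 h4 h5).weaken fun ρ2 he2 h => ?_
  exact h.chain h1 h3 h7

/-- One round on a level. -/
theorem level_round (hκ : 0 ≤ κ) (hs : 0 < s) {J a b : ℕ} {Z : Finset X} {W : ℕ → ℝ}
    {ys y δ j : ℝ} {σ σ' cost : ℕ}
    (hδ : 0 < δ) (hW0 : ∀ t, 0 ≤ W t)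
    (hEv : ∀ t, a ≤ t → t ≤ b → S.Ev (c t) ∧ sz S.wt (c t) ≤ s ∧ c t ⊆ 𝓔)
    (hL : Lev S c s 𝓔 κ J a b Z W ys j σ) (hP : Pot S.wt c s 𝓔 κ a b y)
    (hys : ys ≤ y - δ) (hσ' : 3 * (J : ℝ) * δ * s ≤ σ')
    (sub : ∀ (Z' : Finset X) (W' : ℕ → ℝ) (ρ' : PA V), (∀ t, 0 ≤ W' t) →
      Lev S c s 𝓔 κ J a b Z' W' (y - δ) (j + 1) σ' →
      S.AllT ρ' (c a \ Z') → S.SomeF ρ' (c b \ Z') →
      Solve (LGoal S c s 𝓔 κ J a b Z' W' (y - δ)) cost ρ')
    {ρ : PA V} (hab : a < b) (hT : S.AllT ρ (c a \ Z)) (hF : S.SomeF ρ (c b \ Z)) :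
    Solve (LGoal S c s 𝓔 κ J a b Z W (y - δ)) (cost + (S.e0 + σ)) ρ := by
  classical
  by_cases hdrop : Pot S.wt c s 𝓔 κ a b (y - δ)
  · exact Solve.done ⟨a, b, le_rfl, hab, le_rfl, hT, hF, hdrop, Or.inl rfl⟩
  -- the minimal reference block
  have hex : ∃ θ, a < θ ∧ θ < b ∧ ¬ Pot S.wt c s 𝓔 κ a (θ + 1) (y - δ) := by
    refine ⟨b - 1, ?_, by omega, ?_⟩
    · by_contra h
      exact hdrop (Pot.of_short (by omega) _)
    · have : b - 1 + 1 = b := by omega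
      rw [this]
      exact hdrop
  obtain ⟨θ, ⟨ha, hb, hθ⟩, hmin⟩ :
      ∃ θ, (a < θ ∧ θ < b ∧ ¬ Pot S.wt c s 𝓔 κ a (θ + 1) (y - δ)) ∧
        ∀ t < θ, ¬ (a < t ∧ t < b ∧ ¬ Pot S.wt c s 𝓔 κ a (t + 1) (y - δ)) :=
    ⟨Nat.find hex, Nat.find_spec hex, fun t ht => Nat.find_min hex ht⟩
  -- falsity inside the reference block gives a drop
  have hleft : ∀ t' ∈ Ioc a θ, Pot S.wt c s 𝓔 κ a t' (y - δ) := by
    intro t' ht'
    obtain ⟨h1, h2⟩ := mem_Ioc.1 ht'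
    by_cases h3 : a < t' - 1
    · have h4 := hmin (t' - 1) (by omega)
      by_contra h
      apply h4
      refine ⟨h3, by omega, ?_⟩
      have : t' - 1 + 1 = t' := by omega
      rw [this]
      exact h
    · exact Pot.of_short (by omega) _
  have hleft' : ∀ (ρ' : PA V) (E : X), S.AllT ρ' (c a \ Z) → E ∈ (Ioc a θ).biUnion c → E ∉ Z →
      S.F ρ' E → LGoal S c s 𝓔 κ J a b Z W (y - δ) ρ' := by
    intro ρ' E hT' hE hEZ hFE
    obtain ⟨t', ht', hEt'⟩ := mem_biUnion.1 hE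
    have := mem_Ioc.1 ht'
    exact ⟨a, t', le_rfl, this.1, by omega, hT', ⟨E, mem_sdiff.2 ⟨hEt', hEZ⟩, hFE⟩,
      hleft t' ht', Or.inl rfl⟩
  obtain ⟨E0, hE0, hFE0⟩ := hF
  by_cases hocc : E0 ∈ (Ioc a θ).biUnion c
  · exact Solve.done (hleft' ρ E0 hT hocc (mem_sdiff.1 hE0).2 hFE0)
  set B := (Ioc a θ).biUnion c with hB
  set Z' := Z ∪ B with hZ'
  have hsR : (0 : ℝ) < s := by exact_mod_cast hs
  have h3 : (0 : ℝ) < 3 * δ * s := by positivity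
  set W' : ℕ → ℝ := fun t => W t + (sz S.wt (c t \ B) : ℝ) / (3 * δ * s) with hW'
  have hWW' : ∀ t, W t ≤ W' t := by
    intro t
    have : 0 ≤ (sz S.wt (c t \ B) : ℝ) / (3 * δ * s) := by positivity
    simp only [hW']
    linarith
  have hIoc : Ioc a θ = Ioo a (θ + 1) := by
    ext t
    simp only [mem_Ioc, mem_Ioo]
    omega
  have hL' : Lev S c s 𝓔 κ J a b Z' W' (y - δ) (j + 1) σ' := by
    refine ⟨?_, ?_⟩
    · intro a' b' ha' hb' π₂ h₂ e₂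
      have h4 := hL.avg a' b' ha' hb' π₂ h₂ (by linarith)
      have hθ' := hθ
      unfold Pot Up at hθ'
      push Not at hθ'
      obtain ⟨π₁, h₁, e₁⟩ := hθ'
      rw [← hIoc] at h₁ e₁
      have hc1 : (Nat.clog 2 (θ + 1 - a) : ℝ) ≤ (Nat.clog 2 (b - a) : ℝ) := by
        exact_mod_cast Nat.clog_mono_right 2 (by omega)
      have hc2 : (Nat.clog 2 (b' - a') : ℝ) ≤ (Nat.clog 2 (b - a) : ℝ) := by
        exact_mod_cast Nat.clog_mono_right 2 (by omega)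
      have hc1' := mul_le_mul_of_nonneg_left hc1 hκ
      have hc2' := mul_le_mul_of_nonneg_left hc2 hκ
      have hm := mixing (Z := 𝓔 \ B) (A := Ioc a θ) (J := Ioo a' b') (I := Ioo a b) (δ := δ)
        (by
          intro t ht
          have := mem_Ioc.1 ht
          exact mem_Ioo.2 ⟨this.1, by omega⟩)
        (by
          intro t ht
          have := mem_Ioo.1 ht
          exact mem_Ioo.2 ⟨by omega, by omega⟩)
        hP h₁ h₂ (by linarith) (by linarith) sdiff_subset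
        (by
          intro E hE t ht h
          exact (mem_sdiff.1 hE).2 (mem_biUnion.2 ⟨t, ht, h⟩))
      rw [sum_qd] at hm
      have h5 : ∑ t ∈ Ioo a' b', π₂ t * ((sz S.wt (c t \ B) : ℝ) / (3 * δ * s)) ≤ 1 := by
        have h6 : ∑ t ∈ Ioo a' b', π₂ t * ((sz S.wt (c t \ B) : ℝ) / (3 * δ * s)) =
            (∑ t ∈ Ioo a' b', π₂ t * ((sz S.wt ((𝓔 \ B) ∩ c t) : ℝ) / s)) / (3 * δ) := by
          rw [sum_div]
          refine sum_congr rfl fun t ht => ?_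
          have ht' := mem_Ioo.1 ht
          have e : (𝓔 \ B) ∩ c t = c t \ B := by
            ext E
            simp only [mem_inter, mem_sdiff]
            constructor
            · rintro ⟨⟨_, h⟩, h'⟩; exact ⟨h', h⟩
            · rintro ⟨h, h'⟩; exact ⟨⟨(hEv t (by omega) (by omega)).2.2 h, h'⟩, h⟩
          rw [e]
          field_simp
        rw [h6, div_le_one (by positivity)]
        exact hm
      calc ∑ t ∈ Ioo a' b', π₂ t * W' t = ∑ t ∈ Ioo a' b', π₂ t * W t +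
            ∑ t ∈ Ioo a' b', π₂ t * ((sz S.wt (c t \ B) : ℝ) / (3 * δ * s)) := by
            rw [← sum_add_distrib]
            refine sum_congr rfl fun t _ => ?_
            simp only [hW']
            ring
        _ ≤ j + 1 := by linarith
    · intro t ht hWt
      have h4 : (sz S.wt (c t \ B) : ℝ) / (3 * δ * s) ≤ J := by
        have := hW0 t
        simp only [hW'] at hWt
        linarith
      rw [div_le_iff₀ h3] at h4
      have h5 : (sz S.wt (c t \ B) : ℝ) ≤ σ' := by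
        calc _ ≤ _ := h4
          _ = 3 * (J : ℝ) * δ * s := by ring
          _ ≤ _ := hσ'
      have h6 : sz S.wt (c t \ B) ≤ σ' := by exact_mod_cast h5
      exact (sz_mono (sdiff_subset_sdiff (subset_refl _) subset_union_right)).trans h6
  have hZsub : ∀ Y : Finset X, Y \ Z' ⊆ Y \ Z := fun Y =>
    sdiff_subset_sdiff (subset_refl _) subset_union_left
  refine (sub Z' W' ρ (fun t => (hW0 t).trans (hWW' t)) hL' (fun x hx => hT x (hZsub _ hx))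
    ⟨E0, mem_sdiff.2 ⟨(mem_sdiff.1 hE0).1, ?_⟩, hFE0⟩).bind fun ρ1 he1 h1 => ?_
  · rw [hZ', mem_union]
    rintro (h | h)
    · exact (mem_sdiff.1 hE0).2 h
    · exact hocc h
  obtain ⟨a', b', h1, h2, h3, h4, h5, h6, h7⟩ := h1
  by_cases haa : a' = a
  · subst haa
    exact Solve.done ⟨a', b', le_rfl, h2, h3, hT.mono he1, h5.sub (hZsub _), h6, Or.inl rfl⟩
  have hWa : W a' ≤ J := (hWW' a').trans (h7.resolve_left haa)
  refine (S.eval' (S.Ev_sub sdiff_subset (hEv a' h1 (by omega)).1)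
    (hL.small a' (mem_Ioo.2 ⟨by omega, by omega⟩) hWa) ρ1).weaken fun ρ2 he2 h8 => ?_
  rcases h8 with hT2 | ⟨E1, hE1, hFE1⟩
  · exact ⟨a', b', h1, h2, h3, hT2, (h5.sub (hZsub _)).mono he2, h6, Or.inr hWa⟩
  · refine hleft' ρ2 E1 (hT.mono (he1.trans he2)) ?_ (mem_sdiff.1 hE1).2 hFE1
    by_contra h
    have h9 : E1 ∈ c a' \ Z' := by
      refine mem_sdiff.2 ⟨(mem_sdiff.1 hE1).1, ?_⟩
      rw [hZ', mem_union]
      rintro (h' | h')
      · exact (mem_sdiff.1 hE1).2 h'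
      · exact h h'
    exact S.excl (S.T_mono he2 (h4 E1 h9)) hFE1

/-- Cost of a level. -/
def costL (e0 : ℕ) (σ : ℕ → ℕ) (J : ℕ) : ℕ → ℕ
  | 0 => 4 * (e0 + σ J)
  | d + 1 => 2 * (costL e0 σ J d + (e0 + σ (J - (d + 1))))

/-- The search on a level. -/
theorem level (hκ : 0 ≤ κ) (hs : 0 < s) {J : ℕ} (hJ : (1 / 2 : ℝ) ^ J ≤ κ) (σ : ℕ → ℕ)
    (hσ : ∀ j, 1 ≤ j → 6 * (J : ℝ) * (1 / 2) ^ j * s ≤ σ j) :
    ∀ (d j : ℕ), 1 ≤ j → j + d = J → ∀ (a b : ℕ) (Z : Finset X) (W : ℕ → ℝ) (ys : ℝ) (ρ : PA V),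
    (∀ t, 0 ≤ W t) →
    (∀ t, a ≤ t → t ≤ b → S.Ev (c t) ∧ sz S.wt (c t) ≤ s ∧ c t ⊆ 𝓔) →
    Lev S c s 𝓔 κ J a b Z W ys j (σ j) → Pot S.wt c s 𝓔 κ a b (ys + 2 * (1 / 2) ^ j) →
    a < b → S.AllT ρ (c a \ Z) → S.SomeF ρ (c b \ Z) →
    Solve (LGoal S c s 𝓔 κ J a b Z W ys) (costL S.e0 σ J d) ρ := by
  intro d
  induction d with
  | zero =>
    intro j hj hjd a b Z W ys ρ hW0 hEv hL hP hab hT hF
    have hjJ : j = J := by omega
    subst hjJ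
    exact bottom hκ (fun t h1 h2 => (hEv t h1 h2).1) hL
      (hP.mono hκ le_rfl le_rfl (by linarith)) hab hT hF
  | succ d ih =>
    intro j hj hjd a b Z W ys ρ hW0 hEv hL hP hab hT hF
    have hJd : J - (d + 1) = j := by omega
    show Solve _ (2 * (costL S.e0 σ J d + (S.e0 + σ (J - (d + 1))))) ρ
    rw [hJd, two_mul]
    set δ : ℝ := (1 / 2) ^ j with hδ
    have hδ0 : 0 < δ := by positivity
    have hδ1 : 2 * (1 / 2 : ℝ) ^ (j + 1) = δ := by rw [hδ, pow_succ]; ring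
    have hstep : ∀ (a1 b1 : ℕ) (y : ℝ) (ρ1 : PA V), a ≤ a1 → b1 ≤ b → a1 < b1 → ys ≤ y - δ →
        Pot S.wt c s 𝓔 κ a1 b1 y → S.AllT ρ1 (c a1 \ Z) → S.SomeF ρ1 (c b1 \ Z) →
        Solve (LGoal S c s 𝓔 κ J a1 b1 Z W (y - δ)) (costL S.e0 σ J d + (S.e0 + σ j)) ρ1 := by
      intro a1 b1 y ρ1 ha1 hb1 hab1 hy hP1 hT1 hF1
      have hEv1 : ∀ t, a1 ≤ t → t ≤ b1 → S.Ev (c t) ∧ sz S.wt (c t) ≤ s ∧ c t ⊆ 𝓔 :=
        fun t h1 h2 => hEv t (by omega) (by omega)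
      refine level_round hκ hs hδ0 hW0 hEv1 (hL.mono ha1 hb1) hP1 hy
        (σ' := σ (j + 1)) ?_ ?_ hab1 hT1 hF1
      · have := hσ (j + 1) (by omega)
        calc 3 * (J : ℝ) * δ * s = 6 * (J : ℝ) * (1 / 2) ^ (j + 1) * s := by rw [← hδ1]; ring
          _ ≤ _ := this
      · intro Z' W' ρ' hW0' hL' hT' hF'
        have hcast : ((j : ℝ) + 1) = ((j + 1 : ℕ) : ℝ) := by push_cast; ring
        rw [hcast] at hL'
        refine ih (j + 1) (by omega) (by omega) a1 b1 Z' W' (y - δ) ρ' hW0' hEv1 hL' ?_ hab1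
          hT' hF'
        rw [hδ1]
        exact hP1.mono hκ le_rfl le_rfl (by linarith)
    refine (hstep a b (ys + 2 * δ) ρ le_rfl le_rfl hab (by linarith) hP hT hF).bind
      fun ρ1 he1 h1 => ?_
    obtain ⟨a1, b1, h1, h2, h3, h4, h5, h6, h7⟩ := h1
    refine (hstep a1 b1 (ys + 2 * δ - δ) ρ1 h1 h3 h2 (by linarith) h6 h4 h5).weaken
      fun ρ2 he2 h => ?_
    have e : ys + 2 * δ - δ - δ = ys := by ring
    rw [e] at h
    exact h.chain h1 h3 h7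

/-- The search on the top level. -/
theorem top_level (hκ : 0 ≤ κ) (hs : 0 < s) {J : ℕ} (hJ1 : 1 ≤ J) (hJ : (1 / 2 : ℝ) ^ J ≤ κ)
    (σ : ℕ → ℕ) (hσ : ∀ j, 1 ≤ j → 6 * (J : ℝ) * (1 / 2) ^ j * s ≤ σ j) :
    ∀ (N a b : ℕ) (y : ℝ) (ρ : PA V), y < N →
    (∀ t, a ≤ t → t ≤ b → S.Ev (c t) ∧ sz S.wt (c t) ≤ s ∧ c t ⊆ 𝓔) →
    Pot S.wt c s 𝓔 κ a b y → a < b → S.AllT ρ (c a) → S.SomeF ρ (c b) →
    Solve (fun ρ' => ∃ t, a ≤ t ∧ t < b ∧ S.AllT ρ' (c t) ∧ S.SomeF ρ' (c (t + 1)))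
      (N * (costL S.e0 σ J (J - 1) + (S.e0 + s))) ρ := by
  intro N
  induction N with
  | zero =>
    intro a b y ρ hy hEv hP hab hT hF
    have h0 : (0 : ℝ) ≤ κ * (Nat.clog 2 (b - a) : ℝ) := by positivity
    have h1 : Ioo a b = ∅ := eq_empty_of_up (x := y - κ * (Nat.clog 2 (b - a) : ℝ))
      (by push_cast at hy; linarith)
      (fun t ht => by
        have := mem_Ioo.1 ht
        exact (hEv t this.1.le this.2.le).2.1) hP
    have h2 : b = a + 1 := by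
      by_contra hne
      have : a + 1 ∈ Ioo a b := mem_Ioo.2 ⟨by omega, by omega⟩
      rw [h1] at this
      simp at this
    subst h2
    exact Solve.done ⟨a, le_rfl, by omega, hT, hF⟩
  | succ N ih =>
    intro a b y ρ hy hEv hP hab hT hF
    have e : (N + 1) * (costL S.e0 σ J (J - 1) + (S.e0 + s)) =
        (costL S.e0 σ J (J - 1) + (S.e0 + s)) + N * (costL S.e0 σ J (J - 1) + (S.e0 + s)) := by
      ring
    rw [e]
    have hL : Lev S c s 𝓔 κ J a b ∅ (fun _ => 0) (y - 1) 0 s := by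
      refine ⟨?_, ?_⟩
      · intro a' b' _ _ π _ _
        simp
      · intro t ht _
        have := mem_Ioo.1 ht
        rw [sdiff_empty]
        exact (hEv t (by omega) (by omega)).2.1
    refine (level_round (δ := 1) (ys := y - 1) (σ' := σ 1) hκ hs one_pos (fun _ => le_rfl) hEv hL
      hP le_rfl ?_ ?_ hab (by rw [sdiff_empty]; exact hT) (by rw [sdiff_empty]; exact hF)).bind
      fun ρ1 he1 h1 => ?_
    · have := hσ 1 le_rfl
      calc 3 * (J : ℝ) * 1 * s = 6 * (J : ℝ) * (1 / 2) ^ 1 * s := by ring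
        _ ≤ _ := this
    · intro Z' W' ρ' hW0' hL' hT' hF'
      have hcast : ((0 : ℝ) + 1) = ((1 : ℕ) : ℝ) := by push_cast; ring
      rw [hcast] at hL'
      refine level hκ hs hJ σ hσ (J - 1) 1 le_rfl (by omega) a b Z' W' (y - 1) ρ' hW0' hEv hL' ?_
        hab hT' hF'
      exact hP.mono hκ le_rfl le_rfl (by norm_num)
    · obtain ⟨a', b', h1, h2, h3, h4, h5, h6, h7⟩ := h1
      rw [sdiff_empty] at h4 h5
      refine (ih a' b' (y - 1) ρ1 (by push_cast at hy; linarith)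
        (fun t ht1 ht2 => hEv t (by omega) (by omega)) h6 h2 h4 h5).weaken fun ρ2 _ h => ?_
      obtain ⟨t, t1, t2, t3, t4⟩ := h
      exact ⟨t, by omega, by omega, t3, t4⟩

end

end Pool.Agent.Lib.Pad9061
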