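import Pool.Agent.Lib.Pad9061.Nest
import Pool.Agent.Lib.Pad9061.Bounds

set_option autoImplicit false

/-!
# The bound from nested deferral
-/

namespace Pool.Agent.Lib.Pad9061

open Finset

section

variable {V X : Type} [DecidableEq V] [DecidableEq X] (S : Sys V X)

open Classical in
/-- The bound from nested deferral. -/
theorem pathCost_nested {𝓔 : Finset X} {s k J N : ℕ} {κ : ℝ} (hκ : 0 ≤ κ) (hs : 0 < s)
    (h𝓔 : 𝓔.Nonempty) (hJ1 : 1 ≤ J) (hJ : (1 / 2 : ℝ) ^ J ≤ κ)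
    (σ : ℕ → ℕ) (hσ : ∀ j, 1 ≤ j → 6 * (J : ℝ) * (1 / 2) ^ j * s ≤ σ j)
    (hcount : ((𝓔.powerset).filter (fun Y => S.Ev Y ∧ sz S.wt Y ≤ s)).card ≤ 2 ^ k)
    (hN : Real.log 𝓔.card + 1 + κ * k < N) :
    PathCost S 𝓔 s (N * (costL S.e0 σ J (J - 1) + (S.e0 + s))) := by
  apply pathCost_of_inj
  intro c m ρ hinj hc hT hF
  have hm : m < 2 ^ k := length_lt S hcount hinj hc
  by_cases hm0 : m = 0
  · exfalso
    subst hm0
    obtain ⟨y, hy, hyF⟩ := hF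
    exact S.excl (hT y hy) hyF
  refine (top_level (S := S) (c := c) hκ hs hJ1 hJ σ hσ N 0 m _ ρ hN (fun t _ ht => hc t ht) ?_
    (by omega) hT hF).weaken fun ρ' _ h => ?_
  · refine Up.mono (subset_refl _) ?_ (up_init S c h𝓔 (Ioo 0 m) (fun t ht => ?_))
    · have h1 : (Nat.clog 2 (m - 0) : ℝ) ≤ k := by
        exact_mod_cast Nat.clog_le_of_le_pow (by omega)
      have h2 := mul_le_mul_of_nonneg_left h1 hκ
      linarith
    · have := mem_Ioo.1 ht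
      exact (hc t this.2.le).2.1
  · obtain ⟨t, -, t2, t3⟩ := h
    exact ⟨t, t2, t3⟩

theorem costL_le (e0 s J : ℕ) (σ : ℕ → ℕ)
    (hσ : ∀ j, (σ j : ℝ) ≤ 6 * (J : ℝ) * (1 / 2) ^ j * s + 1) :
    ∀ d : ℕ, d ≤ J → (costL e0 σ J d : ℝ) + 2 * (e0 + 1) ≤
      2 ^ d * (6 * (e0 + 1) + (24 + 12 * d) * (J * (1 / 2) ^ J * s)) := by
  intro d
  induction d with
  | zero =>
    intro _
    have h := hσ J
    simp only [costL]
    push_cast
    rw [pow_zero]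
    nlinarith
  | succ d ih =>
    intro hd
    have h1 := ih (by omega)
    have h := hσ (J - (d + 1))
    have hp : (1 / 2 : ℝ) ^ (J - (d + 1)) = 2 ^ (d + 1) * (1 / 2) ^ J := by
      have : J = (J - (d + 1)) + (d + 1) := by omega
      conv_rhs => rw [this, pow_add]
      have h2 : (2 : ℝ) ^ (d + 1) * (1 / 2) ^ (d + 1) = 1 := by
        rw [← mul_pow]; norm_num
      calc (1 / 2 : ℝ) ^ (J - (d + 1)) = (1 / 2) ^ (J - (d + 1)) * (2 ^ (d + 1) * (1 / 2) ^ (d + 1)) := by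
            rw [h2, mul_one]
        _ = _ := by ring
    rw [hp] at h
    simp only [costL]
    push_cast
    have e1 : (2 : ℝ) ^ (d + 1) * (6 * (e0 + 1) + (24 + 12 * (d + 1)) * (J * (1 / 2) ^ J * s)) =
        2 * (2 ^ d * (6 * (e0 + 1) + (24 + 12 * d) * (J * (1 / 2) ^ J * s))) +
          2 * (6 * J * (2 ^ (d + 1) * (1 / 2) ^ J) * s) := by
      rw [pow_succ]
      ring
    rw [e1]
    linarith

open Classical in
/-- The bound from nested deferral, explicit form. -/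
theorem pathCost_main {𝓔 : Finset X} {s k J : ℕ} (hs : 0 < s) (h𝓔 : 𝓔.Nonempty) (hJ1 : 1 ≤ J)
    (hcount : ((𝓔.powerset).filter (fun Y => S.Ev Y ∧ sz S.wt Y ≤ s)).card ≤ 2 ^ k) :
    ∃ D : ℕ, PathCost S 𝓔 s D ∧
      (D : ℝ) ≤ (Real.log 𝓔.card + 2 + (1 / 2) ^ J * k) *
        (12 * J ^ 2 * s + 3 * 2 ^ J * (S.e0 + 1) + (S.e0 + s)) := by
  set σ : ℕ → ℕ := fun j => ⌈6 * (J : ℝ) * (1 / 2) ^ j * s⌉₊ with hσ
  have hσ1 : ∀ j, 6 * (J : ℝ) * (1 / 2) ^ j * s ≤ σ j := fun j => Nat.le_ceil _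
  have hσ2 : ∀ j, (σ j : ℝ) ≤ 6 * (J : ℝ) * (1 / 2) ^ j * s + 1 := fun j =>
    (Nat.ceil_lt_add_one (by positivity)).le
  have hlog : 0 ≤ Real.log 𝓔.card := Real.log_natCast_nonneg _
  set N := ⌊Real.log 𝓔.card + 1 + (1 / 2 : ℝ) ^ J * k⌋₊ + 1 with hN
  have hN1 : Real.log 𝓔.card + 1 + (1 / 2 : ℝ) ^ J * k < N := by
    rw [hN]; push_cast; exact Nat.lt_floor_add_one _
  have hN2 : (N : ℝ) ≤ Real.log 𝓔.card + 2 + (1 / 2 : ℝ) ^ J * k := by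
    have : (⌊Real.log 𝓔.card + 1 + (1 / 2 : ℝ) ^ J * k⌋₊ : ℝ) ≤
        Real.log 𝓔.card + 1 + (1 / 2 : ℝ) ^ J * k := Nat.floor_le (by positivity)
    rw [hN]; push_cast
    linarith
  refine ⟨_, pathCost_nested S (κ := (1 / 2 : ℝ) ^ J) (by positivity) hs h𝓔 hJ1 le_rfl σ
    (fun j _ => hσ1 j) hcount hN1, ?_⟩
  have h1 := costL_le S.e0 s J σ hσ2 (J - 1) (by omega)
  have hJ' : (J : ℝ) = ((J - 1 : ℕ) : ℝ) + 1 := by
    have : J = (J - 1) + 1 := by omega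
    exact_mod_cast this
  have hJR : (1 : ℝ) ≤ J := by exact_mod_cast hJ1
  have h2 : (2 : ℝ) ^ (J - 1) * (6 * (S.e0 + 1) + (24 + 12 * ((J - 1 : ℕ) : ℝ)) *
      (J * (1 / 2) ^ J * s)) = 3 * 2 ^ J * (S.e0 + 1) + 6 * (J + 1) * J * s := by
    have e1 : (2 : ℝ) ^ J = 2 * 2 ^ (J - 1) := by
      have : J = (J - 1) + 1 := by omega
      conv_lhs => rw [this, pow_succ]
      ring
    have e2 : (2 : ℝ) ^ (J - 1) * (1 / 2) ^ J = 1 / 2 := by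
      have h3 : (2 : ℝ) ^ J * (1 / 2) ^ J = 1 := by rw [← mul_pow]; norm_num
      rw [e1] at h3
      linarith
    have e3 : ((J - 1 : ℕ) : ℝ) = J - 1 := by linarith
    rw [e3, e1]
    calc (2 : ℝ) ^ (J - 1) * (6 * (S.e0 + 1) + (24 + 12 * ((J : ℝ) - 1)) * (J * (1 / 2) ^ J * s)) =
        6 * 2 ^ (J - 1) * (S.e0 + 1) + (12 + 12 * J) * J * s * (2 ^ (J - 1) * (1 / 2) ^ J) := by
          ring
      _ = _ := by rw [e2]; ring
  rw [h2] at h1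
  have h3 : (costL S.e0 σ J (J - 1) : ℝ) ≤ 12 * J ^ 2 * s + 3 * 2 ^ J * (S.e0 + 1) := by
    have h4 : 6 * ((J : ℝ) + 1) * J * s ≤ 12 * J ^ 2 * s := by
      have : 6 * ((J : ℝ) + 1) * J ≤ 12 * J ^ 2 := by nlinarith
      gcongr
    have h5 : (0 : ℝ) ≤ 2 * (S.e0 + 1) := by positivity
    linarith
  push_cast
  have h6 : (0 : ℝ) ≤ costL S.e0 σ J (J - 1) + (S.e0 + s) := by positivity
  calc (N : ℝ) * (costL S.e0 σ J (J - 1) + (S.e0 + s)) ≤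
      (Real.log 𝓔.card + 2 + (1 / 2 : ℝ) ^ J * k) * (costL S.e0 σ J (J - 1) + (S.e0 + s)) := by
        gcongr
    _ ≤ _ := by
      gcongr

end

/-- The number of levels. -/
theorem exists_levels {s w : ℕ} (hw : 1 ≤ w) (hws : w ≤ s) : ∃ J : ℕ, 1 ≤ J ∧
    (1 / 2 : ℝ) ^ J * s ≤ w ∧ (2 : ℝ) ^ J * w ≤ 2 * s ∧
    (J : ℝ) ≤ 1.45 * (1 + Real.log (s / w)) := by
  have hq : s / w ≠ 0 := by
    have := Nat.div_pos hws (by omega)
    omega
  have hwR : (0 : ℝ) < w := by exact_mod_cast hw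
  refine ⟨Nat.log 2 (s / w) + 1, by omega, ?_, ?_, ?_⟩
  · have h1 : s / w < 2 ^ (Nat.log 2 (s / w) + 1) := Nat.lt_pow_succ_log_self (by norm_num) _
    have h2 : s < 2 ^ (Nat.log 2 (s / w) + 1) * w := (Nat.div_lt_iff_lt_mul (by omega)).1 h1
    have h3 : (s : ℝ) ≤ 2 ^ (Nat.log 2 (s / w) + 1) * w := by exact_mod_cast h2.le
    have h4 : (0 : ℝ) < (1 / 2) ^ (Nat.log 2 (s / w) + 1) := by positivity
    have h5 := mul_le_mul_of_nonneg_left h3 h4.le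
    rw [← mul_assoc, ← mul_pow] at h5
    simpa using h5
  · have h1 : 2 ^ Nat.log 2 (s / w) ≤ s / w := Nat.pow_log_le_self 2 hq
    have h2 : 2 ^ Nat.log 2 (s / w) * w ≤ s :=
      (Nat.mul_le_mul_right w h1).trans (Nat.div_mul_le_self s w)
    have h3 : (2 : ℝ) ^ Nat.log 2 (s / w) * w ≤ s := by exact_mod_cast h2
    rw [pow_succ]
    linarith
  · have h1 : 2 ^ Nat.log 2 (s / w) ≤ s / w := Nat.pow_log_le_self 2 hq
    have h2 : ((2 ^ Nat.log 2 (s / w) : ℕ) : ℝ) ≤ (s : ℝ) / w :=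
      (Nat.cast_le.2 h1).trans Nat.cast_div_le
    push_cast at h2
    have h3 : Real.log ((2 : ℝ) ^ Nat.log 2 (s / w)) ≤ Real.log ((s : ℝ) / w) :=
      Real.log_le_log (by positivity) h2
    rw [Real.log_pow] at h3
    have h4 := Real.log_two_gt_d9
    have h5 : (0 : ℝ) ≤ Nat.log 2 (s / w) := by positivity
    have h6 : (1 : ℝ) ≤ (s : ℝ) / w := by
      rw [le_div_iff₀ hwR, one_mul]
      exact_mod_cast hws
    have h7 : 0 ≤ Real.log ((s : ℝ) / w) := Real.log_nonneg h6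
    push_cast
    nlinarith

/-- Depth at most `800 w s (1 + log (s / w)) ^ 2 log n`, path version. -/
theorem nested_bound_aux {n s w : ℕ} (hn : 2 ≤ n) (hw : 1 ≤ w) (hws : w ≤ s) :
    ∃ D : ℕ, PathCost (clauseSys (Fin n))
      ((univ : Finset (Clause (Fin n))).filter (fun C => C.card ≤ w)) s D ∧
      (D : ℝ) ≤ 800 * (w * s * (1 + Real.log (s / w)) ^ 2 * Real.log n) := by
  set 𝓔 := (univ : Finset (Clause (Fin n))).filter (fun C => C.card ≤ w) with h𝓔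
  have h𝓔ne : 𝓔.Nonempty := ⟨∅, mem_filter.2 ⟨mem_univ _, by simp⟩⟩
  have hs : 1 ≤ s := hw.trans hws
  have hl := log_ge hn
  have hwR : (1 : ℝ) ≤ w := by exact_mod_cast hw
  have hsR : (1 : ℝ) ≤ s := by exact_mod_cast hs
  have hwsR : (w : ℝ) ≤ s := by exact_mod_cast hws
  obtain ⟨ℓ, hℓ1, hℓ2⟩ := exists_bits hn
  obtain ⟨J, hJ1, hJ2, hJ3, hJ4⟩ := exists_levels hw hws
  obtain ⟨D, hD1, hD2⟩ := pathCost_main (clauseSys (Fin n)) (𝓔 := 𝓔) (s := s) (k := 5 + s * ℓ)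
    (J := J) (by omega) h𝓔ne hJ1 (count_clause_configs n (by omega) s ℓ hℓ1 𝓔)
  refine ⟨D, hD1, hD2.trans ?_⟩
  have he0 : (clauseSys (Fin n)).e0 = 0 := rfl
  rw [he0]
  push_cast
  have hJR : (1 : ℝ) ≤ J := by exact_mod_cast hJ1
  set y : ℝ := w * Real.log n with hy
  have hy1 : w ≤ 1.5 * y := by rw [hy]; nlinarith
  -- the first factor
  have hf1 : Real.log 𝓔.card + 2 + (1 / 2 : ℝ) ^ J * (5 + s * ℓ) ≤ 20 * y := by
    have h1 : Real.log 𝓔.card + 1 ≤ 5 * y := log_card_le hn hw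
    have hp : (1 / 2 : ℝ) ^ J ≤ 1 := pow_le_one₀ (by norm_num) (by norm_num)
    have h2 : (1 / 2 : ℝ) ^ J * (5 + s * ℓ) ≤ 5 + 5 * y := by
      calc (1 / 2 : ℝ) ^ J * (5 + s * ℓ) = (1 / 2 : ℝ) ^ J * 5 + ((1 / 2 : ℝ) ^ J * s) * ℓ := by ring
        _ ≤ 1 * 5 + w * (5 * Real.log n) := by gcongr
        _ = 5 + 5 * y := by rw [hy]; ring
    linarith
  -- the second factor
  have h2J : (2 : ℝ) ^ J ≤ 2 * s := by
    have : (2 : ℝ) ^ J * 1 ≤ (2 : ℝ) ^ J * w := by gcongr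
    linarith
  have hJJ : (1 : ℝ) ≤ (J : ℝ) ^ 2 := one_le_pow₀ hJR
  have hf2 : 12 * (J : ℝ) ^ 2 * s + 3 * 2 ^ J * (0 + 1) + (0 + s) ≤ 19 * (J ^ 2 * s) := by
    have h3 : (s : ℝ) ≤ J ^ 2 * s := by nlinarith
    linarith
  have hf3 : (J : ℝ) ^ 2 ≤ 2.1025 * (1 + Real.log (s / w)) ^ 2 := by
    calc (J : ℝ) ^ 2 ≤ (1.45 * (1 + Real.log (s / w))) ^ 2 := by gcongr
      _ = _ := by ring
  have hy0 : 0 ≤ y := by rw [hy]; positivity
  calc (Real.log 𝓔.card + 2 + (1 / 2 : ℝ) ^ J * (5 + s * ℓ)) *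
        (12 * (J : ℝ) ^ 2 * s + 3 * 2 ^ J * (0 + 1) + (0 + s)) ≤ (20 * y) * (19 * (J ^ 2 * s)) := by
        gcongr
    _ ≤ (20 * y) * (19 * (2.1025 * (1 + Real.log (s / w)) ^ 2 * s)) := by gcongr
    _ = 798.95 * (w * s * (1 + Real.log (s / w)) ^ 2 * Real.log n) := by rw [hy]; ring
    _ ≤ _ := by
      have : 0 ≤ w * s * (1 + Real.log ((s : ℝ) / w)) ^ 2 * Real.log n := by positivity
      linarith

/-- Depth at most `800 w s (1 + log (s / w)) ^ 2 log n`. -/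
theorem nested_bound {n s w : ℕ} (hn : 2 ≤ n) (hw : 1 ≤ w) (hws : w ≤ s)
    {F : Finset (Clause (Fin n))} (hF : SpaceWidth F s w) :
    ∃ D : ℕ, DepthAtMost F D ∧
      (D : ℝ) ≤ 800 * (w * s * (1 + Real.log (s / w)) ^ 2 * Real.log n) := by
  obtain ⟨D, h1, h2⟩ := nested_bound_aux hn hw hws
  exact ⟨D, depth_of_pathCost h1 hF, h2⟩

end Pool.Agent.Lib.Pad9061
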