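import Mathlib

set_option autoImplicit false

/-!
# The entropy potential of a path of weighted sets
-/

namespace Pool.Agent.Lib.Pad9061

open Finset
open Real (negMulLog negMulLog_zero negMulLog_nonneg)

section

variable {X : Type} [DecidableEq X]

/-- `π` is a probability distribution on the set of times `J`. -/
def IsProb (J : Finset ℕ) (π : ℕ → ℝ) : Prop := (∀ t, 0 ≤ π t) ∧ ∑ t ∈ J, π t = 1

/-- The probability of the item `E` if a time is drawn from `π` and then an item of that time is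
drawn with probability proportional to its weight. -/
noncomputable def qd (wt : X → ℕ) (c : ℕ → Finset X) (s : ℕ) (J : Finset ℕ) (π : ℕ → ℝ) (E : X) : ℝ :=
  ∑ t ∈ J, π t * (if E ∈ c t then (wt E : ℝ) / s else 0)

/-- The entropy of the item drawn. -/
noncomputable def Hd (wt : X → ℕ) (c : ℕ → Finset X) (s : ℕ) (𝓔 : Finset X) (J : Finset ℕ)
    (π : ℕ → ℝ) : ℝ := ∑ E ∈ 𝓔, negMulLog (qd wt c s J π E)

/-- `x` bounds all entropies over `J`. -/
def Up (wt : X → ℕ) (c : ℕ → Finset X) (s : ℕ) (𝓔 : Finset X) (J : Finset ℕ) (x : ℝ) : Prop :=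
  ∀ π, IsProb J π → Hd wt c s 𝓔 J π ≤ x

/-- Total weight of a set of items. -/
def sz (wt : X → ℕ) (Y : Finset X) : ℕ := ∑ x ∈ Y, wt x

variable {wt : X → ℕ} {c : ℕ → Finset X} {s : ℕ} {𝓔 : Finset X}

omit [DecidableEq X] in
theorem sz_mono {Y Y' : Finset X} (h : Y ⊆ Y') : sz wt Y ≤ sz wt Y' := sum_le_sum_of_subset h

theorem qd_nonneg {J : Finset ℕ} {π : ℕ → ℝ} (hπ : ∀ t, 0 ≤ π t) (E : X) :
    0 ≤ qd wt c s J π E := by
  unfold qd
  refine sum_nonneg fun t _ => mul_nonneg (hπ t) ?_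
  split_ifs <;> positivity

/-- The total mass of a set of items. -/
theorem sum_qd (J : Finset ℕ) (π : ℕ → ℝ) (Z : Finset X) :
    ∑ E ∈ Z, qd wt c s J π E = ∑ t ∈ J, π t * ((sz wt (Z ∩ c t) : ℝ) / s) := by
  unfold qd
  rw [sum_comm]
  refine sum_congr rfl fun t _ => ?_
  rw [← mul_sum]
  congr 1
  rw [← sum_filter, filter_mem_eq_inter]
  unfold sz
  push_cast
  rw [sum_div]

theorem sum_qd_le_one {J : Finset ℕ} {π : ℕ → ℝ}
    (hπ : IsProb J π) (hc : ∀ t ∈ J, sz wt (c t) ≤ s) (Z : Finset X) :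
    ∑ E ∈ Z, qd wt c s J π E ≤ 1 := by
  rw [sum_qd, ← hπ.2]
  refine sum_le_sum fun t ht => ?_
  have h1 : (sz wt (Z ∩ c t) : ℝ) ≤ s := by
    exact_mod_cast (sz_mono inter_subset_right).trans (hc t ht)
  have h2 : (sz wt (Z ∩ c t) : ℝ) / s ≤ 1 := div_le_one_of_le₀ h1 (by positivity)
  calc π t * ((sz wt (Z ∩ c t) : ℝ) / s) ≤ π t * 1 := mul_le_mul_of_nonneg_left h2 (hπ.1 t)
    _ = π t := mul_one _

theorem qd_le_one {J : Finset ℕ} {π : ℕ → ℝ} (hπ : IsProb J π)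
    (hc : ∀ t ∈ J, sz wt (c t) ≤ s) (E : X) : qd wt c s J π E ≤ 1 := by
  have := sum_qd_le_one hπ hc {E}
  simpa using this

theorem Hd_nonneg {J : Finset ℕ} {π : ℕ → ℝ} (hπ : IsProb J π)
    (hc : ∀ t ∈ J, sz wt (c t) ≤ s) : 0 ≤ Hd wt c s 𝓔 J π :=
  sum_nonneg fun E _ => negMulLog_nonneg (qd_nonneg hπ.1 E) (qd_le_one hπ hc E)

theorem Hd_le {J : Finset ℕ} {π : ℕ → ℝ} (hπ : IsProb J π)
    (hc : ∀ t ∈ J, sz wt (c t) ≤ s) (h𝓔 : 𝓔.Nonempty) :
    Hd wt c s 𝓔 J π ≤ Real.log 𝓔.card + 1 := by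
  have hN : (0 : ℝ) < 𝓔.card := by exact_mod_cast h𝓔.card_pos
  have key : ∀ E ∈ 𝓔, negMulLog (qd wt c s J π E) ≤
      qd wt c s J π E * Real.log 𝓔.card + (1 / 𝓔.card - qd wt c s J π E) := by
    intro E _
    set q := qd wt c s J π E with hq
    have hq0 : 0 ≤ q := qd_nonneg hπ.1 E
    rcases hq0.eq_or_lt with h | h
    · rw [← h]
      simp only [negMulLog_zero, zero_mul, zero_add, sub_zero]
      positivity
    · have h1 : Real.log (1 / (q * 𝓔.card)) ≤ 1 / (q * 𝓔.card) - 1 :=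
        Real.log_le_sub_one_of_pos (by positivity)
      rw [Real.log_div one_ne_zero (by positivity), Real.log_one, zero_sub,
        Real.log_mul h.ne' hN.ne'] at h1
      have h2 : q * (-(Real.log q + Real.log 𝓔.card)) ≤ q * (1 / (q * 𝓔.card) - 1) :=
        mul_le_mul_of_nonneg_left h1 h.le
      have h3 : q * (1 / (q * 𝓔.card) - 1) = 1 / 𝓔.card - q := by
        field_simp
      rw [h3] at h2
      unfold negMulLog
      linarith
  calc Hd wt c s 𝓔 J π ≤ ∑ E ∈ 𝓔, (qd wt c s J π E * Real.log 𝓔.card +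
        (1 / 𝓔.card - qd wt c s J π E)) := sum_le_sum key
    _ = (∑ E ∈ 𝓔, qd wt c s J π E) * Real.log 𝓔.card + (1 - ∑ E ∈ 𝓔, qd wt c s J π E) := by
      rw [sum_add_distrib, ← sum_mul, sum_sub_distrib, sum_const, nsmul_eq_mul]
      field_simp
    _ ≤ 1 * Real.log 𝓔.card + 1 := by
      have h1 := sum_qd_le_one hπ hc 𝓔
      have h2 : 0 ≤ ∑ E ∈ 𝓔, qd wt c s J π E := sum_nonneg fun E _ => qd_nonneg hπ.1 E
      have h3 : 0 ≤ Real.log 𝓔.card := Real.log_nonneg (by exact_mod_cast h𝓔.card_pos)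
      have h4 := mul_le_mul_of_nonneg_right h1 h3
      linarith
    _ = _ := by ring

theorem Up.mono {J J' : Finset ℕ} (h : J ⊆ J') {x y : ℝ} (hxy : x ≤ y)
    (hU : Up wt c s 𝓔 J' x) : Up wt c s 𝓔 J y := by
  intro π hπ
  set π' : ℕ → ℝ := fun t => if t ∈ J then π t else 0 with hπ'
  have h1 : ∀ t, 0 ≤ π' t := by
    intro t
    simp only [hπ']
    split_ifs
    · exact hπ.1 t
    · exact le_rfl
  have h2 : IsProb J' π' := by
    refine ⟨h1, ?_⟩
    rw [← hπ.2, ← sum_subset h]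
    · exact sum_congr rfl fun t ht => by simp [hπ', ht]
    · intro t _ ht; simp [hπ', ht]
  have h3 : Hd wt c s 𝓔 J' π' = Hd wt c s 𝓔 J π := by
    unfold Hd
    refine sum_congr rfl fun E _ => ?_
    congr 1
    unfold qd
    rw [← sum_subset h]
    · exact sum_congr rfl fun t ht => by simp [hπ', ht]
    · intro t _ ht; simp [hπ', ht]
  rw [← h3]
  exact (hU π' h2).trans hxy

/-- If the potential bound is negative then the set of times is empty. -/
theorem eq_empty_of_up {J : Finset ℕ} {x : ℝ} (hx : x < 0) (hc : ∀ t ∈ J, sz wt (c t) ≤ s)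
    (hU : Up wt c s 𝓔 J x) : J = ∅ := by
  by_contra hne
  obtain ⟨t0, ht0⟩ := Finset.nonempty_iff_ne_empty.2 hne
  have h1 : IsProb J (fun t => if t = t0 then 1 else 0) := by
    refine ⟨fun t => ?_, ?_⟩
    · show (0 : ℝ) ≤ if t = t0 then 1 else 0
      split_ifs <;> norm_num
    · rw [sum_ite_eq' J t0, if_pos ht0]
  have h2 := hU _ h1
  have h3 := Hd_nonneg (𝓔 := 𝓔) h1 hc
  linarith

/-- The mixing lemma: two sets of times of nearly maximal entropy have nearly the same items. -/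
theorem mixing {I A J : Finset ℕ} {x δ : ℝ} (hA : A ⊆ I) (hJ : J ⊆ I)
    (hU : Up wt c s 𝓔 I x) {π₁ π₂ : ℕ → ℝ} (h₁ : IsProb A π₁) (h₂ : IsProb J π₂)
    (e₁ : x - δ < Hd wt c s 𝓔 A π₁) (e₂ : x - δ < Hd wt c s 𝓔 J π₂)
    {Z : Finset X} (hZ : Z ⊆ 𝓔) (hZA : ∀ E ∈ Z, ∀ t ∈ A, E ∉ c t) :
    ∑ E ∈ Z, qd wt c s J π₂ E ≤ 3 * δ := by
  set π : ℕ → ℝ := fun t => (1 / 2) * (if t ∈ A then π₁ t else 0) +
    (1 / 2) * (if t ∈ J then π₂ t else 0) with hπ
  have hsum : ∀ (f : ℕ → ℝ), ∑ t ∈ I, π t * f t =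
      (1 / 2) * ∑ t ∈ A, π₁ t * f t + (1 / 2) * ∑ t ∈ J, π₂ t * f t := by
    intro f
    have e1 : ∑ t ∈ A, π₁ t * f t = ∑ t ∈ I, (if t ∈ A then π₁ t else 0) * f t := by
      rw [← sum_subset hA]
      · exact sum_congr rfl fun t ht => by simp [ht]
      · intro t _ ht; simp [ht]
    have e2 : ∑ t ∈ J, π₂ t * f t = ∑ t ∈ I, (if t ∈ J then π₂ t else 0) * f t := by
      rw [← sum_subset hJ]
      · exact sum_congr rfl fun t ht => by simp [ht]
      · intro t _ ht; simp [ht]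
    rw [e1, e2, mul_sum, mul_sum, ← sum_add_distrib]
    refine sum_congr rfl fun t _ => ?_
    simp only [hπ]
    ring
  have hprob : IsProb I π := by
    refine ⟨?_, ?_⟩
    · intro t
      simp only [hπ]
      have a1 := h₁.1 t
      have a2 := h₂.1 t
      split_ifs <;> nlinarith
    · have := hsum (fun _ => 1)
      simp only [mul_one] at this
      rw [this, h₁.2, h₂.2]; norm_num
  have hq : ∀ E, qd wt c s I π E = (1 / 2) * qd wt c s A π₁ E + (1 / 2) * qd wt c s J π₂ E :=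
    fun E => hsum _
  have hqZ : ∀ E ∈ Z, qd wt c s A π₁ E = 0 := by
    intro E hE
    unfold qd
    refine sum_eq_zero fun t ht => ?_
    simp [hZA E hE t ht]
  have hconc : ∀ E, (1 / 2) * negMulLog (qd wt c s A π₁ E) + (1 / 2) * negMulLog (qd wt c s J π₂ E) ≤
      negMulLog (qd wt c s I π E) := by
    intro E
    rw [hq E]
    have h5 : qd wt c s A π₁ E ∈ Set.Ici (0 : ℝ) := qd_nonneg h₁.1 E
    have h6 : qd wt c s J π₂ E ∈ Set.Ici (0 : ℝ) := qd_nonneg h₂.1 E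
    have := Real.concaveOn_negMulLog.2 h5 h6
      (show (0 : ℝ) ≤ 1 / 2 by norm_num) (show (0 : ℝ) ≤ 1 / 2 by norm_num) (by norm_num)
    simpa only [smul_eq_mul] using this
  have hgain : ∀ E ∈ Z, (1 / 2) * negMulLog (qd wt c s A π₁ E) +
      (1 / 2) * negMulLog (qd wt c s J π₂ E) + qd wt c s J π₂ E * (Real.log 2 / 2) ≤
      negMulLog (qd wt c s I π E) := by
    intro E hE
    rw [hq E, hqZ E hE]
    simp only [negMulLog_zero, mul_zero, zero_add]
    set q := qd wt c s J π₂ E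
    have hq0 : 0 ≤ q := qd_nonneg h₂.1 E
    rcases hq0.eq_or_lt with h | h
    · rw [← h]; simp
    · unfold negMulLog
      rw [Real.log_mul (by norm_num) h.ne', one_div, Real.log_inv]
      nlinarith
  have hU' := hU π hprob
  have hsplit : (1 / 2) * Hd wt c s 𝓔 A π₁ + (1 / 2) * Hd wt c s 𝓔 J π₂ +
      (∑ E ∈ Z, qd wt c s J π₂ E) * (Real.log 2 / 2) ≤ Hd wt c s 𝓔 I π := by
    unfold Hd
    rw [mul_sum, mul_sum, ← sum_add_distrib, sum_mul]
    have e1 : ∑ E ∈ Z, qd wt c s J π₂ E * (Real.log 2 / 2) =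
        ∑ E ∈ 𝓔, if E ∈ Z then qd wt c s J π₂ E * (Real.log 2 / 2) else 0 := by
      rw [← sum_filter, filter_mem_eq_inter, inter_eq_right.2 hZ]
    rw [e1, ← sum_add_distrib]
    refine sum_le_sum fun E _ => ?_
    by_cases hEZ : E ∈ Z
    · simp only [hEZ, if_true]
      exact hgain E hEZ
    · simp only [hEZ, if_false, add_zero]
      exact hconc E
  have hm0 : 0 ≤ ∑ E ∈ Z, qd wt c s J π₂ E := sum_nonneg fun E _ => qd_nonneg h₂.1 E
  have hlog : (2 / 3 : ℝ) < Real.log 2 := by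
    have := Real.log_two_gt_d9
    linarith
  nlinarith

/-- A set of times of nearly maximal entropy contains a time with few fresh items. -/
theorem exists_good {I A J : Finset ℕ} {x δ : ℝ} (hs : 0 < s) (hA : A ⊆ I) (hJ : J ⊆ I)
    (hU : Up wt c s 𝓔 I x) (hUA : ¬ Up wt c s 𝓔 A (x - δ)) (hUJ : ¬ Up wt c s 𝓔 J (x - δ))
    (hc : ∀ t ∈ J, c t ⊆ 𝓔) :
    ∃ t ∈ J, (sz wt (c t \ (A.biUnion c)) : ℝ) ≤ 3 * δ * s := by
  unfold Up at hUA hUJ
  push Not at hUA hUJ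
  obtain ⟨π₁, h₁, e₁⟩ := hUA
  obtain ⟨π₂, h₂, e₂⟩ := hUJ
  have hm := mixing (Z := 𝓔 \ (A.biUnion c)) hA hJ hU h₁ h₂ e₁ e₂ sdiff_subset
    (by
      intro E hE t ht h
      exact (mem_sdiff.1 hE).2 (mem_biUnion.2 ⟨t, ht, h⟩))
  by_contra hcon
  push Not at hcon
  rw [sum_qd] at hm
  have hne : J.Nonempty := by
    rw [Finset.nonempty_iff_ne_empty]
    rintro rfl
    have := h₂.2
    simp at this
  have hsR : (0 : ℝ) < s := by exact_mod_cast hs
  have hterm : ∀ t ∈ J, π₂ t * (3 * δ) ≤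
      π₂ t * ((sz wt ((𝓔 \ (A.biUnion c)) ∩ c t) : ℝ) / s) := by
    intro t ht
    have e : (𝓔 \ (A.biUnion c)) ∩ c t = c t \ (A.biUnion c) := by
      ext E
      simp only [mem_inter, mem_sdiff]
      constructor
      · rintro ⟨⟨_, h⟩, h'⟩; exact ⟨h', h⟩
      · rintro ⟨h, h'⟩; exact ⟨⟨hc t ht h, h'⟩, h⟩
    rw [e]
    refine mul_le_mul_of_nonneg_left ?_ (h₂.1 t)
    rw [le_div_iff₀ hsR]
    exact (hcon t ht).le
  -- some time has positive probability, so the inequality is strict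
  obtain ⟨t0, ht0, hpos⟩ : ∃ t ∈ J, 0 < π₂ t := by
    by_contra h
    push Not at h
    have : ∑ t ∈ J, π₂ t ≤ 0 := sum_nonpos h
    rw [h₂.2] at this
    linarith
  have hlt : ∑ t ∈ J, π₂ t * (3 * δ) < ∑ t ∈ J, π₂ t *
      ((sz wt ((𝓔 \ (A.biUnion c)) ∩ c t) : ℝ) / s) := by
    refine sum_lt_sum hterm ⟨t0, ht0, ?_⟩
    have e : (𝓔 \ (A.biUnion c)) ∩ c t0 = c t0 \ (A.biUnion c) := by
      ext E
      simp only [mem_inter, mem_sdiff]
      constructor
      · rintro ⟨⟨_, h⟩, h'⟩; exact ⟨h', h⟩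
      · rintro ⟨h, h'⟩; exact ⟨⟨hc t0 ht0 h, h'⟩, h⟩
    rw [e]
    refine mul_lt_mul_of_pos_left ?_ hpos
    rw [lt_div_iff₀ hsR]
    exact hcon t0 ht0
  rw [← sum_mul, h₂.2, one_mul] at hlt
  linarith

end

end Pool.Agent.Lib.Pad9061
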