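import Pool.Agent.Lib.Pad9061.Tree
import Pool.Agent.Lib.Pad9061.Potential

set_option autoImplicit false

/-!
# One phase of the search
-/

namespace Pool.Agent.Lib.Pad9061

open Finset

/-- Abstract items with a weight, whose truth value can be found out by queries. -/
structure Sys (V X : Type) [DecidableEq V] [DecidableEq X] where
  wt : X → ℕ
  T : PA V → X → Prop
  F : PA V → X → Prop
  T_mono : ∀ {ρ ρ' : PA V} {x : X}, Ext ρ ρ' → T ρ x → T ρ' x
  F_mono : ∀ {ρ ρ' : PA V} {x : X}, Ext ρ ρ' → F ρ x → F ρ' x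
  excl : ∀ {ρ : PA V} {x : X}, T ρ x → F ρ x → False
  e0 : ℕ
  Ev : Finset X → Prop
  Ev_sub : ∀ {Y Y' : Finset X}, Y' ⊆ Y → Ev Y → Ev Y'
  eval : ∀ Y, Ev Y → ∀ ρ, Solve (fun ρ' => ∀ x ∈ Y, T ρ' x ∨ F ρ' x) (e0 + sz wt Y) ρ

section

variable {V X : Type} [DecidableEq V] [DecidableEq X] (S : Sys V X)

/-- All items are known to be true. -/
def Sys.AllT (ρ : PA V) (Y : Finset X) : Prop := ∀ x ∈ Y, S.T ρ x

/-- Some item is known to be false. -/
def Sys.SomeF (ρ : PA V) (Y : Finset X) : Prop := ∃ x ∈ Y, S.F ρ x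

variable {S}

theorem Sys.AllT.mono {ρ ρ' : PA V} (h : Ext ρ ρ') {Y : Finset X} (hY : S.AllT ρ Y) :
    S.AllT ρ' Y := fun x hx => S.T_mono h (hY x hx)

theorem Sys.SomeF.mono {ρ ρ' : PA V} (h : Ext ρ ρ') {Y : Finset X} (hY : S.SomeF ρ Y) :
    S.SomeF ρ' Y := by
  obtain ⟨x, hx, hF⟩ := hY
  exact ⟨x, hx, S.F_mono h hF⟩

theorem Sys.SomeF.sub {ρ : PA V} {Y Y' : Finset X} (h : Y ⊆ Y') (hY : S.SomeF ρ Y) :
    S.SomeF ρ Y' := by
  obtain ⟨x, hx, hF⟩ := hY
  exact ⟨x, h hx, hF⟩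

theorem Sys.eval' {Y : Finset X} {s : ℕ} (hY : S.Ev Y) (hs : sz S.wt Y ≤ s) (ρ : PA V) :
    Solve (fun ρ' => S.AllT ρ' Y ∨ S.SomeF ρ' Y) (S.e0 + s) ρ := by
  refine ((S.eval Y hY ρ).mono (by omega)).weaken fun ρ' _ h => ?_
  by_cases hall : ∀ x ∈ Y, S.T ρ' x
  · exact Or.inl hall
  · push Not at hall
    obtain ⟨x, hx, hT⟩ := hall
    exact Or.inr ⟨x, hx, (h x hx).resolve_left hT⟩

/-- Increasing enumeration of a finite set of natural numbers. -/
theorem exists_enum (W : Finset ℕ) (θ b : ℕ) (hθ : θ ∈ W) (hb : b ∈ W) (hmin : ∀ t ∈ W, θ ≤ t)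
    (hmax : ∀ t ∈ W, t ≤ b) :
    ∃ (xs : ℕ → ℕ) (p : ℕ), xs 0 = θ ∧ xs p = b ∧ (∀ i < p, xs i < xs (i + 1)) ∧
      (∀ i ≤ p, xs i ∈ W) ∧ ∀ i < p, ∀ t ∈ W, ¬ (xs i < t ∧ t < xs (i + 1)) := by
  classical
  set k := W.card with hk
  have hk0 : 0 < k := card_pos.2 ⟨θ, hθ⟩
  set e := W.orderEmbOfFin rfl with he
  have hmem : ∀ i, e i ∈ W := fun i => orderEmbOfFin_mem W rfl i
  have hsurj : ∀ t ∈ W, ∃ i, e i = t := by
    intro t ht
    have : t ∈ Set.range e := by rw [he, range_orderEmbOfFin]; exact ht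
    exact this
  have h0 : e ⟨0, hk0⟩ = θ := by
    obtain ⟨i, hi⟩ := hsurj θ hθ
    apply le_antisymm
    · rw [← hi]
      exact e.monotone (Fin.mk_le_of_le_val (Nat.zero_le _))
    · exact hmin _ (hmem _)
  have hl : e ⟨k - 1, by omega⟩ = b := by
    obtain ⟨i, hi⟩ := hsurj b hb
    apply le_antisymm
    · exact hmax _ (hmem _)
    · rw [← hi]
      apply e.monotone
      have := i.2
      exact Fin.mk_le_mk.2 (by omega)
  refine ⟨fun i => if h : i < k then e ⟨i, h⟩ else 0, k - 1, ?_, ?_, ?_, ?_, ?_⟩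
  · simp only [hk0, dif_pos]; exact h0
  · have : k - 1 < k := by omega
    simp only [this, dif_pos]; exact hl
  · intro i hi
    have h1 : i < k := by omega
    have h2 : i + 1 < k := by omega
    simp only [h1, h2, dif_pos]
    exact e.strictMono (Fin.mk_lt_mk.2 (by omega))
  · intro i hi
    have h1 : i < k := by omega
    simp only [h1, dif_pos]
    exact hmem _
  · intro i hi t ht
    have h1 : i < k := by omega
    have h2 : i + 1 < k := by omega
    simp only [h1, h2, dif_pos]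
    rintro ⟨h3, h4⟩
    obtain ⟨j, rfl⟩ := hsurj t ht
    have h5 := e.lt_iff_lt.1 h3
    have h6 := e.lt_iff_lt.1 h4
    have h7 : i < j.val := h5
    have h8 : j.val < i + 1 := h6
    omega

/-- One phase of the search. -/
theorem phase (S : Sys V X) (c : ℕ → Finset X) {s s' csub : ℕ} (hs : 0 < s) {𝓔 : Finset X}
    {a b : ℕ}
    (hEv : ∀ t, a ≤ t → t ≤ b → S.Ev (c t) ∧ sz S.wt (c t) ≤ s ∧ c t ⊆ 𝓔)
    {x δ : ℝ} (hs' : 3 * δ * s ≤ s') (hE : ∀ E ∈ 𝓔, S.wt E ≤ s')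
    (hU : Up S.wt c s 𝓔 (Ioo a b) x) (Q : ℕ → ℕ → Prop)
    (hsub : ∀ (xs : ℕ → ℕ) (p : ℕ) (d : ℕ → Finset X), (∀ i < p, xs i < xs (i + 1)) →
      a ≤ xs 0 → xs p ≤ b → (∀ i ≤ p, S.Ev (d i) ∧ sz S.wt (d i) ≤ s' ∧ d i ⊆ 𝓔) → ∀ ρ',
      S.AllT ρ' (d 0) → S.SomeF ρ' (d p) →
        Solve (fun ρ'' => ∃ i j, i < j ∧ j ≤ p ∧ S.AllT ρ'' (d i) ∧ S.SomeF ρ'' (d j) ∧
          (j = i + 1 ∨ Q (xs i) (xs j))) csub ρ')
    {ρ : PA V} (hab : a < b) (hT : S.AllT ρ (c a)) (hF : S.SomeF ρ (c b)) :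
    Solve (fun ρ' => ∃ a' b', a ≤ a' ∧ a' < b' ∧ b' ≤ b ∧ S.AllT ρ' (c a') ∧ S.SomeF ρ' (c b') ∧
      (Up S.wt c s 𝓔 (Ioo a' b') (x - δ) ∨ Q a' b')) (S.e0 + s + (csub + (S.e0 + s))) ρ := by
  classical
  by_cases hdrop : Up S.wt c s 𝓔 (Ioo a b) (x - δ)
  · exact Solve.done ⟨a, b, le_rfl, hab, le_rfl, hT, hF, Or.inl hdrop⟩
  have hempty : ∀ J : Finset ℕ, J = ∅ → Up S.wt c s 𝓔 J (x - δ) := by
    rintro J rfl π hπ
    have := hπ.2
    simp at this
  -- the minimal reference block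
  have hex : ∃ θ, a < θ ∧ θ < b ∧ ¬ Up S.wt c s 𝓔 (Ioc a θ) (x - δ) := by
    refine ⟨b - 1, ?_, by omega, ?_⟩
    · by_contra h
      apply hdrop
      apply hempty
      rw [eq_empty_iff_forall_notMem]
      intro t ht
      have := mem_Ioo.1 ht
      omega
    · intro h
      apply hdrop
      have : Ioo a b = Ioc a (b - 1) := by
        ext t
        simp only [mem_Ioo, mem_Ioc]
        omega
      rw [this]
      exact h
  obtain ⟨θ, ⟨ha, hb, hθ⟩, hmin⟩ :
      ∃ θ, (a < θ ∧ θ < b ∧ ¬ Up S.wt c s 𝓔 (Ioc a θ) (x - δ)) ∧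
        ∀ t < θ, ¬ (a < t ∧ t < b ∧ ¬ Up S.wt c s 𝓔 (Ioc a t) (x - δ)) :=
    ⟨Nat.find hex, Nat.find_spec hex, fun t ht => Nat.find_min hex ht⟩
  -- falsity inside the reference block gives a drop
  have hleft : ∀ t' ∈ Ioc a θ, Up S.wt c s 𝓔 (Ioo a t') (x - δ) := by
    intro t' ht'
    obtain ⟨h1, h2⟩ := mem_Ioc.1 ht'
    by_cases h3 : a < t' - 1
    · have h4 := hmin (t' - 1) (by omega)
      have h5 : Up S.wt c s 𝓔 (Ioc a (t' - 1)) (x - δ) := by
        by_contra h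
        exact h4 ⟨h3, by omega, h⟩
      refine h5.mono ?_ le_rfl
      intro t ht
      have := mem_Ioo.1 ht
      exact mem_Ioc.2 ⟨this.1, by omega⟩
    · apply hempty
      rw [eq_empty_iff_forall_notMem]
      intro t ht
      have := mem_Ioo.1 ht
      omega
  have hθE := hEv θ ha.le hb.le
  refine (S.eval' hθE.1 hθE.2.1 ρ).bind fun ρ1 he1 h1 => ?_
  rcases h1 with hTθ | hFθ
  swap
  · exact Solve.done ⟨a, θ, le_rfl, ha, hb.le, hT.mono he1, hFθ,
      Or.inl (hleft θ (mem_Ioc.2 ⟨ha, le_rfl⟩))⟩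
  obtain ⟨E0, hE0, hFE0⟩ := hF.mono he1
  by_cases hocc : E0 ∈ (Ioc a θ).biUnion c
  · obtain ⟨t', ht', hEt'⟩ := mem_biUnion.1 hocc
    have := mem_Ioc.1 ht'
    exact Solve.done ⟨a, t', le_rfl, this.1, by omega, hT.mono he1, ⟨E0, hEt', hFE0⟩,
      Or.inl (hleft t' ht')⟩
  -- the good times
  set Gd := (Ioo θ b).filter (fun t => (sz S.wt (c t \ ((Ioc a θ).biUnion c)) : ℝ) ≤ 3 * δ * s)
    with hGd
  obtain ⟨xs, p, hx0, hxp, hxs, hxW, hxc⟩ := exists_enum (insert θ (insert b Gd)) θ b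
    (mem_insert_self _ _) (mem_insert_of_mem (mem_insert_self _ _))
    (by
      intro t ht
      rcases mem_insert.1 ht with rfl | ht
      · exact le_rfl
      rcases mem_insert.1 ht with rfl | ht
      · exact hb.le
      · exact (mem_Ioo.1 (mem_filter.1 ht).1).1.le)
    (by
      intro t ht
      rcases mem_insert.1 ht with rfl | ht
      · exact hb.le
      rcases mem_insert.1 ht with rfl | ht
      · exact le_rfl
      · exact (mem_Ioo.1 (mem_filter.1 ht).1).2.le)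
  set d : ℕ → Finset X := fun i => if xs i = b then {E0} else c (xs i) \ ((Ioc a θ).biUnion c)
    with hd
  have hmono : ∀ i j, i ≤ j → j ≤ p → xs i ≤ xs j := by
    intro i j hij
    induction j, hij using Nat.le_induction with
    | base => intro _; exact le_rfl
    | succ j hj ih => intro hjp; exact (ih (by omega)).trans (hxs j (by omega)).le
  have hlt : ∀ i j, i < j → j ≤ p → xs i < xs j := by
    intro i j hij hjp
    exact lt_of_lt_of_le (hxs i (by omega)) (hmono (i + 1) j hij hjp)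
  have hθocc : c θ \ ((Ioc a θ).biUnion c) = ∅ := by
    rw [sdiff_eq_empty_iff_subset]
    intro E hE
    exact mem_biUnion.2 ⟨θ, mem_Ioc.2 ⟨ha, le_rfl⟩, hE⟩
  have hdEv : ∀ i ≤ p, S.Ev (d i) ∧ sz S.wt (d i) ≤ s' ∧ d i ⊆ 𝓔 := by
    intro i hi
    by_cases hib : xs i = b
    · have hdi : d i = {E0} := by simp only [hd, hib, if_true]
      rw [hdi]
      have hbE := hEv b hab.le le_rfl
      refine ⟨S.Ev_sub (singleton_subset_iff.2 hE0) hbE.1, ?_,
        (singleton_subset_iff.2 hE0).trans hbE.2.2⟩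
      simp only [sz, sum_singleton]
      exact hE E0 (hbE.2.2 hE0)
    · have hdi : d i = c (xs i) \ ((Ioc a θ).biUnion c) := by simp only [hd, hib, if_false]
      rw [hdi]
      have hW := hxW i hi
      have hrange : θ ≤ xs i ∧ xs i ≤ b := by
        constructor
        · rw [← hx0]; exact hmono 0 i (Nat.zero_le _) hi
        · rw [← hxp]; exact hmono i p hi le_rfl
      have hcE := hEv (xs i) (by omega) hrange.2
      refine ⟨S.Ev_sub sdiff_subset hcE.1, ?_, sdiff_subset.trans hcE.2.2⟩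
      rcases mem_insert.1 hW with h | h
      · rw [h, hθocc]; simp [sz]
      rcases mem_insert.1 h with h | h
      · exact absurd h hib
      · have h2 := (mem_filter.1 h).2
        have h3 : (sz S.wt (c (xs i) \ ((Ioc a θ).biUnion c)) : ℝ) ≤ s' := h2.trans hs'
        exact_mod_cast h3
  have hd0 : d 0 = ∅ := by
    simp only [hd, hx0]
    rw [if_neg hb.ne, hθocc]
  have hdp : d p = {E0} := by simp only [hd, hxp, if_true]
  have hsolve := hsub xs p d hxs (by rw [hx0]; exact ha.le) hxp.le hdEv ρ1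
    (by rw [hd0]; intro y hy; simp at hy)
    (by rw [hdp]; exact ⟨E0, mem_singleton_self _, hFE0⟩)
  refine hsolve.bind fun ρ2 he2 h2 => ?_
  obtain ⟨i, j, hij, hjp, hTi, hFj, hQ⟩ := h2
  have hxij := hlt i j hij hjp
  have hxib : xs i ≠ b := by
    have : xs j ≤ b := by rw [← hxp]; exact hmono j p hjp le_rfl
    omega
  have hdi : d i = c (xs i) \ ((Ioc a θ).biUnion c) := by simp only [hd, hxib, if_false]
  have hrangei : θ ≤ xs i ∧ xs i ≤ b := by
    constructor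
    · rw [← hx0]; exact hmono 0 i (Nat.zero_le _) (by omega)
    · rw [← hxp]; exact hmono i p (by omega) le_rfl
  have hrangej : xs j ≤ b := by rw [← hxp]; exact hmono j p hjp le_rfl
  have hFcj : S.SomeF ρ2 (c (xs j)) := by
    by_cases hjb : xs j = b
    · rw [hjb]; exact ⟨E0, hE0, S.F_mono he2 hFE0⟩
    · have hdj : d j = c (xs j) \ ((Ioc a θ).biUnion c) := by simp only [hd, hjb, if_false]
      rw [hdj] at hFj
      exact hFj.sub sdiff_subset
  have hciE := hEv (xs i) (by omega) hrangei.2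
  refine (S.eval' hciE.1 hciE.2.1 ρ2).weaken fun ρ3 he3 h3 => ?_
  rcases h3 with hTci | hFci
  · refine ⟨xs i, xs j, by omega, hxij, hrangej, hTci, hFcj.mono he3, ?_⟩
    rcases hQ with rfl | hQ
    · left
      by_contra hUJ
      obtain ⟨t, ht, htg⟩ := exists_good (s := s) (A := Ioc a θ) (J := Ioo (xs i) (xs (i + 1))) hs
        (by
          intro t ht
          have := mem_Ioc.1 ht
          exact mem_Ioo.2 ⟨this.1, by omega⟩)
        (by
          intro t ht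
          have := mem_Ioo.1 ht
          exact mem_Ioo.2 ⟨by omega, by omega⟩)
        hU hθ hUJ
        (by
          intro t ht
          have := mem_Ioo.1 ht
          exact (hEv t (by omega) (by omega)).2.2)
      have ht' := mem_Ioo.1 ht
      apply hxc i (by omega) t
        (mem_insert_of_mem (mem_insert_of_mem (mem_filter.2 ⟨mem_Ioo.2 ⟨by omega, by omega⟩, htg⟩)))
      exact ht'
    · exact Or.inr hQ
  · obtain ⟨E1, hE1, hFE1⟩ := hFci
    have hE1occ : E1 ∈ (Ioc a θ).biUnion c := by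
      by_contra h
      have h4 : E1 ∈ d i := by rw [hdi]; exact mem_sdiff.2 ⟨hE1, h⟩
      exact S.excl (S.T_mono he3 (hTi E1 h4)) hFE1
    obtain ⟨t', ht', hEt'⟩ := mem_biUnion.1 hE1occ
    have := mem_Ioc.1 ht'
    exact ⟨a, t', le_rfl, this.1, by omega, hT.mono ((he1.trans he2).trans he3),
      ⟨E1, hEt', hFE1⟩, Or.inl (hleft t' ht')⟩

end

end Pool.Agent.Lib.Pad9061
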