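import Pool.Agent.Lib.Pad9061.Nested

set_option autoImplicit false

/-!
# Depth and quadratic space
-/

namespace Pool.Agent.Lib.Pad9061

open Finset
open Real (negMulLog negMulLog_zero negMulLog_nonneg)

section

variable {V X : Type} [DecidableEq V] [DecidableEq X]

/-- The entropy is at most the mean code length plus one. -/
theorem Hd_le_kraft {wt : X → ℕ} {c : ℕ → Finset X} {s : ℕ} {𝓔 : Finset X} {J : Finset ℕ}
    {π : ℕ → ℝ} (hs : 0 < s) (hπ : IsProb J π) (κ : X → ℝ)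
    (hκ : ∑ E ∈ 𝓔, Real.exp (-κ E) ≤ 1) {K : ℝ}
    (hK : ∀ t ∈ J, ∑ E ∈ c t, (wt E : ℝ) * κ E ≤ K * s) (hc : ∀ t ∈ J, c t ⊆ 𝓔) :
    Hd wt c s 𝓔 J π ≤ K + 1 := by
  have hsR : (0 : ℝ) < s := by exact_mod_cast hs
  have key : ∀ E ∈ 𝓔, negMulLog (qd wt c s J π E) ≤
      qd wt c s J π E * κ E + (Real.exp (-κ E) - qd wt c s J π E) := by
    intro E _
    set q := qd wt c s J π E with hq
    have hq0 : 0 ≤ q := qd_nonneg hπ.1 E
    have hexp := Real.exp_pos (-κ E)
    rcases hq0.eq_or_lt with h | h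
    · rw [← h]
      simp only [negMulLog_zero, zero_mul, zero_add, sub_zero]
      exact hexp.le
    · have h1 : Real.log (Real.exp (-κ E) / q) ≤ Real.exp (-κ E) / q - 1 :=
        Real.log_le_sub_one_of_pos (by positivity)
      rw [Real.log_div hexp.ne' h.ne', Real.log_exp] at h1
      have h2 : q * (-κ E - Real.log q) ≤ q * (Real.exp (-κ E) / q - 1) :=
        mul_le_mul_of_nonneg_left h1 h.le
      have h3 : q * (Real.exp (-κ E) / q - 1) = Real.exp (-κ E) - q := by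
        field_simp
      rw [h3] at h2
      unfold negMulLog
      linarith
  have hmean : ∑ E ∈ 𝓔, qd wt c s J π E * κ E ≤ K := by
    have e1 : ∑ E ∈ 𝓔, qd wt c s J π E * κ E =
        ∑ t ∈ J, π t * ((∑ E ∈ c t, (wt E : ℝ) * κ E) / s) := by
      unfold qd
      simp_rw [sum_mul]
      rw [sum_comm]
      refine sum_congr rfl fun t ht => ?_
      have e2 : ∑ E ∈ c t, (wt E : ℝ) * κ E =
          ∑ E ∈ 𝓔, if E ∈ c t then (wt E : ℝ) * κ E else 0 := by
        rw [← sum_filter, filter_mem_eq_inter, inter_eq_right.2 (hc t ht)]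
      rw [e2, sum_div, mul_sum]
      refine sum_congr rfl fun E _ => ?_
      split_ifs <;> ring
    rw [e1]
    calc ∑ t ∈ J, π t * ((∑ E ∈ c t, (wt E : ℝ) * κ E) / s) ≤ ∑ t ∈ J, π t * K := by
          refine sum_le_sum fun t ht => mul_le_mul_of_nonneg_left ?_ (hπ.1 t)
          rw [div_le_iff₀ hsR]
          exact hK t ht
      _ = K := by rw [← sum_mul, hπ.2, one_mul]
  have hq1 : 0 ≤ ∑ E ∈ 𝓔, qd wt c s J π E := sum_nonneg fun E _ => qd_nonneg hπ.1 E
  calc Hd wt c s 𝓔 J π ≤ ∑ E ∈ 𝓔, (qd wt c s J π E * κ E +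
        (Real.exp (-κ E) - qd wt c s J π E)) := sum_le_sum key
    _ = ∑ E ∈ 𝓔, qd wt c s J π E * κ E + (∑ E ∈ 𝓔, Real.exp (-κ E) -
        ∑ E ∈ 𝓔, qd wt c s J π E) := by rw [sum_add_distrib, sum_sub_distrib]
    _ ≤ K + 1 := by linarith

/-- A system with a further hereditary condition on the sets of items. -/
def Sys.restrict (S : Sys V X) (P : Finset X → Prop)
    (hP : ∀ {Y Y' : Finset X}, Y' ⊆ Y → P Y → P Y') : Sys V X where
  wt := S.wt
  T := S.T
  F := S.F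
  T_mono := S.T_mono
  F_mono := S.F_mono
  excl := S.excl
  e0 := S.e0
  Ev := fun Y => S.Ev Y ∧ P Y
  Ev_sub := fun h hY => ⟨S.Ev_sub h hY.1, hP h hY.2⟩
  eval := fun Y hY ρ => S.eval Y hY.1 ρ

variable (S : Sys V X)

open Classical in
/-- The bound from nested deferral with any initial bound of the potential. -/
theorem pathCost_nested_of_up {𝓔 : Finset X} {s k J N : ℕ} {κ x0 : ℝ} (hκ : 0 ≤ κ) (hs : 0 < s)
    (hJ1 : 1 ≤ J) (hJ : (1 / 2 : ℝ) ^ J ≤ κ)
    (σ : ℕ → ℕ) (hσ : ∀ j, 1 ≤ j → 6 * (J : ℝ) * (1 / 2) ^ j * s ≤ σ j)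
    (hcount : ((𝓔.powerset).filter (fun Y => S.Ev Y ∧ sz S.wt Y ≤ s)).card ≤ 2 ^ k)
    (hx0 : ∀ (c : ℕ → Finset X) (I : Finset ℕ),
      (∀ t ∈ I, S.Ev (c t) ∧ sz S.wt (c t) ≤ s ∧ c t ⊆ 𝓔) → Up S.wt c s 𝓔 I x0)
    (hN : x0 + κ * k < N) :
    PathCost S 𝓔 s (N * (costL S.e0 σ J (J - 1) + (S.e0 + s))) := by
  apply pathCost_of_inj
  intro c m ρ hinj hc hT hF
  have hm : m < 2 ^ k := length_lt S hcount hinj hc
  by_cases hm0 : m = 0
  · exfalso
    subst hm0
    obtain ⟨y, hy, hyF⟩ := hF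
    exact S.excl (hT y hy) hyF
  refine (top_level (S := S) (c := c) hκ hs hJ1 hJ σ hσ N 0 m _ ρ hN (fun t _ ht => hc t ht) ?_
    (by omega) hT hF).weaken fun ρ' _ h => ?_
  · refine Up.mono (subset_refl _) ?_ (hx0 c (Ioo 0 m) (fun t ht => ?_))
    · have h1 : (Nat.clog 2 (m - 0) : ℝ) ≤ k := by
        exact_mod_cast Nat.clog_le_of_le_pow (by omega)
      have h2 := mul_le_mul_of_nonneg_left h1 hκ
      linarith
    · have := mem_Ioo.1 ht
      exact hc t this.2.le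
  · obtain ⟨t, -, t2, t3⟩ := h
    exact ⟨t, t2, t3⟩

open Classical in
/-- The bound from nested deferral with any initial bound of the potential, explicit form. -/
theorem pathCost_main_of_up {𝓔 : Finset X} {s k J : ℕ} {x0 : ℝ} (hs : 0 < s) (hJ1 : 1 ≤ J)
    (hcount : ((𝓔.powerset).filter (fun Y => S.Ev Y ∧ sz S.wt Y ≤ s)).card ≤ 2 ^ k)
    (hx00 : 0 ≤ x0)
    (hx0 : ∀ (c : ℕ → Finset X) (I : Finset ℕ),
      (∀ t ∈ I, S.Ev (c t) ∧ sz S.wt (c t) ≤ s ∧ c t ⊆ 𝓔) → Up S.wt c s 𝓔 I x0) :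
    ∃ D : ℕ, PathCost S 𝓔 s D ∧
      (D : ℝ) ≤ (x0 + 1 + (1 / 2) ^ J * k) *
        (12 * J ^ 2 * s + 3 * 2 ^ J * (S.e0 + 1) + (S.e0 + s)) := by
  set σ : ℕ → ℕ := fun j => ⌈6 * (J : ℝ) * (1 / 2) ^ j * s⌉₊ with hσ
  have hσ1 : ∀ j, 6 * (J : ℝ) * (1 / 2) ^ j * s ≤ σ j := fun j => Nat.le_ceil _
  have hσ2 : ∀ j, (σ j : ℝ) ≤ 6 * (J : ℝ) * (1 / 2) ^ j * s + 1 := fun j =>
    (Nat.ceil_lt_add_one (by positivity)).le
  set N := ⌊x0 + (1 / 2 : ℝ) ^ J * k⌋₊ + 1 with hN
  have hN1 : x0 + (1 / 2 : ℝ) ^ J * k < N := by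
    rw [hN]; push_cast; exact Nat.lt_floor_add_one _
  have hN2 : (N : ℝ) ≤ x0 + 1 + (1 / 2 : ℝ) ^ J * k := by
    have : (⌊x0 + (1 / 2 : ℝ) ^ J * k⌋₊ : ℝ) ≤ x0 + (1 / 2 : ℝ) ^ J * k :=
      Nat.floor_le (by positivity)
    rw [hN]; push_cast
    linarith
  refine ⟨_, pathCost_nested_of_up S (κ := (1 / 2 : ℝ) ^ J) (by positivity) hs hJ1 le_rfl σ
    (fun j _ => hσ1 j) hcount hx0 hN1, ?_⟩
  have h1 := costL_le S.e0 s J σ hσ2 (J - 1) (by omega)
  have hJ' : (J : ℝ) = ((J - 1 : ℕ) : ℝ) + 1 := by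
    have : J = (J - 1) + 1 := by omega
    exact_mod_cast this
  have hJR : (1 : ℝ) ≤ J := by exact_mod_cast hJ1
  have h2 : (2 : ℝ) ^ (J - 1) * (6 * (S.e0 + 1) + (24 + 12 * ((J - 1 : ℕ) : ℝ)) *
      (J * (1 / 2) ^ J * s)) = 3 * 2 ^ J * (S.e0 + 1) + 6 * (J + 1) * J * s := by
    have e1 : (2 : ℝ) ^ J = 2 * 2 ^ (J - 1) := by
      have : J = (J - 1) + 1 := by omega
      conv_lhs => rw [this, pow_succ]
      ring
    have e2 : (2 : ℝ) ^ (J - 1) * (1 / 2) ^ J = 1 / 2 := by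
      have h3 : (2 : ℝ) ^ J * (1 / 2) ^ J = 1 := by rw [← mul_pow]; norm_num
      rw [e1] at h3
      linarith
    have e3 : ((J - 1 : ℕ) : ℝ) = J - 1 := by linarith
    rw [e3, e1]
    calc (2 : ℝ) ^ (J - 1) * (6 * (S.e0 + 1) + (24 + 12 * ((J : ℝ) - 1)) * (J * (1 / 2) ^ J * s)) =
        6 * 2 ^ (J - 1) * (S.e0 + 1) + (12 + 12 * J) * J * s * (2 ^ (J - 1) * (1 / 2) ^ J) := by
          ring
      _ = _ := by rw [e2]; ring
  rw [h2] at h1
  have h3 : (costL S.e0 σ J (J - 1) : ℝ) ≤ 12 * J ^ 2 * s + 3 * 2 ^ J * (S.e0 + 1) := by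
    have h4 : 6 * ((J : ℝ) + 1) * J * s ≤ 12 * J ^ 2 * s := by
      have : 6 * ((J : ℝ) + 1) * J ≤ 12 * J ^ 2 := by nlinarith
      gcongr
    have h5 : (0 : ℝ) ≤ 2 * (S.e0 + 1) := by positivity
    linarith
  push_cast
  have h6 : (0 : ℝ) ≤ costL S.e0 σ J (J - 1) + (S.e0 + s) := by positivity
  calc (N : ℝ) * (costL S.e0 σ J (J - 1) + (S.e0 + s)) ≤
      (x0 + 1 + (1 / 2 : ℝ) ^ J * k) * (costL S.e0 σ J (J - 1) + (S.e0 + s)) := by
        gcongr
    _ ≤ _ := by
      gcongr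

end

/-- The code length of a clause: `w log n + log 2` for the exceptional clauses. -/
noncomputable def kap {n : ℕ} (w : ℕ) (X : Finset (Clause (Fin n))) (C : Clause (Fin n)) : ℝ :=
  if C ∈ X then w * Real.log n + Real.log 2
  else C.card * Real.log (2 * n) + (1 + Real.log 2)

theorem kap_nonneg {n : ℕ} (hn : 2 ≤ n) (w : ℕ) (X : Finset (Clause (Fin n)))
    (C : Clause (Fin n)) : 0 ≤ kap w X C := by
  have hl := log_ge hn
  have h2 : 0 ≤ Real.log 2 := Real.log_nonneg (by norm_num)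
  have h3 : 0 ≤ Real.log (2 * n) := Real.log_nonneg (by
    have : (2 : ℝ) ≤ n := by exact_mod_cast hn
    linarith)
  unfold kap
  split_ifs <;> positivity

theorem kraft {n : ℕ} (hn : 2 ≤ n) (w : ℕ) (X : Finset (Clause (Fin n)))
    (hX : X.card ≤ n ^ w) :
    ∑ C ∈ (univ : Finset (Clause (Fin n))), Real.exp (-kap w X C) ≤ 1 := by
  classical
  have hnR : (0 : ℝ) < n := by positivity
  have h2n : (0 : ℝ) < 2 * n := by positivity
  have hlog2 : Real.exp (-Real.log 2) = 1 / 2 := by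
    rw [Real.exp_neg, Real.exp_log (by norm_num)]
    norm_num
  have hA : ∀ C : Clause (Fin n), Real.exp (-kap w X C) ≤
      (if C ∈ X then 1 / 2 * (1 / (n : ℝ) ^ w) else 0) +
        1 / 2 * Real.exp (-1) * (1 / (2 * n : ℝ)) ^ C.card := by
    intro C
    have hpos : 0 ≤ 1 / 2 * Real.exp (-1) * (1 / (2 * n : ℝ)) ^ C.card := by positivity
    unfold kap
    split_ifs with h
    · have e : Real.exp (-(w * Real.log n + Real.log 2)) = 1 / 2 * (1 / (n : ℝ) ^ w) := by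
        rw [neg_add, Real.exp_add, hlog2, ← Real.log_pow, Real.exp_neg,
          Real.exp_log (by positivity)]
        ring
      rw [e]
      linarith
    · have e : Real.exp (-(C.card * Real.log (2 * n) + (1 + Real.log 2))) =
          1 / 2 * Real.exp (-1) * (1 / (2 * n : ℝ)) ^ C.card := by
        rw [neg_add, Real.exp_add, neg_add, Real.exp_add, hlog2, ← Real.log_pow, Real.exp_neg,
          Real.exp_log (by positivity), one_div_pow]
        ring
      rw [e]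
      linarith
  have hB : ∑ C ∈ (univ : Finset (Clause (Fin n))),
      (if C ∈ X then 1 / 2 * (1 / (n : ℝ) ^ w) else 0) ≤ 1 / 2 := by
    rw [← sum_filter, filter_mem_eq_inter, univ_inter, sum_const, nsmul_eq_mul]
    have h1 : (X.card : ℝ) ≤ (n : ℝ) ^ w := by exact_mod_cast hX
    have h2 : (0 : ℝ) < (n : ℝ) ^ w := by positivity
    calc (X.card : ℝ) * (1 / 2 * (1 / (n : ℝ) ^ w)) ≤ (n : ℝ) ^ w * (1 / 2 * (1 / (n : ℝ) ^ w)) := by
          gcongr
      _ = 1 / 2 := by field_simp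
  have hC : ∑ C ∈ (univ : Finset (Clause (Fin n))), (1 / (2 * n : ℝ)) ^ C.card ≤ Real.exp 1 := by
    have h3 : ∑ C ∈ (univ : Finset (Clause (Fin n))), (1 / (2 * n : ℝ)) ^ C.card =
        (1 / (2 * n : ℝ) + 1) ^ (2 * n) := by
      have := Finset.sum_pow_mul_eq_add_pow (1 / (2 * n : ℝ)) 1 (univ : Finset (Fin n × Bool))
      simp only [one_pow, mul_one, powerset_univ, card_univ] at this
      rw [this]
      congr 1
      simp [mul_comm]
    rw [h3]
    calc (1 / (2 * n : ℝ) + 1) ^ (2 * n) ≤ (Real.exp (1 / (2 * n : ℝ))) ^ (2 * n) := by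
          gcongr
          exact Real.add_one_le_exp _
      _ = Real.exp 1 := by
          rw [← Real.exp_nat_mul]
          congr 1
          push_cast
          field_simp
  calc ∑ C ∈ (univ : Finset (Clause (Fin n))), Real.exp (-kap w X C) ≤
      ∑ C ∈ (univ : Finset (Clause (Fin n))),
        ((if C ∈ X then 1 / 2 * (1 / (n : ℝ) ^ w) else 0) +
          1 / 2 * Real.exp (-1) * (1 / (2 * n : ℝ)) ^ C.card) := sum_le_sum fun C _ => hA C
    _ = ∑ C ∈ (univ : Finset (Clause (Fin n))),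
          (if C ∈ X then 1 / 2 * (1 / (n : ℝ) ^ w) else 0) +
        1 / 2 * Real.exp (-1) * ∑ C ∈ (univ : Finset (Clause (Fin n))),
          (1 / (2 * n : ℝ)) ^ C.card := by rw [sum_add_distrib, mul_sum]
    _ ≤ 1 / 2 + 1 / 2 * Real.exp (-1) * Real.exp 1 := by gcongr
    _ = 1 := by
      rw [mul_assoc, ← Real.exp_add]
      norm_num

/-- The mean code length of a configuration. -/
theorem sum_kap_le {n s w : ℕ} (hn : 2 ≤ n) (hw : 1 ≤ w) (hs : 1 ≤ s)
    (X M : Finset (Clause (Fin n))) (h1 : ∑ C ∈ M, C.card ≤ s)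
    (h2 : ∑ C ∈ M \ X, C.card ^ 2 ≤ w * s) :
    ∑ C ∈ M, (C.card : ℝ) * kap w X C ≤
      (w * Real.log n + w * Real.log (2 * n) + (1 + Real.log 2)) * s := by
  classical
  have hnR : (2 : ℝ) ≤ n := by exact_mod_cast hn
  have hl := log_ge hn
  have hl2 : 0 ≤ Real.log 2 := Real.log_nonneg (by norm_num)
  have hl3 : 0 ≤ Real.log (2 * n) := Real.log_nonneg (by linarith)
  have hsplit : ∑ C ∈ M, (C.card : ℝ) * kap w X C =
      ∑ C ∈ M \ X, (C.card : ℝ) * kap w X C + ∑ C ∈ M ∩ X, (C.card : ℝ) * kap w X C := by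
    rw [add_comm]
    exact (sum_inter_add_sum_sdiff M X _).symm
  have hin : ∑ C ∈ M ∩ X, (C.card : ℝ) * kap w X C ≤
      (w * Real.log n + (1 + Real.log 2)) * ∑ C ∈ M ∩ X, (C.card : ℝ) := by
    rw [mul_sum]
    refine sum_le_sum fun C hC => ?_
    have hCX : C ∈ X := (mem_inter.1 hC).2
    unfold kap
    rw [if_pos hCX, mul_comm]
    gcongr
    linarith
  have hout : ∑ C ∈ M \ X, (C.card : ℝ) * kap w X C ≤
      Real.log (2 * n) * ∑ C ∈ M \ X, (C.card : ℝ) ^ 2 +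
        (w * Real.log n + (1 + Real.log 2)) * ∑ C ∈ M \ X, (C.card : ℝ) := by
    rw [mul_sum, mul_sum, ← sum_add_distrib]
    refine sum_le_sum fun C hC => ?_
    have hCX : C ∉ X := (mem_sdiff.1 hC).2
    unfold kap
    rw [if_neg hCX]
    have h0 : (0 : ℝ) ≤ (C.card : ℝ) * (w * Real.log n) := by positivity
    nlinarith
  have h3 : ∑ C ∈ M \ X, (C.card : ℝ) + ∑ C ∈ M ∩ X, (C.card : ℝ) ≤ s := by
    rw [add_comm, sum_inter_add_sum_sdiff M X]
    exact_mod_cast h1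
  have h4 : ∑ C ∈ M \ X, (C.card : ℝ) ^ 2 ≤ w * s := by exact_mod_cast h2
  have h5 : 0 ≤ w * Real.log n + (1 + Real.log 2) := by positivity
  have h6 := mul_le_mul_of_nonneg_left h3 h5
  have h7 := mul_le_mul_of_nonneg_left h4 hl3
  rw [hsplit]
  nlinarith

/-- `F` has a space-aware refutation all configurations of which satisfy `P`. -/
def RefWith {V : Type} [DecidableEq V] (F : Finset (Clause V)) (P : Finset (Clause V) → Prop) :
    Prop :=
  ∃ τ : ℕ, ∃ M : ℕ → Finset (Clause V), M 0 = ∅ ∧ (∅ : Clause V) ∈ M τ ∧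
    (∀ t < τ, Step F (M t) (M (t + 1))) ∧ ∀ t ≤ τ, P (M t)

theorem RefWith.mono {V : Type} [DecidableEq V] {F : Finset (Clause V)}
    {P Q : Finset (Clause V) → Prop} (h : ∀ M, P M → Q M) (hF : RefWith F P) : RefWith F Q := by
  obtain ⟨τ, M, h0, h1, h2, h3⟩ := hF
  exact ⟨τ, M, h0, h1, h2, fun t ht => h _ (h3 t ht)⟩

/-- The system of clauses with bounded weighted code length. -/
noncomputable def kapSys (n w s : ℕ) (hn : 2 ≤ n) (X : Finset (Clause (Fin n))) (K : ℝ) :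
    Sys (Fin n) (Clause (Fin n)) :=
  (clauseSys (Fin n)).restrict (fun Y => ∑ C ∈ Y, (C.card : ℝ) * kap w X C ≤ K * s)
    (fun h hY => (sum_le_sum_of_subset_of_nonneg h fun C _ _ =>
      mul_nonneg (Nat.cast_nonneg _) (kap_nonneg hn w X C)).trans hY)

open Classical in
/-- Depth and quadratic space outside a set of exceptional clauses. -/
theorem quad_bound {n s w : ℕ} (hn : 2 ≤ n) (hw : 1 ≤ w) (hws : w ≤ s)
    {F : Finset (Clause (Fin n))} {X : Finset (Clause (Fin n))} (hX : X.card ≤ n ^ w)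
    (hF : RefWith F (fun M => ∑ C ∈ M, C.card ≤ s ∧ ∑ C ∈ M \ X, C.card ^ 2 ≤ w * s)) :
    ∃ D : ℕ, DepthAtMost F D ∧
      (D : ℝ) ≤ 800 * (w * s * (1 + Real.log (s / w)) ^ 2 * Real.log n) := by
  have hs : 1 ≤ s := hw.trans hws
  have hl := log_ge hn
  have hnR : (2 : ℝ) ≤ n := by exact_mod_cast hn
  have hwR : (1 : ℝ) ≤ w := by exact_mod_cast hw
  have hsR : (1 : ℝ) ≤ s := by exact_mod_cast hs
  have hwsR : (w : ℝ) ≤ s := by exact_mod_cast hws
  obtain ⟨ℓ, hℓ1, hℓ2⟩ := exists_bits hn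
  obtain ⟨J, hJ1, hJ2, hJ3, hJ4⟩ := exists_levels hw hws
  set K : ℝ := w * Real.log n + w * Real.log (2 * n) + (1 + Real.log 2) with hK
  have hl2 : 0 ≤ Real.log 2 := Real.log_nonneg (by norm_num)
  have hl3 : 0 ≤ Real.log (2 * n) := Real.log_nonneg (by linarith)
  have hK0 : 0 ≤ K := by positivity
  set S := kapSys n w s hn X K with hS
  have hcount : (((univ : Finset (Clause (Fin n))).powerset).filter
      (fun Y => S.Ev Y ∧ sz S.wt Y ≤ s)).card ≤ 2 ^ (5 + s * ℓ) := by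
    refine (card_le_card ?_).trans (count_clause_configs n (by omega) s ℓ hℓ1 univ)
    intro Y hY
    obtain ⟨h1, h2, h3⟩ := mem_filter.1 hY
    exact mem_filter.2 ⟨h1, trivial, h3⟩
  obtain ⟨D, hD1, hD2⟩ := pathCost_main_of_up S (𝓔 := univ) (s := s) (k := 5 + s * ℓ)
    (J := J) (x0 := K + 1) (by omega) hJ1 hcount (by linarith)
    (by
      intro c I hc π hπ
      exact Hd_le_kraft (by omega) hπ (kap w X) (kraft hn w X hX)
        (fun t ht => (hc t ht).1.2) (fun t ht => (hc t ht).2.2))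
  refine ⟨D, ?_, hD2.trans ?_⟩
  · obtain ⟨τ, M, h0, h1, h2, h3⟩ := hF
    apply depthAtMost_of_solve
    refine (hD1 M τ (fun _ => none) ?_ ?_ ?_).weaken fun ρ' _ hb => ?_
    · intro t ht
      exact ⟨⟨trivial, sum_kap_le hn hw hs X (M t) (h3 t ht).1 (h3 t ht).2⟩, (h3 t ht).1,
        subset_univ _⟩
    · rw [h0]
      intro C hC
      simp at hC
    · refine ⟨∅, h1, ?_⟩
      intro l hl
      simp at hl
    · obtain ⟨t, ht, hT, hF'⟩ := hb
      exact axiom_of_boundary (h2 t ht) hT hF'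
  · have he0 : S.e0 = 0 := rfl
    rw [he0]
    push_cast
    have hJR : (1 : ℝ) ≤ J := by exact_mod_cast hJ1
    set y : ℝ := w * Real.log n with hy
    have hy1 : 1 ≤ 1.45 * y := by rw [hy]; nlinarith
    -- the first factor
    have hf1 : K + 1 + 1 + (1 / 2 : ℝ) ^ J * (5 + s * ℓ) ≤ 20 * y := by
      have h1 : Real.log (2 * n) = Real.log 2 + Real.log n :=
        Real.log_mul (by norm_num) (by positivity)
      have h2 : Real.log 2 ≤ Real.log n := Real.log_le_log (by norm_num) hnR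
      have h3 : w * Real.log (2 * n) ≤ 2 * y := by
        rw [h1, hy]
        have := mul_le_mul_of_nonneg_left h2 (by linarith : (0 : ℝ) ≤ w)
        nlinarith
      have h4 : Real.log 2 ≤ 0.6932 := by
        have := Real.log_two_lt_d9
        linarith
      have hp : (1 / 2 : ℝ) ^ J ≤ 1 / 2 := by
        calc (1 / 2 : ℝ) ^ J ≤ (1 / 2 : ℝ) ^ 1 :=
              pow_le_pow_of_le_one (by norm_num) (by norm_num) hJ1
          _ = 1 / 2 := pow_one _
      have h5 : (1 / 2 : ℝ) ^ J * (5 + s * ℓ) ≤ 2.5 + 5 * y := by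
        calc (1 / 2 : ℝ) ^ J * (5 + s * ℓ) = (1 / 2 : ℝ) ^ J * 5 + ((1 / 2 : ℝ) ^ J * s) * ℓ := by
              ring
          _ ≤ 1 / 2 * 5 + w * (5 * Real.log n) := by gcongr
          _ = 2.5 + 5 * y := by rw [hy]; ring
      rw [hK]
      linarith
    -- the second factor
    have h2J : (2 : ℝ) ^ J ≤ 2 * s := by
      have : (2 : ℝ) ^ J * 1 ≤ (2 : ℝ) ^ J * w := by gcongr
      linarith
    have hJJ : (1 : ℝ) ≤ (J : ℝ) ^ 2 := one_le_pow₀ hJR
    have hf2 : 12 * (J : ℝ) ^ 2 * s + 3 * 2 ^ J * (0 + 1) + (0 + s) ≤ 19 * (J ^ 2 * s) := by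
      have h3 : (s : ℝ) ≤ J ^ 2 * s := by nlinarith
      linarith
    have hf3 : (J : ℝ) ^ 2 ≤ 2.1025 * (1 + Real.log (s / w)) ^ 2 := by
      calc (J : ℝ) ^ 2 ≤ (1.45 * (1 + Real.log (s / w))) ^ 2 := by gcongr
        _ = _ := by ring
    have hy0 : 0 ≤ y := by rw [hy]; positivity
    calc (K + 1 + 1 + (1 / 2 : ℝ) ^ J * (5 + s * ℓ)) *
          (12 * (J : ℝ) ^ 2 * s + 3 * 2 ^ J * (0 + 1) + (0 + s)) ≤
          (20 * y) * (19 * (J ^ 2 * s)) := by
          gcongr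
      _ ≤ (20 * y) * (19 * (2.1025 * (1 + Real.log (s / w)) ^ 2 * s)) := by gcongr
      _ = 798.95 * (w * s * (1 + Real.log (s / w)) ^ 2 * Real.log n) := by rw [hy]; ring
      _ ≤ _ := by
        have : 0 ≤ w * s * (1 + Real.log ((s : ℝ) / w)) ^ 2 * Real.log n := by positivity
        linarith

/-- Depth and quadratic space. -/
theorem quad_bound_pure {n q : ℕ} (hn : 2 ≤ n) (hq : 1 ≤ q) {F : Finset (Clause (Fin n))}
    (hF : RefWith F (fun M => ∑ C ∈ M, C.card ^ 2 ≤ q)) :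
    ∃ D : ℕ, DepthAtMost F D ∧
      (D : ℝ) ≤ 800 * (q * (1 + Real.log q) ^ 2 * Real.log n) := by
  obtain ⟨D, h1, h2⟩ := quad_bound (X := ∅) (w := 1) (s := q) (F := F) hn le_rfl hq (by simp)
    (hF.mono (fun M hM => by
      refine ⟨le_trans (sum_le_sum fun C _ => ?_) hM, by simpa using hM⟩
      nlinarith [Nat.zero_le C.card, Nat.le_self_pow (two_ne_zero) C.card]))
  refine ⟨D, h1, h2.trans (le_of_eq ?_)⟩
  push_cast
  rw [div_one, one_mul]

/-- Depth, total space and the number of different clauses. -/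
theorem number_bound {n s L : ℕ} (hn : 2 ≤ n) (hs : 1 ≤ s) (hL : 1 ≤ L)
    {F : Finset (Clause (Fin n))} {X : Finset (Clause (Fin n))} (hX : X.card ≤ L)
    (hF : RefWith F (fun M => M ⊆ X ∧ ∑ C ∈ M, C.card ≤ s)) :
    ∃ D : ℕ, DepthAtMost F D ∧
      (D : ℝ) ≤ 800 * (s * (1 + Real.log s) ^ 2 * Real.log (n * L)) := by
  classical
  have hnR : (2 : ℝ) ≤ n := by exact_mod_cast hn
  have hl := log_ge hn
  have hsR : (1 : ℝ) ≤ s := by exact_mod_cast hs
  have hLR : (1 : ℝ) ≤ L := by exact_mod_cast hL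
  have hlL : 0 ≤ Real.log L := Real.log_nonneg hLR
  have hlog : Real.log (n * L) = Real.log n + Real.log L :=
    Real.log_mul (by positivity) (by positivity)
  set k := max 1 (Nat.clog n L) with hk
  have hk1 : 1 ≤ k := le_max_left _ _
  have hkn : L ≤ n ^ k := (Nat.le_pow_clog (by omega) L).trans
    (Nat.pow_le_pow_right (by omega) (le_max_right _ _))
  have hklog : k * Real.log n ≤ Real.log (n * L) := by
    rw [hlog]
    by_cases h : Nat.clog n L ≤ 1
    · have : k = 1 := by rw [hk]; exact max_eq_left h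
      rw [this]
      push_cast
      linarith
    · push Not at h
      have hkc : k = Nat.clog n L := by rw [hk]; exact max_eq_right (by omega)
      have h1 : n ^ (Nat.clog n L - 1) < L := by
        have h2L : 1 < L := by
          by_contra hcon
          have : L = 1 := by omega
          rw [this] at h
          simp at h
        exact Nat.pow_pred_clog_lt_self (by omega) h2L
      have h2 : ((n : ℝ) ^ (k - 1)) ≤ L := by
        rw [hkc]
        exact_mod_cast h1.le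
      have h3 : Real.log ((n : ℝ) ^ (k - 1)) ≤ Real.log L :=
        Real.log_le_log (by positivity) h2
      rw [Real.log_pow] at h3
      have h4 : ((k - 1 : ℕ) : ℝ) = (k : ℝ) - 1 := by
        rw [Nat.cast_sub hk1]
        norm_num
      rw [h4] at h3
      linarith
  have hlogdiv : ∀ w : ℕ, 1 ≤ w → w ≤ s → (1 + Real.log ((s : ℝ) / w)) ^ 2 ≤
      (1 + Real.log s) ^ 2 := by
    intro w hw hws
    have hwR : (1 : ℝ) ≤ w := by exact_mod_cast hw
    have hwsR : (w : ℝ) ≤ s := by exact_mod_cast hws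
    have h1 : 0 ≤ Real.log ((s : ℝ) / w) := Real.log_nonneg (by
      rw [le_div_iff₀ (by linarith)]
      linarith)
    have h2 : Real.log ((s : ℝ) / w) ≤ Real.log s := by
      apply Real.log_le_log (by positivity)
      rw [div_le_iff₀ (by linarith)]
      nlinarith
    gcongr
  by_cases hks : k ≤ s
  · obtain ⟨D, h1, h2⟩ := quad_bound (X := X) (w := k) (s := s) (F := F) hn hk1 hks
      (hX.trans hkn) (hF.mono (fun M hM => by
        refine ⟨hM.2, ?_⟩
        rw [sdiff_eq_empty_iff_subset.2 hM.1]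
        simp))
    refine ⟨D, h1, h2.trans ?_⟩
    have h3 := hlogdiv k hk1 hks
    have h4 : 0 ≤ Real.log n := by linarith
    have h5 : 0 ≤ (1 + Real.log (s : ℝ)) ^ 2 := by positivity
    calc 800 * (k * s * (1 + Real.log ((s : ℝ) / k)) ^ 2 * Real.log n) ≤
        800 * (k * s * (1 + Real.log (s : ℝ)) ^ 2 * Real.log n) := by gcongr
      _ = 800 * (s * (1 + Real.log (s : ℝ)) ^ 2 * (k * Real.log n)) := by ring
      _ ≤ 800 * (s * (1 + Real.log s) ^ 2 * Real.log (n * L)) := by gcongr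
  · push Not at hks
    obtain ⟨D, h1, h2⟩ := quad_bound (X := ∅) (w := s) (s := s) (F := F) hn hs le_rfl
      (by simp) (hF.mono (fun M hM => by
        refine ⟨hM.2, ?_⟩
        rw [sdiff_empty]
        calc ∑ C ∈ M, C.card ^ 2 ≤ ∑ C ∈ M, s * C.card := by
              refine sum_le_sum fun C hC => ?_
              have : C.card ≤ s := (single_le_sum (f := fun C : Clause (Fin n) => C.card)
                (fun _ _ => Nat.zero_le _) hC).trans hM.2
              rw [sq]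
              exact Nat.mul_le_mul_right _ this
          _ = s * ∑ C ∈ M, C.card := by rw [mul_sum]
          _ ≤ s * s := Nat.mul_le_mul_left _ hM.2))
    refine ⟨D, h1, h2.trans ?_⟩
    have h3 := hlogdiv s hs le_rfl
    have h4 : 0 ≤ Real.log n := by linarith
    have hksR : (s : ℝ) ≤ k := by exact_mod_cast hks.le
    calc 800 * (s * s * (1 + Real.log ((s : ℝ) / s)) ^ 2 * Real.log n) ≤
        800 * (k * s * (1 + Real.log (s : ℝ)) ^ 2 * Real.log n) := by gcongr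
      _ = 800 * (s * (1 + Real.log (s : ℝ)) ^ 2 * (k * Real.log n)) := by ring
      _ ≤ 800 * (s * (1 + Real.log s) ^ 2 * Real.log (n * L)) := by gcongr

end Pool.Agent.Lib.Pad9061
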