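import Pool.Agent.Lib.Pad9061.Phase

set_option autoImplicit false

/-!
# Rounds of halvings
-/

namespace Pool.Agent.Lib.Pad9061

open Finset

section

variable {V X : Type} [DecidableEq V] [DecidableEq X] (S : Sys V X)

/-- Halving (by real length) in a path of small configurations. -/
theorem halve (xs : ℕ → ℕ) (p : ℕ) (d : ℕ → Finset X) {s' : ℕ} (hxs : ∀ i < p, xs i < xs (i + 1))
    (hd : ∀ i ≤ p, S.Ev (d i) ∧ sz S.wt (d i) ≤ s') :
    ∀ (R l r : ℕ) (ρ : PA V), l < r → r ≤ p → S.AllT ρ (d l) → S.SomeF ρ (d r) →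
      Solve (fun ρ' => ∃ i j, i < j ∧ j ≤ p ∧ S.AllT ρ' (d i) ∧ S.SomeF ρ' (d j) ∧
        (j = i + 1 ∨ (xs j - xs i) * 2 ^ R ≤ xs r - xs l)) (R * (2 * (S.e0 + s'))) ρ := by
  have hmono : ∀ i j, i ≤ j → j ≤ p → xs i ≤ xs j := by
    intro i j hij
    induction j, hij using Nat.le_induction with
    | base => intro _; exact le_rfl
    | succ j hj ih => intro hjp; exact (ih (by omega)).trans (hxs j (by omega)).le
  have hlt : ∀ i j, i < j → j ≤ p → xs i < xs j := by
    intro i j hij hjp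
    exact lt_of_lt_of_le (hxs i (by omega)) (hmono (i + 1) j hij hjp)
  intro R
  induction R with
  | zero =>
    intro l r ρ hlr hrp hT hF
    exact Solve.done ⟨l, r, hlr, hrp, hT, hF, Or.inr (by simp)⟩
  | succ R ih =>
    intro l r ρ hlr hrp hT hF
    have hxlr := hlt l r hlr hrp
    -- the last index at most the midpoint
    obtain ⟨i, hli, hir, hi1, hi2⟩ : ∃ i, l ≤ i ∧ i < r ∧ xs i ≤ (xs l + xs r) / 2 ∧
        (xs l + xs r) / 2 < xs (i + 1) := by
      have hex : ∃ j, l < j ∧ j ≤ r ∧ (xs l + xs r) / 2 < xs j := ⟨r, hlr, le_rfl, by omega⟩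
      obtain ⟨j, ⟨h1, h2, h3⟩, hmin⟩ :
          ∃ j, (l < j ∧ j ≤ r ∧ (xs l + xs r) / 2 < xs j) ∧
            ∀ t < j, ¬ (l < t ∧ t ≤ r ∧ (xs l + xs r) / 2 < xs t) :=
        ⟨Nat.find hex, Nat.find_spec hex, fun t ht => Nat.find_min hex ht⟩
      refine ⟨j - 1, by omega, by omega, ?_, ?_⟩
      · by_cases hj : l < j - 1
        · have := hmin (j - 1) (by omega)
          by_contra h
          exact this ⟨hj, by omega, by omega⟩
        · have : j - 1 = l := by omega
          rw [this]; omega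
      · have : j - 1 + 1 = j := by omega
        rw [this]; exact h3
    have e : (R + 1) * (2 * (S.e0 + s')) = (S.e0 + s') + ((S.e0 + s') + R * (2 * (S.e0 + s'))) := by
      ring
    rw [e]
    refine (S.eval' (hd i (by omega)).1 (hd i (by omega)).2 ρ).bind fun ρ1 he1 h1 => ?_
    rcases h1 with hTi | hFi
    · refine (S.eval' (hd (i + 1) (by omega)).1 (hd (i + 1) (by omega)).2 ρ1).bind fun ρ2 he2 h2 => ?_
      rcases h2 with hTj | hFj
      · have hne : i + 1 ≠ r := by
          intro h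
          obtain ⟨y, hy, hyF⟩ := (hF.mono he1).mono he2
          rw [h] at hTj
          exact S.excl (hTj y hy) hyF
        refine (ih (i + 1) r ρ2 (by omega) hrp hTj ((hF.mono he1).mono he2)).weaken
          fun ρ3 _ h3 => ?_
        obtain ⟨i', j', a1, a2, a3, a4, a5⟩ := h3
        refine ⟨i', j', a1, a2, a3, a4, a5.imp id fun h => ?_⟩
        have hb : 2 * (xs r - xs (i + 1)) ≤ xs r - xs l := by omega
        calc (xs j' - xs i') * 2 ^ (R + 1) = 2 * ((xs j' - xs i') * 2 ^ R) := by ring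
          _ ≤ 2 * (xs r - xs (i + 1)) := by gcongr
          _ ≤ _ := hb
      · exact Solve.done ⟨i, i + 1, by omega, by omega, hTi.mono he2, hFj, Or.inl rfl⟩
    · have hne : i ≠ l := by
        intro h
        obtain ⟨y, hy, hyF⟩ := hFi
        rw [h] at hy
        exact S.excl (hT.mono he1 y hy) hyF
      refine ((ih l i ρ1 (by omega) (by omega) (hT.mono he1) hFi).mono (by omega)).weaken
        fun ρ3 _ h3 => ?_
      obtain ⟨i', j', a1, a2, a3, a4, a5⟩ := h3
      refine ⟨i', j', a1, a2, a3, a4, a5.imp id fun h => ?_⟩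
      have hb : 2 * (xs i - xs l) ≤ xs r - xs l := by omega
      calc (xs j' - xs i') * 2 ^ (R + 1) = 2 * ((xs j' - xs i') * 2 ^ R) := by ring
        _ ≤ 2 * (xs i - xs l) := by gcongr
        _ ≤ _ := hb

/-- The main loop: rounds of `R` halvings. -/
theorem rounds (c : ℕ → Finset X) {s s' : ℕ} (hs : 0 < s) {𝓔 : Finset X} {δ : ℝ}
    (hs' : 3 * δ * s ≤ s') (hE : ∀ E ∈ 𝓔, S.wt E ≤ s') (R : ℕ) :
    ∀ (n K K' a b : ℕ) (x : ℝ) (ρ : PA V), K + K' = n →
      (∀ t, a ≤ t → t ≤ b → S.Ev (c t) ∧ sz S.wt (c t) ≤ s ∧ c t ⊆ 𝓔) →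
      Up S.wt c s 𝓔 (Ioo a b) x → x < K * δ → a < b → b - a < 2 ^ (R * K') →
      S.AllT ρ (c a) → S.SomeF ρ (c b) →
      Solve (fun ρ' => ∃ t, a ≤ t ∧ t < b ∧ S.AllT ρ' (c t) ∧ S.SomeF ρ' (c (t + 1)))
        (n * (S.e0 + s + (R * (2 * (S.e0 + s')) + (S.e0 + s)))) ρ := by
  intro n
  induction n with
  | zero =>
    intro K K' a b x ρ hn hEv hU hx hab hlen hT hF
    have : K' = 0 := by omega
    subst this
    simp at hlen
    omega
  | succ n ih =>
    intro K K' a b x ρ hn hEv hU hx hab hlen hT hF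
    have hK' : K' ≠ 0 := by
      rintro rfl
      simp at hlen
      omega
    by_cases hK : K = 0
    · subst hK
      have h1 : Ioo a b = ∅ := eq_empty_of_up (x := x) (by simpa using hx)
        (fun t ht => by
          have := mem_Ioo.1 ht
          exact (hEv t this.1.le this.2.le).2.1) hU
      have h2 : b = a + 1 := by
        by_contra hne
        have : a + 1 ∈ Ioo a b := mem_Ioo.2 ⟨by omega, by omega⟩
        rw [h1] at this
        simp at this
      subst h2
      exact Solve.done ⟨a, le_rfl, by omega, hT, hF⟩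
    have e : (n + 1) * (S.e0 + s + (R * (2 * (S.e0 + s')) + (S.e0 + s))) =
        (S.e0 + s + (R * (2 * (S.e0 + s')) + (S.e0 + s))) +
          n * (S.e0 + s + (R * (2 * (S.e0 + s')) + (S.e0 + s))) := by ring
    rw [e]
    refine (phase S c (s' := s') (csub := R * (2 * (S.e0 + s'))) hs hEv hs' hE hU
      (fun a' b' => (b' - a') * 2 ^ R ≤ b - a) ?_ hab hT hF).bind fun ρ' he h => ?_
    · intro xs p d hxs hx0 hxp hd ρ' hT' hF'
      by_cases hp : p = 0
      · exfalso
        rw [hp] at hF'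
        obtain ⟨y, hy, hyF⟩ := hF'
        exact S.excl (hT' y hy) hyF
      · refine (halve S xs p d hxs (fun i hi => ⟨(hd i hi).1, (hd i hi).2.1⟩) R 0 p ρ'
          (by omega) le_rfl hT' hF').weaken fun ρ'' _ h => ?_
        obtain ⟨i, j, a1, a2, a3, a4, a5⟩ := h
        refine ⟨i, j, a1, a2, a3, a4, a5.imp id fun h => h.trans ?_⟩
        omega
    · obtain ⟨a', b', h1, h2, h3, hT', hF', hor⟩ := h
      have hsub : Ioo a' b' ⊆ Ioo a b := by
        intro t ht
        have := mem_Ioo.1 ht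
        exact mem_Ioo.2 ⟨by omega, by omega⟩
      have hEv' : ∀ t, a' ≤ t → t ≤ b' → S.Ev (c t) ∧ sz S.wt (c t) ≤ s ∧ c t ⊆ 𝓔 :=
        fun t ht1 ht2 => hEv t (by omega) (by omega)
      obtain ⟨K1, rfl⟩ : ∃ K1, K = K1 + 1 := ⟨K - 1, by omega⟩
      obtain ⟨K2, rfl⟩ : ∃ K2, K' = K2 + 1 := ⟨K' - 1, by omega⟩
      rcases hor with hdrop | hlen'
      · refine (ih K1 (K2 + 1) a' b' (x - δ) ρ' (by omega) hEv' hdrop ?_ h2 (by omega) hT' hF').weaken
          fun ρ'' _ h => ?_
        · push_cast at hx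
          linarith
        · obtain ⟨t, t1, t2, t3, t4⟩ := h
          exact ⟨t, by omega, by omega, t3, t4⟩
      · refine (ih (K1 + 1) K2 a' b' x ρ' (by omega) hEv' (hU.mono hsub le_rfl) hx h2 ?_ hT' hF').weaken
          fun ρ'' _ h => ?_
        · have h4 : 2 ^ (R * (K2 + 1)) = 2 ^ (R * K2) * 2 ^ R := by rw [← pow_add]; ring_nf
          rw [h4] at hlen
          have h5 : (b' - a') * 2 ^ R < 2 ^ (R * K2) * 2 ^ R := lt_of_le_of_lt hlen' hlen
          exact Nat.lt_of_mul_lt_mul_right h5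
        · obtain ⟨t, t1, t2, t3, t4⟩ := h
          exact ⟨t, by omega, by omega, t3, t4⟩

end

end Pool.Agent.Lib.Pad9061
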