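import Pool.Agent.Lib.Pad9061.Defs

set_option autoImplicit false

/-!
# Decision trees for search problems, and resolution depth
-/

namespace Pool.Agent.Lib.Pad9061

open Finset

variable {V : Type} [DecidableEq V]

/-- Partial assignments. -/
abbrev PA (V : Type) := V → Option Bool

/-- `ρ'` extends `ρ`. -/
def Ext (ρ ρ' : PA V) : Prop := ∀ v b, ρ v = some b → ρ' v = some b

omit [DecidableEq V] in
theorem Ext.refl (ρ : PA V) : Ext ρ ρ := fun _ _ h => h

omit [DecidableEq V] in
theorem Ext.trans {ρ ρ' ρ'' : PA V} (h : Ext ρ ρ') (h' : Ext ρ' ρ'') : Ext ρ ρ'' :=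
  fun v b hb => h' v b (h v b hb)

theorem Ext.update {ρ : PA V} {v : V} (hv : ρ v = none) (b : Option Bool) :
    Ext ρ (Function.update ρ v b) := by
  intro u c hu
  by_cases h : u = v
  · rw [h, hv] at hu; simp at hu
  · rw [Function.update_of_ne h]; exact hu

/-- `Solve G d ρ`: starting from the knowledge `ρ`, a decision tree of depth `d` reaches a state
satisfying `G`. -/
inductive Solve (G : PA V → Prop) : ℕ → PA V → Prop
  | done {d : ℕ} {ρ : PA V} : G ρ → Solve G d ρ
  | query {d : ℕ} {ρ : PA V} (v : V) : ρ v = none →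
      Solve G d (Function.update ρ v (some true)) →
      Solve G d (Function.update ρ v (some false)) → Solve G (d + 1) ρ

theorem Solve.mono {G : PA V → Prop} {d : ℕ} {ρ : PA V} (h : Solve G d ρ) :
    ∀ {d' : ℕ}, d ≤ d' → Solve G d' ρ := by
  induction h with
  | done hG => intro d' _; exact Solve.done hG
  | @query d ρ v hv _ _ ih1 ih2 =>
    intro d' hd
    obtain ⟨e, rfl⟩ : ∃ e, d' = e + 1 := ⟨d' - 1, by omega⟩
    exact Solve.query v hv (ih1 (by omega)) (ih2 (by omega))

theorem Solve.bind {G G' : PA V → Prop} {d d' : ℕ} {ρ : PA V} (h : Solve G d ρ)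
    (h' : ∀ ρ', Ext ρ ρ' → G ρ' → Solve G' d' ρ') : Solve G' (d + d') ρ := by
  induction h with
  | @done d ρ hG => exact (h' ρ (Ext.refl ρ) hG).mono (by omega)
  | @query d ρ v hv _ _ ih1 ih2 =>
    have e : d + 1 + d' = (d + d') + 1 := by omega
    rw [e]
    refine Solve.query v hv (ih1 ?_) (ih2 ?_)
    · exact fun ρ' he hG => h' ρ' ((Ext.update hv _).trans he) hG
    · exact fun ρ' he hG => h' ρ' ((Ext.update hv _).trans he) hG

theorem Solve.weaken {G G' : PA V → Prop} {d : ℕ} {ρ : PA V} (h : Solve G d ρ)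
    (h' : ∀ ρ', Ext ρ ρ' → G ρ' → G' ρ') : Solve G' d ρ :=
  Solve.bind (d' := 0) h (fun ρ' he hG => Solve.done (h' ρ' he hG))

/-- Query all the variables of a set. -/
theorem solve_query_set (Q : Finset V) (ρ : PA V) :
    Solve (fun ρ' => ∀ v ∈ Q, ρ' v ≠ none) Q.card ρ := by
  induction Q using Finset.induction_on generalizing ρ with
  | empty => exact Solve.done (by simp)
  | insert x Q hx ih =>
    rw [card_insert_of_notMem hx]
    by_cases hρ : ρ x = none
    · refine Solve.query x hρ ?_ ?_
      · refine (ih _).weaken fun ρ' he h v hv => ?_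
        rcases mem_insert.1 hv with rfl | hv
        · rw [he v true (by simp)]; simp
        · exact h v hv
      · refine (ih _).weaken fun ρ' he h v hv => ?_
        rcases mem_insert.1 hv with rfl | hv
        · rw [he v false (by simp)]; simp
        · exact h v hv
    · refine ((ih ρ).mono (Nat.le_succ _)).weaken fun ρ' he h v hv => ?_
      rcases mem_insert.1 hv with rfl | hv
      · obtain ⟨b, hb⟩ := Option.ne_none_iff_exists'.1 hρ
        rw [he v b hb]; simp
      · exact h v hv

/-- The clause is known to be true. -/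
def KT (ρ : PA V) (C : Clause V) : Prop := ∃ l ∈ C, ρ l.1 = some l.2

/-- The clause is known to be false. -/
def KF (ρ : PA V) (C : Clause V) : Prop := ∀ l ∈ C, ρ l.1 = some (!l.2)

omit [DecidableEq V] in
theorem KT.mono {ρ ρ' : PA V} (h : Ext ρ ρ') {C : Clause V} (hC : KT ρ C) : KT ρ' C := by
  obtain ⟨l, hl, hl'⟩ := hC
  exact ⟨l, hl, h _ _ hl'⟩

omit [DecidableEq V] in
theorem KF.mono {ρ ρ' : PA V} (h : Ext ρ ρ') {C : Clause V} (hC : KF ρ C) : KF ρ' C :=
  fun l hl => h _ _ (hC l hl)

omit [DecidableEq V] in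
theorem KT_KF {ρ : PA V} {C : Clause V} (h1 : KT ρ C) (h2 : KF ρ C) : False := by
  obtain ⟨l, hl, hl'⟩ := h1
  have := h2 l hl
  rw [hl'] at this
  simp at this

/-- Clauses derivable in depth `d`. -/
inductive Der (F : Finset (Clause V)) : ℕ → Clause V → Prop
  | ax {d : ℕ} {C : Clause V} : C ∈ F → Der F d C
  | res {d : ℕ} {A B : Clause V} (v : V) : Der F d A → Der F d B → (v, true) ∈ A →
      (v, false) ∈ B → Der F (d + 1) (A.erase (v, true) ∪ B.erase (v, false))

theorem Der.mono {F : Finset (Clause V)} {d : ℕ} {C : Clause V} (h : Der F d C) :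
    ∀ {d' : ℕ}, d ≤ d' → Der F d' C := by
  induction h with
  | ax h => intro d' _; exact Der.ax h
  | @res d A B v _ _ hA hB ih1 ih2 =>
    intro d' hd
    obtain ⟨e, rfl⟩ : ∃ e, d' = e + 1 := ⟨d' - 1, by omega⟩
    exact Der.res v (ih1 (by omega)) (ih2 (by omega)) hA hB

theorem depthAtMost_of_der {F : Finset (Clause V)} {d : ℕ} (h : Der F d ∅) :
    DepthAtMost F d := by
  classical
  refine ⟨fun C => sInf {e | Der F e C}, {C | Der F d C}, h, ?_⟩
  intro C hC
  have hle : sInf {e | Der F e C} ≤ d := Nat.sInf_le hC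
  refine ⟨hle, ?_⟩
  have hmem : Der F (sInf {e | Der F e C}) C := Nat.sInf_mem (s := {e | Der F e C}) ⟨d, hC⟩
  show C ∈ F ∨ ∃ A ∈ {C | Der F d C}, ∃ B ∈ {C | Der F d C}, ∃ v : V,
    (v, true) ∈ A ∧ (v, false) ∈ B ∧ C = A.erase (v, true) ∪ B.erase (v, false) ∧
      sInf {e | Der F e A} < sInf {e | Der F e C} ∧ sInf {e | Der F e B} < sInf {e | Der F e C}
  obtain ⟨m, hm⟩ : ∃ m, m = sInf {e | Der F e C} := ⟨_, rfl⟩
  rw [← hm] at hle hmem ⊢
  cases hmem with
  | ax h => exact Or.inl h
  | @res e A B v hA hB hvA hvB =>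
    right
    refine ⟨A, hA.mono (by omega), B, hB.mono (by omega), v, hvA, hvB, rfl, ?_, ?_⟩
    · have : sInf {e | Der F e A} ≤ e := Nat.sInf_le hA
      omega
    · have : sInf {e | Der F e B} ≤ e := Nat.sInf_le hB
      omega

theorem der_of_solve {F : Finset (Clause V)} {d : ℕ} {ρ : PA V}
    (h : Solve (fun ρ => ∃ C ∈ F, KF ρ C) d ρ) : ∃ C, Der F d C ∧ KF ρ C := by
  induction h with
  | done hG =>
    obtain ⟨C, hC, hK⟩ := hG
    exact ⟨C, Der.ax hC, hK⟩
  | @query d ρ v hv _ _ ih1 ih2 =>
    obtain ⟨C1, hC1, hK1⟩ := ih1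
    obtain ⟨C0, hC0, hK0⟩ := ih2
    have k1 : ∀ l ∈ C1, l ≠ (v, false) → ρ l.1 = some (!l.2) := by
      intro l hl hne
      have h1 := hK1 l hl
      by_cases hlv : l.1 = v
      · rw [hlv, Function.update_self] at h1
        exfalso
        apply hne
        refine Prod.ext hlv ?_
        have : true = !l.2 := Option.some.inj h1
        cases h2 : l.2
        · rfl
        · rw [h2] at this; simp at this
      · rwa [Function.update_of_ne hlv] at h1
    have k0 : ∀ l ∈ C0, l ≠ (v, true) → ρ l.1 = some (!l.2) := by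
      intro l hl hne
      have h1 := hK0 l hl
      by_cases hlv : l.1 = v
      · rw [hlv, Function.update_self] at h1
        exfalso
        apply hne
        refine Prod.ext hlv ?_
        have : false = !l.2 := Option.some.inj h1
        cases h2 : l.2
        · rw [h2] at this; simp at this
        · rfl
      · rwa [Function.update_of_ne hlv] at h1
    by_cases h1 : (v, false) ∈ C1
    · by_cases h0 : (v, true) ∈ C0
      · refine ⟨_, Der.res v hC0 hC1 h0 h1, ?_⟩
        intro l hl
        rcases mem_union.1 hl with hl | hl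
        · obtain ⟨a, b⟩ := mem_erase.1 hl
          exact k0 l b a
        · obtain ⟨a, b⟩ := mem_erase.1 hl
          exact k1 l b a
      · exact ⟨C0, hC0.mono (Nat.le_succ _), fun l hl => k0 l hl (fun h => h0 (h ▸ hl))⟩
    · exact ⟨C1, hC1.mono (Nat.le_succ _), fun l hl => k1 l hl (fun h => h1 (h ▸ hl))⟩

/-- Decision trees give resolution refutations. -/
theorem depthAtMost_of_solve {F : Finset (Clause V)} {d : ℕ}
    (h : Solve (fun ρ => ∃ C ∈ F, KF ρ C) d (fun _ => none)) : DepthAtMost F d := by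
  obtain ⟨C, hC, hK⟩ := der_of_solve h
  have : C = ∅ := by
    rw [eq_empty_iff_forall_notMem]
    intro l hl
    have := hK l hl
    simp at this
  rw [this] at hC
  exact depthAtMost_of_der hC

/-- A true configuration followed by a false one gives a falsified axiom. -/
theorem axiom_of_boundary {F : Finset (Clause V)} {M M' : Finset (Clause V)} (h : Step F M M')
    {ρ : PA V} (h1 : ∀ C ∈ M, KT ρ C) (h2 : ∃ C ∈ M', KF ρ C) : ∃ C ∈ F, KF ρ C := by
  obtain ⟨C, hC, hK⟩ := h2
  rcases h with ⟨A, hA, rfl⟩ | ⟨A, hA, B, hB, v, hvA, hvB, rfl⟩ | hM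
  · rcases mem_insert.1 hC with rfl | hC
    · exact ⟨C, hA, hK⟩
    · exact (KT_KF (h1 C hC) hK).elim
  · rcases mem_insert.1 hC with rfl | hC
    · exfalso
      obtain ⟨l, hl, hl'⟩ := h1 A hA
      obtain ⟨l2, hl2, hl2'⟩ := h1 B hB
      have e1 : l = (v, true) := by
        by_contra hne
        have := hK l (mem_union_left _ (mem_erase.2 ⟨hne, hl⟩))
        rw [hl'] at this
        simp at this
      have e2 : l2 = (v, false) := by
        by_contra hne
        have := hK l2 (mem_union_right _ (mem_erase.2 ⟨hne, hl2⟩))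
        rw [hl2'] at this
        simp at this
      rw [e1] at hl'
      rw [e2] at hl2'
      rw [hl'] at hl2'
      simp at hl2'
    · exact (KT_KF (h1 C hC) hK).elim
  · exact (KT_KF (h1 C (hM hC)) hK).elim

end Pool.Agent.Lib.Pad9061
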