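import Pool.Agent.Lib.Pad9061.Quad

set_option autoImplicit false

/-!
# Nested deferral with two kinds of configurations
-/

namespace Pool.Agent.Lib.Pad9061

open Finset

section

variable {V X : Type} [DecidableEq V] [DecidableEq X]

variable (S : Sys V X) (tp : ℕ → Bool)

/-- Known to be true: all items are true (first kind), or some item is true (second kind). -/
def Pos (ρ : PA V) (t : ℕ) (Y : Finset X) : Prop :=
  (tp t = true → ∀ x ∈ Y, S.T ρ x) ∧ (tp t = false → ∃ x ∈ Y, S.T ρ x)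

/-- Known to be false: some item is false (first kind), or all items are false (second kind). -/
def Neg (ρ : PA V) (t : ℕ) (Y : Finset X) : Prop :=
  (tp t = true → ∃ x ∈ Y, S.F ρ x) ∧ (tp t = false → ∀ x ∈ Y, S.F ρ x)

variable {S tp}

theorem Pos.mono {ρ ρ' : PA V} (h : Ext ρ ρ') {t : ℕ} {Y : Finset X} (hY : Pos S tp ρ t Y) :
    Pos S tp ρ' t Y := by
  refine ⟨fun ht x hx => S.T_mono h (hY.1 ht x hx), fun ht => ?_⟩
  obtain ⟨x, hx, hT⟩ := hY.2 ht
  exact ⟨x, hx, S.T_mono h hT⟩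

theorem Neg.mono {ρ ρ' : PA V} (h : Ext ρ ρ') {t : ℕ} {Y : Finset X} (hY : Neg S tp ρ t Y) :
    Neg S tp ρ' t Y := by
  refine ⟨fun ht => ?_, fun ht x hx => S.F_mono h (hY.2 ht x hx)⟩
  obtain ⟨x, hx, hT⟩ := hY.1 ht
  exact ⟨x, hx, S.F_mono h hT⟩

/-- Evaluation of a set of items. -/
theorem eval_two {Y : Finset X} {σ : ℕ} (hY : S.Ev Y) (hs : sz S.wt Y ≤ σ) (t : ℕ) (ρ : PA V) :
    Solve (fun ρ' => Pos S tp ρ' t Y ∨ Neg S tp ρ' t Y) (S.e0 + σ) ρ := by
  refine ((S.eval Y hY ρ).mono (by omega)).weaken fun ρ' _ h => ?_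
  cases htp : tp t with
  | true =>
    by_cases hall : ∀ x ∈ Y, S.T ρ' x
    · exact Or.inl ⟨fun _ => hall, fun h' => by rw [htp] at h'; simp at h'⟩
    · push Not at hall
      obtain ⟨x, hx, hT⟩ := hall
      exact Or.inr ⟨fun _ => ⟨x, hx, (h x hx).resolve_left hT⟩,
        fun h' => by rw [htp] at h'; simp at h'⟩
  | false =>
    by_cases hall : ∀ x ∈ Y, S.F ρ' x
    · exact Or.inr ⟨fun h' => by rw [htp] at h'; simp at h', fun _ => hall⟩
    · push Not at hall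
      obtain ⟨x, hx, hF⟩ := hall
      exact Or.inl ⟨fun h' => by rw [htp] at h'; simp at h',
        fun _ => ⟨x, hx, (h x hx).resolve_right hF⟩⟩

variable {c : ℕ → Finset X} {s : ℕ} {𝓔 : Finset X} {κ : ℝ}

variable (S tp)

/-- The goal of a level of the search. -/
def TGoal (c : ℕ → Finset X) (s : ℕ) (𝓔 : Finset X) (κ : ℝ) (J : ℕ) (a b : ℕ) (Z : Finset X)
    (W : ℕ → ℝ) (y : ℝ) (ρ : PA V) : Prop :=
  ∃ a' b', a ≤ a' ∧ a' < b' ∧ b' ≤ b ∧ Pos S tp ρ a' (c a' \ Z) ∧ Neg S tp ρ b' (c b' \ Z) ∧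
    Pot S.wt c s 𝓔 κ a' b' y ∧ (a' = a ∨ tp a' = false ∨ W a' ≤ J) ∧
    (b' = b ∨ tp b' = true ∨ W b' ≤ J)

variable {S tp}

theorem TGoal.chain {J a b a1 b1 : ℕ} {Z : Finset X} {W : ℕ → ℝ} {y : ℝ} {ρ : PA V}
    (ha : a ≤ a1) (hb : b1 ≤ b) (hW : a1 = a ∨ tp a1 = false ∨ W a1 ≤ J)
    (hW' : b1 = b ∨ tp b1 = true ∨ W b1 ≤ J)
    (h : TGoal S tp c s 𝓔 κ J a1 b1 Z W y ρ) : TGoal S tp c s 𝓔 κ J a b Z W y ρ := by
  obtain ⟨a', b', h1, h2, h3, h4, h5, h6, h7, h8⟩ := h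
  refine ⟨a', b', ha.trans h1, h2, h3.trans hb, h4, h5, h6, ?_, ?_⟩
  · rcases h7 with rfl | h7
    · exact hW
    · exact Or.inr h7
  · rcases h8 with rfl | h8
    · exact hW'
    · exact Or.inr h8

/-- One halving on the bottom level. -/
theorem bottom_step_two (hκ : 0 ≤ κ) {J a b : ℕ} {Z : Finset X} {W : ℕ → ℝ} {ys y y' : ℝ} {σ : ℕ}
    (hEv : ∀ t, a ≤ t → t ≤ b → S.Ev (c t))
    (hL : Lev S c s 𝓔 κ J a b Z W ys J σ) (hP : Pot S.wt c s 𝓔 κ a b y)
    (hy : y - κ ≤ y') (hys : ys ≤ y') {ρ : PA V} (hab : a < b)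
    (hT : Pos S tp ρ a (c a \ Z)) (hF : Neg S tp ρ b (c b \ Z)) :
    Solve (TGoal S tp c s 𝓔 κ J a b Z W y') ((S.e0 + σ) + (S.e0 + σ)) ρ := by
  classical
  by_cases hshort : b ≤ a + 1
  · exact Solve.done ⟨a, b, le_rfl, hab, le_rfl, hT, hF, Pot.of_short hshort _, Or.inl rfl,
      Or.inl rfl⟩
  push Not at hshort
  set μ := a + (b - a) / 2 with hμ
  have hμ1 : a < μ ∧ μ < b := by omega
  -- left neighbour
  obtain ⟨g1, h1a, h1μ, h1g, h1max⟩ : ∃ g1, a ≤ g1 ∧ g1 ≤ μ ∧ (g1 = a ∨ W g1 ≤ J) ∧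
      ∀ t, g1 < t → t ≤ μ → ¬ W t ≤ J := by
    set G := (Icc a μ).filter (fun t => t = a ∨ W t ≤ J) with hG
    have hne : G.Nonempty := ⟨a, mem_filter.2 ⟨mem_Icc.2 ⟨le_rfl, hμ1.1.le⟩, Or.inl rfl⟩⟩
    have hm := mem_filter.1 (G.max'_mem hne)
    have hm1 := mem_Icc.1 hm.1
    refine ⟨G.max' hne, hm1.1, hm1.2, hm.2, ?_⟩
    intro t ht1 ht2 hW
    have : t ∈ G := mem_filter.2 ⟨mem_Icc.2 ⟨by omega, ht2⟩, Or.inr hW⟩
    have := G.le_max' t this
    omega
  -- right neighbour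
  obtain ⟨g2, h2b, h2μ, h2g, h2min⟩ : ∃ g2, g2 ≤ b ∧ μ < g2 ∧ (g2 = b ∨ W g2 ≤ J) ∧
      ∀ t, μ < t → t < g2 → ¬ W t ≤ J := by
    set G := (Ioc μ b).filter (fun t => t = b ∨ W t ≤ J) with hG
    have hne : G.Nonempty := ⟨b, mem_filter.2 ⟨mem_Ioc.2 ⟨hμ1.2, le_rfl⟩, Or.inl rfl⟩⟩
    have hm := mem_filter.1 (G.min'_mem hne)
    have hm1 := mem_Ioc.1 hm.1
    refine ⟨G.min' hne, hm1.2, hm1.1, hm.2, ?_⟩
    intro t ht1 ht2 hW
    have : t ∈ G := mem_filter.2 ⟨mem_Ioc.2 ⟨ht1, by omega⟩, Or.inr hW⟩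
    have := G.min'_le t this
    omega
  -- the middle interval has a drop
  have hmid : Pot S.wt c s 𝓔 κ g1 g2 y' := by
    refine Pot.mono hκ le_rfl le_rfl hys ?_
    intro π hπ
    by_contra hcon
    push Not at hcon
    have h3 := hL.avg g1 g2 h1a h2b π hπ hcon
    have hbad : ∀ t ∈ Ioo g1 g2, (J : ℝ) < W t := by
      intro t ht
      have := mem_Ioo.1 ht
      by_contra h
      push Not at h
      rcases le_or_gt t μ with h4 | h4
      · exact h1max t this.1 h4 h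
      · exact h2min t h4 this.2 h
    obtain ⟨t0, ht0, hpos⟩ : ∃ t ∈ Ioo g1 g2, 0 < π t := by
      by_contra h
      push Not at h
      have : ∑ t ∈ Ioo g1 g2, π t ≤ 0 := sum_nonpos h
      rw [hπ.2] at this
      linarith
    have h4 : ∑ t ∈ Ioo g1 g2, π t * (J : ℝ) < ∑ t ∈ Ioo g1 g2, π t * W t :=
      sum_lt_sum (fun t ht => mul_le_mul_of_nonneg_left (hbad t ht).le (hπ.1 t))
        ⟨t0, ht0, mul_lt_mul_of_pos_left (hbad t0 ht0) hpos⟩
    rw [← sum_mul, hπ.2, one_mul] at h4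
    linarith
  have hev1 : Solve (fun ρ' => Pos S tp ρ' g1 (c g1 \ Z) ∨
      (a < g1 ∧ Neg S tp ρ' g1 (c g1 \ Z) ∧ W g1 ≤ J)) (S.e0 + σ) ρ := by
    rcases h1g with h | h
    · rw [h]; exact Solve.done (Or.inl hT)
    · by_cases hg : g1 = a
      · rw [hg]; exact Solve.done (Or.inl hT)
      · refine (eval_two (tp := tp) (S.Ev_sub sdiff_subset (hEv g1 h1a (by omega)))
          (hL.small g1 (mem_Ioo.2 ⟨by omega, by omega⟩) h) g1 ρ).weaken fun ρ' _ h' => ?_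
        exact h'.imp id fun h'' => ⟨by omega, h'', h⟩
  refine hev1.bind fun ρ1 he1 h1 => ?_
  rcases h1 with hT1 | ⟨hag, hF1, hW1⟩
  swap
  · exact Solve.done ⟨a, g1, le_rfl, hag, by omega, hT.mono he1, hF1,
      (hP.half hκ le_rfl (by omega) hag (by omega)).mono hκ le_rfl le_rfl hy, Or.inl rfl,
      Or.inr (Or.inr hW1)⟩
  have hev2 : Solve (fun ρ' => (g2 < b ∧ Pos S tp ρ' g2 (c g2 \ Z) ∧ W g2 ≤ J) ∨
      Neg S tp ρ' g2 (c g2 \ Z)) (S.e0 + σ) ρ1 := by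
    rcases h2g with h | h
    · rw [h]; exact Solve.done (Or.inr (hF.mono he1))
    · by_cases hg : g2 = b
      · rw [hg]; exact Solve.done (Or.inr (hF.mono he1))
      · refine (eval_two (tp := tp) (S.Ev_sub sdiff_subset (hEv g2 (by omega) (by omega)))
          (hL.small g2 (mem_Ioo.2 ⟨by omega, by omega⟩) h) g2 ρ1).weaken fun ρ' _ h' => ?_
        exact h'.imp (fun h'' => ⟨by omega, h'', h⟩) id
  refine hev2.weaken fun ρ2 he2 h2 => ?_
  rcases h2 with ⟨hgb, hT2, hW2⟩ | hF2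
  · exact ⟨g2, b, by omega, hgb, le_rfl, hT2, (hF.mono he1).mono he2,
      (hP.half hκ (by omega) le_rfl hgb (by omega)).mono hκ le_rfl le_rfl hy,
      Or.inr (Or.inr hW2), Or.inl rfl⟩
  · exact ⟨g1, g2, h1a, by omega, h2b, hT1.mono he2, hF2, hmid,
      h1g.imp id fun h => Or.inr h, h2g.imp id fun h => Or.inr h⟩

/-- The bottom level. -/
theorem bottom_two (hκ : 0 ≤ κ) {J a b : ℕ} {Z : Finset X} {W : ℕ → ℝ} {ys : ℝ} {σ : ℕ}
    (hEv : ∀ t, a ≤ t → t ≤ b → S.Ev (c t))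
    (hL : Lev S c s 𝓔 κ J a b Z W ys J σ) (hP : Pot S.wt c s 𝓔 κ a b (ys + 2 * κ))
    {ρ : PA V} (hab : a < b)
    (hT : Pos S tp ρ a (c a \ Z)) (hF : Neg S tp ρ b (c b \ Z)) :
    Solve (TGoal S tp c s 𝓔 κ J a b Z W ys) (4 * (S.e0 + σ)) ρ := by
  have e : 4 * (S.e0 + σ) = ((S.e0 + σ) + (S.e0 + σ)) + ((S.e0 + σ) + (S.e0 + σ)) := by ring
  rw [e]
  refine (bottom_step_two hκ hEv hL hP (y' := ys + κ) (by linarith) (by linarith) hab hT hF).bind
    fun ρ1 he1 h1 => ?_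
  obtain ⟨a1, b1, h1, h2, h3, h4, h5, h6, h7, h8⟩ := h1
  refine (bottom_step_two hκ (fun t ht1 ht2 => hEv t (by omega) (by omega)) (hL.mono h1 h3) h6
    (y' := ys) (by linarith) le_rfl h2 h4 h5).weaken fun ρ2 he2 h => ?_
  exact h.chain h1 h3 h7 h8

/-- One round on a level. -/
theorem level_round_two (hκ : 0 ≤ κ) (hs : 0 < s)
    (htag : ∀ t t' x, x ∈ c t → x ∈ c t' → tp t = tp t')
    {J a b : ℕ} {Z : Finset X} {W : ℕ → ℝ}
    {ys y δ j : ℝ} {σ σ' cost : ℕ}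
    (hδ : 0 < δ) (hW0 : ∀ t, 0 ≤ W t)
    (hEv : ∀ t, a ≤ t → t ≤ b → S.Ev (c t) ∧ sz S.wt (c t) ≤ s ∧ c t ⊆ 𝓔)
    (hL : Lev S c s 𝓔 κ J a b Z W ys j σ) (hP : Pot S.wt c s 𝓔 κ a b y)
    (hys : ys ≤ y - δ) (hσ' : 6 * (J : ℝ) * δ * s ≤ σ')
    (sub : ∀ (Z' : Finset X) (W' : ℕ → ℝ) (ρ' : PA V), (∀ t, 0 ≤ W' t) →
      Lev S c s 𝓔 κ J a b Z' W' (y - δ) (j + 1) σ' →
      Pos S tp ρ' a (c a \ Z') → Neg S tp ρ' b (c b \ Z') →
      Solve (TGoal S tp c s 𝓔 κ J a b Z' W' (y - δ)) cost ρ')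
    {ρ : PA V} (hab : a < b) (hT : Pos S tp ρ a (c a \ Z)) (hF : Neg S tp ρ b (c b \ Z)) :
    Solve (TGoal S tp c s 𝓔 κ J a b Z W (y - δ)) (cost + ((S.e0 + σ) + (S.e0 + σ))) ρ := by
  classical
  by_cases hdrop : Pot S.wt c s 𝓔 κ a b (y - δ)
  · exact Solve.done ⟨a, b, le_rfl, hab, le_rfl, hT, hF, hdrop, Or.inl rfl, Or.inl rfl⟩
  -- the minimal left reference block
  have hex : ∃ θ, a < θ ∧ θ < b ∧ ¬ Pot S.wt c s 𝓔 κ a (θ + 1) (y - δ) := by
    refine ⟨b - 1, ?_, by omega, ?_⟩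
    · by_contra h
      exact hdrop (Pot.of_short (by omega) _)
    · have : b - 1 + 1 = b := by omega
      rw [this]
      exact hdrop
  obtain ⟨θ, ⟨ha, hb, hθ⟩, hmin⟩ :
      ∃ θ, (a < θ ∧ θ < b ∧ ¬ Pot S.wt c s 𝓔 κ a (θ + 1) (y - δ)) ∧
        ∀ t < θ, ¬ (a < t ∧ t < b ∧ ¬ Pot S.wt c s 𝓔 κ a (t + 1) (y - δ)) :=
    ⟨Nat.find hex, Nat.find_spec hex, fun t ht => Nat.find_min hex ht⟩
  have hleft : ∀ t' ∈ Ioc a θ, Pot S.wt c s 𝓔 κ a t' (y - δ) := by
    intro t' ht'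
    obtain ⟨h1, h2⟩ := mem_Ioc.1 ht'
    by_cases h3 : a < t' - 1
    · have h4 := hmin (t' - 1) (by omega)
      by_contra h
      apply h4
      refine ⟨h3, by omega, ?_⟩
      have : t' - 1 + 1 = t' := by omega
      rw [this]
      exact h
    · exact Pot.of_short (by omega) _
  -- the minimal right reference block
  have hex2 : ∃ e, a < b - e ∧ 0 < e ∧ ¬ Pot S.wt c s 𝓔 κ (b - e - 1) b (y - δ) := by
    have hab2 : a + 1 < b := by
      by_contra h
      exact hdrop (Pot.of_short (by omega) _)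
    refine ⟨b - (a + 1), by omega, by omega, ?_⟩
    have : b - (b - (a + 1)) - 1 = a := by omega
    rw [this]
    exact hdrop
  obtain ⟨e, ⟨hea, he0, hθ2⟩, hmin2⟩ :
      ∃ e, (a < b - e ∧ 0 < e ∧ ¬ Pot S.wt c s 𝓔 κ (b - e - 1) b (y - δ)) ∧
        ∀ e' < e, ¬ (a < b - e' ∧ 0 < e' ∧ ¬ Pot S.wt c s 𝓔 κ (b - e' - 1) b (y - δ)) :=
    ⟨Nat.find hex2, Nat.find_spec hex2, fun t ht => Nat.find_min hex2 ht⟩
  set θ2 := b - e with hθ2def
  have hright : ∀ t' ∈ Ico θ2 b, Pot S.wt c s 𝓔 κ t' b (y - δ) := by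
    intro t' ht'
    obtain ⟨h1, h2⟩ := mem_Ico.1 ht'
    by_cases h3 : t' + 1 < b
    · have h4 := hmin2 (b - (t' + 1)) (by omega)
      by_contra h
      apply h4
      refine ⟨by omega, by omega, ?_⟩
      have : b - (b - (t' + 1)) - 1 = t' := by omega
      rw [this]
      exact h
    · exact Pot.of_short (by omega) _
  set BL := ((Ioc a θ).filter (fun t => tp t = true)).biUnion c with hBL
  set BR := ((Ico θ2 b).filter (fun t => tp t = false)).biUnion c with hBR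
  -- falsity inside the left reference block gives a drop
  have hleft' : ∀ (ρ' : PA V) (E : X), Pos S tp ρ' a (c a \ Z) → E ∈ BL → E ∉ Z →
      S.F ρ' E → TGoal S tp c s 𝓔 κ J a b Z W (y - δ) ρ' := by
    intro ρ' E hT' hE hEZ hFE
    obtain ⟨t', ht', hEt'⟩ := mem_biUnion.1 hE
    obtain ⟨ht1, htt⟩ := mem_filter.1 ht'
    have := mem_Ioc.1 ht1
    refine ⟨a, t', le_rfl, this.1, by omega, hT', ⟨fun _ => ⟨E, mem_sdiff.2 ⟨hEt', hEZ⟩, hFE⟩,
      fun h => ?_⟩, hleft t' ht1, Or.inl rfl, Or.inr (Or.inl htt)⟩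
    rw [htt] at h
    simp at h
  -- truth inside the right reference block gives a drop
  have hright' : ∀ (ρ' : PA V) (E : X), Neg S tp ρ' b (c b \ Z) → E ∈ BR → E ∉ Z →
      S.T ρ' E → TGoal S tp c s 𝓔 κ J a b Z W (y - δ) ρ' := by
    intro ρ' E hF' hE hEZ hTE
    obtain ⟨t', ht', hEt'⟩ := mem_biUnion.1 hE
    obtain ⟨ht1, htt⟩ := mem_filter.1 ht'
    have := mem_Ico.1 ht1
    refine ⟨t', b, by omega, this.2, le_rfl, ⟨fun h => ?_, fun _ => ⟨E, mem_sdiff.2 ⟨hEt', hEZ⟩,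
      hTE⟩⟩, hF', hright t' ht1, Or.inr (Or.inl htt), Or.inl rfl⟩
    rw [htt] at h
    simp at h
  have hBLtag : ∀ t E, E ∈ c t → E ∈ BL → tp t = true := by
    intro t E hE hEB
    obtain ⟨t', ht', hEt'⟩ := mem_biUnion.1 hEB
    rw [htag t t' E hE hEt']
    exact (mem_filter.1 ht').2
  have hBRtag : ∀ t E, E ∈ c t → E ∈ BR → tp t = false := by
    intro t E hE hEB
    obtain ⟨t', ht', hEt'⟩ := mem_biUnion.1 hEB
    rw [htag t t' E hE hEt']
    exact (mem_filter.1 ht').2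
  set Z' := Z ∪ (BL ∪ BR) with hZ'
  have hZsub : ∀ Y : Finset X, Y \ Z' ⊆ Y \ Z := fun Y =>
    sdiff_subset_sdiff (subset_refl _) subset_union_left
  -- the certificates at the ends
  have hendA : TGoal S tp c s 𝓔 κ J a b Z W (y - δ) ρ ∨ Pos S tp ρ a (c a \ Z') := by
    cases hta : tp a with
    | true =>
      right
      exact ⟨fun _ x hx => hT.1 hta x (hZsub _ hx), fun h => by rw [hta] at h; simp at h⟩
    | false =>
      obtain ⟨E1, hE1, hTE1⟩ := hT.2 hta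
      by_cases hocc : E1 ∈ BR
      · left
        exact hright' ρ E1 hF hocc (mem_sdiff.1 hE1).2 hTE1
      · right
        refine ⟨fun h => by rw [hta] at h; simp at h, fun _ => ⟨E1, mem_sdiff.2
          ⟨(mem_sdiff.1 hE1).1, ?_⟩, hTE1⟩⟩
        rw [hZ', mem_union, mem_union]
        rintro (h | h | h)
        · exact (mem_sdiff.1 hE1).2 h
        · have := hBLtag a E1 (mem_sdiff.1 hE1).1 h
          rw [hta] at this
          simp at this
        · exact hocc h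
  have hendB : TGoal S tp c s 𝓔 κ J a b Z W (y - δ) ρ ∨ Neg S tp ρ b (c b \ Z') := by
    cases htb : tp b with
    | false =>
      right
      exact ⟨fun h => by rw [htb] at h; simp at h, fun _ x hx => hF.2 htb x (hZsub _ hx)⟩
    | true =>
      obtain ⟨E0, hE0, hFE0⟩ := hF.1 htb
      by_cases hocc : E0 ∈ BL
      · left
        exact hleft' ρ E0 hT hocc (mem_sdiff.1 hE0).2 hFE0
      · right
        refine ⟨fun _ => ⟨E0, mem_sdiff.2 ⟨(mem_sdiff.1 hE0).1, ?_⟩, hFE0⟩,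
          fun h => by rw [htb] at h; simp at h⟩
        rw [hZ', mem_union, mem_union]
        rintro (h | h | h)
        · exact (mem_sdiff.1 hE0).2 h
        · exact hocc h
        · have := hBRtag b E0 (mem_sdiff.1 hE0).1 h
          rw [htb] at this
          simp at this
  rcases hendA with hdone | hTa
  · exact Solve.done hdone
  rcases hendB with hdone | hFb
  · exact Solve.done hdone
  have hsR : (0 : ℝ) < s := by exact_mod_cast hs
  have h3 : (0 : ℝ) < 6 * δ * s := by positivity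
  set W' : ℕ → ℝ := fun t => W t + (sz S.wt (c t \ (BL ∪ BR)) : ℝ) / (6 * δ * s) with hW'
  have hWW' : ∀ t, W t ≤ W' t := by
    intro t
    have : 0 ≤ (sz S.wt (c t \ (BL ∪ BR)) : ℝ) / (6 * δ * s) := by positivity
    simp only [hW']
    linarith
  have hIoc : Ioc a θ = Ioo a (θ + 1) := by
    ext t
    simp only [mem_Ioc, mem_Ioo]
    omega
  have hIco : Ico θ2 b = Ioo (θ2 - 1) b := by
    ext t
    simp only [mem_Ico, mem_Ioo]
    omega
  have hL' : Lev S c s 𝓔 κ J a b Z' W' (y - δ) (j + 1) σ' := by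
    refine ⟨?_, ?_⟩
    · intro a' b' ha' hb' π₂ h₂ e₂
      have h4 := hL.avg a' b' ha' hb' π₂ h₂ (by linarith)
      have hθ' := hθ
      unfold Pot Up at hθ'
      push Not at hθ'
      obtain ⟨π₁, h₁, e₁⟩ := hθ'
      rw [← hIoc] at h₁ e₁
      have hθ2' := hθ2
      unfold Pot Up at hθ2'
      push Not at hθ2'
      obtain ⟨π₃, h₃, e₃⟩ := hθ2'
      rw [← hIco] at h₃ e₃
      have hc1 : (Nat.clog 2 (θ + 1 - a) : ℝ) ≤ (Nat.clog 2 (b - a) : ℝ) := by
        exact_mod_cast Nat.clog_mono_right 2 (by omega)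
      have hc2 : (Nat.clog 2 (b' - a') : ℝ) ≤ (Nat.clog 2 (b - a) : ℝ) := by
        exact_mod_cast Nat.clog_mono_right 2 (by omega)
      have hc3 : (Nat.clog 2 (b - (θ2 - 1)) : ℝ) ≤ (Nat.clog 2 (b - a) : ℝ) := by
        exact_mod_cast Nat.clog_mono_right 2 (by omega)
      have hc1' := mul_le_mul_of_nonneg_left hc1 hκ
      have hc2' := mul_le_mul_of_nonneg_left hc2 hκ
      have hc3' := mul_le_mul_of_nonneg_left hc3 hκ
      set ZA := ((Ioo a' b').filter (fun t => tp t = true)).biUnion (fun t => c t \ BL) with hZA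
      set ZB := ((Ioo a' b').filter (fun t => tp t = false)).biUnion (fun t => c t \ BR) with hZB
      have hmA := mixing (Z := ZA) (A := Ioc a θ) (J := Ioo a' b') (I := Ioo a b) (δ := δ)
        (by
          intro t ht
          have := mem_Ioc.1 ht
          exact mem_Ioo.2 ⟨this.1, by omega⟩)
        (by
          intro t ht
          have := mem_Ioo.1 ht
          exact mem_Ioo.2 ⟨by omega, by omega⟩)
        hP h₁ h₂ (by linarith) (by linarith)
        (by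
          intro E hE
          obtain ⟨t, ht, hEt⟩ := mem_biUnion.1 hE
          have ht' := mem_Ioo.1 (mem_filter.1 ht).1
          exact (hEv t (by omega) (by omega)).2.2 (mem_sdiff.1 hEt).1)
        (by
          intro E hE t ht h
          obtain ⟨t1, ht1, hEt1⟩ := mem_biUnion.1 hE
          have h5 := (mem_sdiff.1 hEt1).2
          apply h5
          refine mem_biUnion.2 ⟨t, mem_filter.2 ⟨ht, ?_⟩, h⟩
          rw [htag t t1 E h (mem_sdiff.1 hEt1).1]
          exact (mem_filter.1 ht1).2)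
      have hmB := mixing (Z := ZB) (A := Ico θ2 b) (J := Ioo a' b') (I := Ioo a b) (δ := δ)
        (by
          intro t ht
          have := mem_Ico.1 ht
          exact mem_Ioo.2 ⟨by omega, this.2⟩)
        (by
          intro t ht
          have := mem_Ioo.1 ht
          exact mem_Ioo.2 ⟨by omega, by omega⟩)
        hP h₃ h₂ (by linarith) (by linarith)
        (by
          intro E hE
          obtain ⟨t, ht, hEt⟩ := mem_biUnion.1 hE
          have ht' := mem_Ioo.1 (mem_filter.1 ht).1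
          exact (hEv t (by omega) (by omega)).2.2 (mem_sdiff.1 hEt).1)
        (by
          intro E hE t ht h
          obtain ⟨t1, ht1, hEt1⟩ := mem_biUnion.1 hE
          have h5 := (mem_sdiff.1 hEt1).2
          apply h5
          refine mem_biUnion.2 ⟨t, mem_filter.2 ⟨ht, ?_⟩, h⟩
          rw [htag t t1 E h (mem_sdiff.1 hEt1).1]
          exact (mem_filter.1 ht1).2)
      rw [sum_qd] at hmA hmB
      have h5 : ∑ t ∈ Ioo a' b', π₂ t * ((sz S.wt (c t \ (BL ∪ BR)) : ℝ) / (6 * δ * s)) ≤ 1 := by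
        have hpt : ∀ t ∈ Ioo a' b', π₂ t * ((sz S.wt (c t \ (BL ∪ BR)) : ℝ) / s) ≤
            π₂ t * ((sz S.wt (ZA ∩ c t) : ℝ) / s) + π₂ t * ((sz S.wt (ZB ∩ c t) : ℝ) / s) := by
          intro t ht
          rw [← mul_add, ← add_div]
          refine mul_le_mul_of_nonneg_left ?_ (h₂.1 t)
          gcongr
          have h6 : c t \ (BL ∪ BR) ⊆ (ZA ∩ c t) ∪ (ZB ∩ c t) := by
            intro E hE
            obtain ⟨hE1, hE2⟩ := mem_sdiff.1 hE
            rw [mem_union, not_or] at hE2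
            cases htt : tp t with
            | true =>
              exact mem_union_left _ (mem_inter.2 ⟨mem_biUnion.2 ⟨t, mem_filter.2 ⟨ht, htt⟩,
                mem_sdiff.2 ⟨hE1, hE2.1⟩⟩, hE1⟩)
            | false =>
              exact mem_union_right _ (mem_inter.2 ⟨mem_biUnion.2 ⟨t, mem_filter.2 ⟨ht, htt⟩,
                mem_sdiff.2 ⟨hE1, hE2.2⟩⟩, hE1⟩)
          have h7 : sz S.wt (c t \ (BL ∪ BR)) ≤ sz S.wt (ZA ∩ c t) + sz S.wt (ZB ∩ c t) := by
            refine (sz_mono h6).trans ?_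
            unfold sz
            have h8 := sum_union_inter (s₁ := ZA ∩ c t) (s₂ := ZB ∩ c t) (f := S.wt)
            omega
          exact_mod_cast h7
        have h6 : ∑ t ∈ Ioo a' b', π₂ t * ((sz S.wt (c t \ (BL ∪ BR)) : ℝ) / (6 * δ * s)) =
            (∑ t ∈ Ioo a' b', π₂ t * ((sz S.wt (c t \ (BL ∪ BR)) : ℝ) / s)) / (6 * δ) := by
          rw [sum_div]
          refine sum_congr rfl fun t ht => ?_
          field_simp
        rw [h6, div_le_one (by positivity)]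
        have h7 := sum_le_sum hpt
        rw [sum_add_distrib] at h7
        linarith
      calc ∑ t ∈ Ioo a' b', π₂ t * W' t = ∑ t ∈ Ioo a' b', π₂ t * W t +
            ∑ t ∈ Ioo a' b', π₂ t * ((sz S.wt (c t \ (BL ∪ BR)) : ℝ) / (6 * δ * s)) := by
            rw [← sum_add_distrib]
            refine sum_congr rfl fun t _ => ?_
            simp only [hW']
            ring
        _ ≤ j + 1 := by linarith
    · intro t ht hWt
      have h4 : (sz S.wt (c t \ (BL ∪ BR)) : ℝ) / (6 * δ * s) ≤ J := by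
        have := hW0 t
        simp only [hW'] at hWt
        linarith
      rw [div_le_iff₀ h3] at h4
      have h5 : (sz S.wt (c t \ (BL ∪ BR)) : ℝ) ≤ σ' := by
        calc _ ≤ _ := h4
          _ = 6 * (J : ℝ) * δ * s := by ring
          _ ≤ _ := hσ'
      have h6 : sz S.wt (c t \ (BL ∪ BR)) ≤ σ' := by exact_mod_cast h5
      exact (sz_mono (sdiff_subset_sdiff (subset_refl _) subset_union_right)).trans h6
  refine (sub Z' W' ρ (fun t => (hW0 t).trans (hWW' t)) hL' hTa hFb).bind fun ρ1 he1 h1 => ?_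
  obtain ⟨a', b', h1, h2, h3, h4, h5, h6, h7, h8⟩ := h1
  have hT1 := hT.mono he1
  have hF1 := hF.mono he1
  -- the left end
  have hstepA : Solve (fun ρ2 => TGoal S tp c s 𝓔 κ J a b Z W (y - δ) ρ2 ∨
      (Pos S tp ρ2 a' (c a' \ Z) ∧ (a' = a ∨ tp a' = false ∨ W a' ≤ J))) (S.e0 + σ) ρ1 := by
    by_cases haa : a' = a
    · subst haa
      exact Solve.done (Or.inr ⟨hT1, Or.inl rfl⟩)
    cases hta : tp a' with
    | false =>
      obtain ⟨E, hE, hTE⟩ := h4.2 hta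
      refine Solve.done (Or.inr ⟨⟨fun h => by rw [hta] at h; simp at h,
        fun _ => ⟨E, hZsub _ hE, hTE⟩⟩, Or.inr (Or.inl rfl)⟩)
    | true =>
      have hWa : W a' ≤ J := by
        rcases h7 with h | h | h
        · exact absurd h haa
        · rw [hta] at h; simp at h
        · exact (hWW' a').trans h
      refine (eval_two (tp := tp) (S.Ev_sub sdiff_subset (hEv a' h1 (by omega)).1)
        (hL.small a' (mem_Ioo.2 ⟨by omega, by omega⟩) hWa) a' ρ1).weaken fun ρ2 he2 h9 => ?_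
      rcases h9 with hT2 | hF2
      · exact Or.inr ⟨hT2, Or.inr (Or.inr hWa)⟩
      · left
        obtain ⟨E1, hE1, hFE1⟩ := hF2.1 hta
        refine hleft' ρ2 E1 (hT1.mono he2) ?_ (mem_sdiff.1 hE1).2 hFE1
        by_contra h
        have h10 : E1 ∈ c a' \ Z' := by
          refine mem_sdiff.2 ⟨(mem_sdiff.1 hE1).1, ?_⟩
          rw [hZ', mem_union, mem_union]
          rintro (h' | h' | h')
          · exact (mem_sdiff.1 hE1).2 h'
          · exact h h'
          · have := hBRtag a' E1 (mem_sdiff.1 hE1).1 h'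
            rw [hta] at this
            simp at this
        exact S.excl (S.T_mono he2 (h4.1 hta E1 h10)) hFE1
  refine hstepA.bind fun ρ2 he2 hA => ?_
  rcases hA with hdone | ⟨hTa', hWa'⟩
  · exact Solve.done hdone
  -- the right end
  by_cases hbb : b' = b
  · subst hbb
    exact Solve.done ⟨a', b', h1, h2, h3, hTa', hF1.mono he2, h6, hWa', Or.inl rfl⟩
  cases htb : tp b' with
  | true =>
    obtain ⟨E, hE, hFE⟩ := h5.1 htb
    exact Solve.done ⟨a', b', h1, h2, h3, hTa', ⟨fun _ => ⟨E, hZsub _ hE, S.F_mono he2 hFE⟩,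
      fun h => by rw [htb] at h; simp at h⟩, h6, hWa', Or.inr (Or.inl htb)⟩
  | false =>
    have hWb : W b' ≤ J := by
      rcases h8 with h | h | h
      · exact absurd h hbb
      · rw [htb] at h; simp at h
      · exact (hWW' b').trans h
    refine (eval_two (tp := tp) (S.Ev_sub sdiff_subset (hEv b' (by omega) h3).1)
      (hL.small b' (mem_Ioo.2 ⟨by omega, by omega⟩) hWb) b' ρ2).weaken fun ρ3 he3 h9 => ?_
    rcases h9 with hT3 | hF3
    · obtain ⟨E1, hE1, hTE1⟩ := hT3.2 htb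
      refine hright' ρ3 E1 (hF1.mono (he2.trans he3)) ?_ (mem_sdiff.1 hE1).2 hTE1
      by_contra h
      have h10 : E1 ∈ c b' \ Z' := by
        refine mem_sdiff.2 ⟨(mem_sdiff.1 hE1).1, ?_⟩
        rw [hZ', mem_union, mem_union]
        rintro (h' | h' | h')
        · exact (mem_sdiff.1 hE1).2 h'
        · have := hBLtag b' E1 (mem_sdiff.1 hE1).1 h'
          rw [htb] at this
          simp at this
        · exact h h'
      exact S.excl hTE1 (S.F_mono (he2.trans he3) (h5.2 htb E1 h10))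
    · exact ⟨a', b', h1, h2, h3, hTa'.mono he3, hF3, h6, hWa', Or.inr (Or.inr hWb)⟩

/-- Cost of a level. -/
def costT (e0 : ℕ) (σ : ℕ → ℕ) (J : ℕ) : ℕ → ℕ
  | 0 => 4 * (e0 + σ J)
  | d + 1 => 2 * (costT e0 σ J d + ((e0 + σ (J - (d + 1))) + (e0 + σ (J - (d + 1)))))

/-- The search on a level. -/
theorem level_two (hκ : 0 ≤ κ) (hs : 0 < s)
    (htag : ∀ t t' x, x ∈ c t → x ∈ c t' → tp t = tp t')
    {J : ℕ} (hJ : (1 / 2 : ℝ) ^ J ≤ κ) (σ : ℕ → ℕ)
    (hσ : ∀ j, 1 ≤ j → 12 * (J : ℝ) * (1 / 2) ^ j * s ≤ σ j) :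
    ∀ (d j : ℕ), 1 ≤ j → j + d = J → ∀ (a b : ℕ) (Z : Finset X) (W : ℕ → ℝ) (ys : ℝ) (ρ : PA V),
    (∀ t, 0 ≤ W t) →
    (∀ t, a ≤ t → t ≤ b → S.Ev (c t) ∧ sz S.wt (c t) ≤ s ∧ c t ⊆ 𝓔) →
    Lev S c s 𝓔 κ J a b Z W ys j (σ j) → Pot S.wt c s 𝓔 κ a b (ys + 2 * (1 / 2) ^ j) →
    a < b → Pos S tp ρ a (c a \ Z) → Neg S tp ρ b (c b \ Z) →
    Solve (TGoal S tp c s 𝓔 κ J a b Z W ys) (costT S.e0 σ J d) ρ := by
  intro d
  induction d with
  | zero =>
    intro j hj hjd a b Z W ys ρ hW0 hEv hL hP hab hT hF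
    have hjJ : j = J := by omega
    subst hjJ
    exact bottom_two hκ (fun t h1 h2 => (hEv t h1 h2).1) hL
      (hP.mono hκ le_rfl le_rfl (by linarith)) hab hT hF
  | succ d ih =>
    intro j hj hjd a b Z W ys ρ hW0 hEv hL hP hab hT hF
    have hJd : J - (d + 1) = j := by omega
    show Solve _ (2 * (costT S.e0 σ J d + ((S.e0 + σ (J - (d + 1))) +
      (S.e0 + σ (J - (d + 1)))))) ρ
    rw [hJd, two_mul]
    set δ : ℝ := (1 / 2) ^ j with hδ
    have hδ0 : 0 < δ := by positivity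
    have hδ1 : 2 * (1 / 2 : ℝ) ^ (j + 1) = δ := by rw [hδ, pow_succ]; ring
    have hstep : ∀ (a1 b1 : ℕ) (y : ℝ) (ρ1 : PA V), a ≤ a1 → b1 ≤ b → a1 < b1 → ys ≤ y - δ →
        Pot S.wt c s 𝓔 κ a1 b1 y → Pos S tp ρ1 a1 (c a1 \ Z) → Neg S tp ρ1 b1 (c b1 \ Z) →
        Solve (TGoal S tp c s 𝓔 κ J a1 b1 Z W (y - δ))
          (costT S.e0 σ J d + ((S.e0 + σ j) + (S.e0 + σ j))) ρ1 := by
      intro a1 b1 y ρ1 ha1 hb1 hab1 hy hP1 hT1 hF1
      have hEv1 : ∀ t, a1 ≤ t → t ≤ b1 → S.Ev (c t) ∧ sz S.wt (c t) ≤ s ∧ c t ⊆ 𝓔 :=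
        fun t h1 h2 => hEv t (by omega) (by omega)
      refine level_round_two hκ hs htag hδ0 hW0 hEv1 (hL.mono ha1 hb1) hP1 hy
        (σ' := σ (j + 1)) ?_ ?_ hab1 hT1 hF1
      · have := hσ (j + 1) (by omega)
        calc 6 * (J : ℝ) * δ * s = 12 * (J : ℝ) * (1 / 2) ^ (j + 1) * s := by rw [← hδ1]; ring
          _ ≤ _ := this
      · intro Z' W' ρ' hW0' hL' hT' hF'
        have hcast : ((j : ℝ) + 1) = ((j + 1 : ℕ) : ℝ) := by push_cast; ring
        rw [hcast] at hL'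
        refine ih (j + 1) (by omega) (by omega) a1 b1 Z' W' (y - δ) ρ' hW0' hEv1 hL' ?_ hab1
          hT' hF'
        rw [hδ1]
        exact hP1.mono hκ le_rfl le_rfl (by linarith)
    refine (hstep a b (ys + 2 * δ) ρ le_rfl le_rfl hab (by linarith) hP hT hF).bind
      fun ρ1 he1 h1 => ?_
    obtain ⟨a1, b1, h1, h2, h3, h4, h5, h6, h7, h8⟩ := h1
    refine (hstep a1 b1 (ys + 2 * δ - δ) ρ1 h1 h3 h2 (by linarith) h6 h4 h5).weaken
      fun ρ2 he2 h => ?_
    have e : ys + 2 * δ - δ - δ = ys := by ring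
    rw [e] at h
    exact h.chain h1 h3 h7 h8

/-- The search on the top level. -/
theorem top_level_two (hκ : 0 ≤ κ) (hs : 0 < s)
    (htag : ∀ t t' x, x ∈ c t → x ∈ c t' → tp t = tp t')
    {J : ℕ} (hJ1 : 1 ≤ J) (hJ : (1 / 2 : ℝ) ^ J ≤ κ)
    (σ : ℕ → ℕ) (hσ : ∀ j, 1 ≤ j → 12 * (J : ℝ) * (1 / 2) ^ j * s ≤ σ j) :
    ∀ (N a b : ℕ) (y : ℝ) (ρ : PA V), y < N →
    (∀ t, a ≤ t → t ≤ b → S.Ev (c t) ∧ sz S.wt (c t) ≤ s ∧ c t ⊆ 𝓔) →
    Pot S.wt c s 𝓔 κ a b y → a < b → Pos S tp ρ a (c a) → Neg S tp ρ b (c b) →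
    Solve (fun ρ' => ∃ t, a ≤ t ∧ t < b ∧ Pos S tp ρ' t (c t) ∧ Neg S tp ρ' (t + 1) (c (t + 1)))
      (N * (costT S.e0 σ J (J - 1) + ((S.e0 + s) + (S.e0 + s)))) ρ := by
  intro N
  induction N with
  | zero =>
    intro a b y ρ hy hEv hP hab hT hF
    have h0 : (0 : ℝ) ≤ κ * (Nat.clog 2 (b - a) : ℝ) := by positivity
    have h1 : Ioo a b = ∅ := eq_empty_of_up (x := y - κ * (Nat.clog 2 (b - a) : ℝ))
      (by push_cast at hy; linarith)
      (fun t ht => by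
        have := mem_Ioo.1 ht
        exact (hEv t this.1.le this.2.le).2.1) hP
    have h2 : b = a + 1 := by
      by_contra hne
      have : a + 1 ∈ Ioo a b := mem_Ioo.2 ⟨by omega, by omega⟩
      rw [h1] at this
      simp at this
    subst h2
    exact Solve.done ⟨a, le_rfl, by omega, hT, hF⟩
  | succ N ih =>
    intro a b y ρ hy hEv hP hab hT hF
    have e : (N + 1) * (costT S.e0 σ J (J - 1) + ((S.e0 + s) + (S.e0 + s))) =
        (costT S.e0 σ J (J - 1) + ((S.e0 + s) + (S.e0 + s))) +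
          N * (costT S.e0 σ J (J - 1) + ((S.e0 + s) + (S.e0 + s))) := by
      ring
    rw [e]
    have hL : Lev S c s 𝓔 κ J a b ∅ (fun _ => 0) (y - 1) 0 s := by
      refine ⟨?_, ?_⟩
      · intro a' b' _ _ π _ _
        simp
      · intro t ht _
        have := mem_Ioo.1 ht
        rw [sdiff_empty]
        exact (hEv t (by omega) (by omega)).2.1
    refine (level_round_two (δ := 1) (ys := y - 1) (σ' := σ 1) hκ hs htag one_pos
      (fun _ => le_rfl) hEv hL hP le_rfl ?_ ?_ hab (by rw [sdiff_empty]; exact hT)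
      (by rw [sdiff_empty]; exact hF)).bind fun ρ1 he1 h1 => ?_
    · have := hσ 1 le_rfl
      calc 6 * (J : ℝ) * 1 * s = 12 * (J : ℝ) * (1 / 2) ^ 1 * s := by ring
        _ ≤ _ := this
    · intro Z' W' ρ' hW0' hL' hT' hF'
      have hcast : ((0 : ℝ) + 1) = ((1 : ℕ) : ℝ) := by push_cast; ring
      rw [hcast] at hL'
      refine level_two hκ hs htag hJ σ hσ (J - 1) 1 le_rfl (by omega) a b Z' W' (y - 1) ρ' hW0'
        hEv hL' ?_ hab hT' hF'
      exact hP.mono hκ le_rfl le_rfl (by norm_num)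
    · obtain ⟨a', b', h1, h2, h3, h4, h5, h6, h7, h8⟩ := h1
      rw [sdiff_empty] at h4 h5
      refine (ih a' b' (y - 1) ρ1 (by push_cast at hy; linarith)
        (fun t ht1 ht2 => hEv t (by omega) (by omega)) h6 h2 h4 h5).weaken fun ρ2 _ h => ?_
      obtain ⟨t, t1, t2, t3, t4⟩ := h
      exact ⟨t, by omega, by omega, t3, t4⟩

theorem costT_le (e0 s J : ℕ) (σ : ℕ → ℕ)
    (hσ : ∀ j, (σ j : ℝ) ≤ 12 * (J : ℝ) * (1 / 2) ^ j * s + 1) :
    ∀ d : ℕ, d ≤ J → (costT e0 σ J d : ℝ) + 4 * (e0 + 1) ≤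
      2 ^ d * (8 * (e0 + 1) + (48 + 48 * d) * (J * (1 / 2) ^ J * s)) := by
  intro d
  induction d with
  | zero =>
    intro _
    have h := hσ J
    simp only [costT]
    push_cast
    rw [pow_zero]
    nlinarith
  | succ d ih =>
    intro hd
    have h1 := ih (by omega)
    have h := hσ (J - (d + 1))
    have hp : (1 / 2 : ℝ) ^ (J - (d + 1)) = 2 ^ (d + 1) * (1 / 2) ^ J := by
      have : J = (J - (d + 1)) + (d + 1) := by omega
      conv_rhs => rw [this, pow_add]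
      have h2 : (2 : ℝ) ^ (d + 1) * (1 / 2) ^ (d + 1) = 1 := by
        rw [← mul_pow]; norm_num
      calc (1 / 2 : ℝ) ^ (J - (d + 1)) = (1 / 2) ^ (J - (d + 1)) * (2 ^ (d + 1) * (1 / 2) ^ (d + 1)) := by
            rw [h2, mul_one]
        _ = _ := by ring
    rw [hp] at h
    simp only [costT]
    push_cast
    have e1 : (2 : ℝ) ^ (d + 1) * (8 * (e0 + 1) + (48 + 48 * (d + 1)) * (J * (1 / 2) ^ J * s)) =
        2 * (2 ^ d * (8 * (e0 + 1) + (48 + 48 * d) * (J * (1 / 2) ^ J * s))) +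
          4 * (12 * J * (2 ^ (d + 1) * (1 / 2) ^ J) * s) := by
      rw [pow_succ]
      ring
    rw [e1]
    linarith

end

end Pool.Agent.Lib.Pad9061
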